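import Pool.Agent.MP_154433_an.t8.Spec

/-! Row At: the weights along the set and the mean weights have small atoms. -/

set_option autoImplicit false

open Filter Topology
open scoped BigOperators

namespace T8

open Pool.Agent.MP_154433_an
open T3S (Gr yw nu nb Wt ind)

namespace AtL

theorem key {x W V L L' ε : ℝ} (hε : 0 < ε) (hx : x ≤ 1) (hL : 0 < L) (hL0 : 0 ≤ L')
    (hL' : L' ≤ 2 * L) (hW : 4 / ε ≤ W / L) (hV : W ≤ 2 * V) : x / V * L' ≤ ε := by
  rw [div_le_div_iff₀ hε hL] at hW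
  have hW0 : 0 < W := by
    by_contra h
    nlinarith [mul_nonneg (neg_nonneg.2 (not_lt.1 h)) hε.le]
  have hV0 : 0 < V := by linarith
  rw [div_mul_eq_mul_div, div_le_iff₀ hV0]
  nlinarith [mul_le_mul_of_nonneg_right hx hL0, mul_le_mul_of_nonneg_right hV hε.le]

theorem lg {M : ℕ} (h : 2 ≤ M) : 0 < Real.log M ∧ 0 ≤ Real.log ((M : ℝ) + 1) ∧
    Real.log ((M : ℝ) + 1) ≤ 2 * Real.log M := by
  have h2 : (2 : ℝ) ≤ M := by exact_mod_cast h
  refine ⟨Real.log_pos (by linarith), Real.log_nonneg (by linarith), ?_⟩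
  have := Real.log_pow (M : ℝ) 2
  push_cast at this
  rw [← this]
  exact Real.log_le_log (by linarith) (by nlinarith)

end AtL

theorem atm : AtR := by
  intro σ p hσ hG hy
  have hG' : ∀ ε : ℝ, ∀ᶠ M : ℕ in atTop, 4 / ε ≤ Wt σ M / Real.log M := fun ε => by
    simpa only [pow_one] using hG.eventually_ge_atTop (4 / ε)
  have pos : ∀ {ε : ℝ} {M : ℕ}, 0 < ε → 2 ≤ M → 4 / ε ≤ Wt σ M / Real.log M → 0 < Wt σ M :=
    fun hε hM h => (div_pos_iff_of_pos_right (AtL.lg hM).1).1 ((div_pos four_pos hε).trans_le h)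
  refine ⟨fun ε hε => ?_, fun ε hε => ?_⟩
  · filter_upwards [hG' ε, eventually_ge_atTop 2,
      hy.eventually_const_le (show (-1 / 2 : ℝ) < 0 by norm_num)] with M h hM hs d _
    obtain ⟨a, b, c⟩ := AtL.lg hM
    refine AtL.key hε ?_ a b c h ?_
    · unfold ind
      split_ifs <;> norm_num
    · have e : ∑ d ∈ Finset.range M, yw σ p M d = (Wt (ind p) M - Wt σ M) / Wt σ M := by
        simp only [yw, ← Finset.sum_div, Finset.sum_sub_distrib]
        rfl
      rw [e, le_div_iff₀ (pos hε hM h)] at hs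
      linarith
  · filter_upwards [hG' ε, eventually_ge_atTop 2] with M h hM d _
    obtain ⟨a, b, c⟩ := AtL.lg hM
    exact AtL.key hε (hσ d).2 a b c h (by linarith [pos hε hM h])

end T8
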