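import Pool.Agent.MP_154433_an.t8.Spec

/-! Row `Cl`: the two classes of products are closed under the operations. -/

set_option autoImplicit false
set_option linter.unusedVariables false
set_option warn.classDefReducibility false

open MeasureTheory ProbabilityTheory Filter Topology Function
open scoped BigOperators ComplexConjugate

noncomputable section

namespace T8

open Pool.Agent.MP_154433_an hiding BM
open T4S (Gm)
open T4x (Emb Fd)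
open T6 (Sy MB IvF act)

namespace ClL

lemma one' (X : Sy) (u : Gm 2) : IvF X u fun _ => 1 :=
  ⟨⟨measurable_const, fun _ => by simp⟩, EventuallyEq.rfl⟩

lemma tz' {X : Sy} {u : Gm 2} {c : X.X → ℂ} (h : IvF X u c) (v : Gm 2) :
    IvF X u fun x => c (X.A v x) := by
  refine ⟨(act X).tz h.1 v, ?_⟩
  filter_upwards [((act X).mp v).quasiMeasurePreserving.ae_eq_comp h.2] with x hx
  rw [(act X).comm v u x]
  exact hx

lemma pb' (F : Fd) {X' X : Sy} {p : X'.X → X.X} (hp : Emb X' X p) {u : Gm 2} {c : X.X → ℂ}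
    (h : IvF X u c) : IvF X' u fun x => c (p x) := by
  refine ⟨⟨h.1.1.comp hp.mp.measurable, h.1.2.comp _⟩, ?_⟩
  have h1 := F.a.keq_fun X.ms X'.μ X.μ _ _ c (hp.mp.comp (X'.mp u)) ((X.mp u).comp hp.mp)
    (hp.eqv u) h.1.1.aestronglyMeasurable
  exact h1.trans (hp.mp.quasiMeasurePreserving.ae_eq_comp h.2)

lemma mb {X : Sy} {u : Gm 2} {ψ : X.X → ℂ} (h : Eig X u ψ) : MB X ψ := h.elim fun _ k => k.1

end ClL

open ClL in
theorem cl : ClR := by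
  intro F V Z a b
  refine ⟨⟨?_, ?_, ?_, ?_, ?_, ?_⟩, ⟨?_, ?_, ?_, ?_, ?_, ?_⟩⟩
  · rintro X _ ⟨β, c, hβ, hc, rfl⟩
    exact (mb hβ).mul hc.1
  · intro X
    exact ⟨_, _, Z.ivf X _ _ (one' X _), one' X _, funext fun x => by simp⟩
  · rintro X _ ⟨β, c, hβ, hc, rfl⟩ _ ⟨β', c', hβ', hc', rfl⟩
    exact ⟨_, fun x => c x * c' x, Z.mul X _ _ _ hβ hβ', ⟨hc.1.mul hc'.1, hc.2.mul hc'.2⟩,
      funext fun x => by ring⟩
  · rintro X _ ⟨β, c, hβ, hc, rfl⟩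
    exact ⟨_, fun x => conj (c x), Z.cj X _ _ hβ, ⟨hc.1.cj, hc.2.fun_comp conj⟩,
      funext fun x => by simp only [map_mul]⟩
  · rintro X v _ ⟨β, c, hβ, hc, rfl⟩
    exact ⟨_, _, Z.tz X _ _ v hβ, tz' hc v, rfl⟩
  · rintro X' X p hp _ ⟨β, c, hβ, hc, rfl⟩
    exact ⟨_, _, Z.pb X' X p _ _ hp hβ, pb' F hp hc, rfl⟩
  · rintro X _ ⟨β, c, hβ, hc, rfl⟩
    exact (mb hc).mul (mb hβ)
  · intro X
    exact ⟨_, _, Z.ivf X _ _ (one' X _), Z.ivf X _ _ (one' X _), funext fun x => by simp⟩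
  · rintro X _ ⟨β, c, hβ, hc, rfl⟩ _ ⟨β', c', hβ', hc', rfl⟩
    exact ⟨_, _, Z.mul X _ _ _ hβ hβ', Z.mul X _ _ _ hc hc', funext fun x => by ring⟩
  · rintro X _ ⟨β, c, hβ, hc, rfl⟩
    exact ⟨_, _, Z.cj X _ _ hβ, Z.cj X _ _ hc, funext fun x => by simp only [map_mul]⟩
  · rintro X v _ ⟨β, c, hβ, hc, rfl⟩
    exact ⟨_, _, Z.tz X _ _ v hβ, Z.tz X _ _ v hc, rfl⟩
  · rintro X' X p hp _ ⟨β, c, hβ, hc, rfl⟩
    exact ⟨_, _, Z.pb X' X p _ _ hp hβ, Z.pb X' X p _ _ hp hc, rfl⟩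

end T8

end
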