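import Pool.Agent.MP_154433_an.t8.Spec
import Pool.Agent.MP_154433_an.p5.U2

/-! Row Conv: signed twisted sums against differences of twisted averages. -/

set_option autoImplicit false
set_option linter.unusedVariables false
set_option warn.classDefReducibility false

open MeasureTheory ProbabilityTheory Filter Topology Function
open scoped BigOperators ComplexConjugate

noncomputable section

namespace T8

open Pool.Agent.MP_154433_an hiding BM
open T3S.Bridge (toWt av_eq)
open T5u (tav)
open T5u.UConv (norm_ee cont_ee av_le l12)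
open T5x (ee)

theorem conv : ConvR := by
  intro _ ν ν' h h' Y g b ⟨hg, C, hC⟩ hb
  have mp : ∀ d : ℤ, MeasurePreserving (Y.Tz d) Y.μ Y.μ := fun d => T3S.Tz_mp Y.mp d
  have bd : ∀ᵐ y ∂Y.μ, ∀ (d : ℤ) (t : ℝ), ‖g (Y.Tz d y) * ee t‖ ≤ C :=
    (ae_all_iff.2 fun d : ℤ => (mp d).quasiMeasurePreserving.ae hC).mono fun y hy d t => by
      rw [norm_mul, norm_ee, mul_one]; exact hy d
  have ms : ∀ (M : ℕ) (d : ℤ) (c : ℝ),
      AEStronglyMeasurable (fun y => g (Y.Tz d y) * ee (c * b M y)) Y.μ := fun M d c =>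
    (hg.comp_measurePreserving (mp d)).mul
      (cont_ee.measurable.comp ((hb M).const_mul c)).aestronglyMeasurable
  have mt : ∀ (w : T3x.Wt) (M : ℕ),
      AEStronglyMeasurable (fun y => tav w Y g M (b M y) y) Y.μ :=
    fun w M => Finset.aestronglyMeasurable_fun_sum _ fun d _ => (ms M d d).const_smul (w.w M d)
  have hu := fun M => (mt (toWt ν h) M).sub (mt (toWt ν' h') M)
  have hK : ∀ M, ∀ᵐ y ∂Y.μ,
      ‖tav (toWt ν h) Y g M (b M y) y - tav (toWt ν' h') Y g M (b M y) y‖ ≤ C + C :=
    fun M => bd.mono fun y hy => (norm_sub_le _ _).trans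
      (add_le_add (av_le _ M fun d => hy d _) (av_le _ M fun d => hy d _))
  rw [UVb, ← l12 (u := fun M y =>
    tav (toWt ν h) Y g M (b M y) y - tav (toWt ν' h') Y g M (b M y) y) hu hK]
  refine tendsto_congr' ?_
  filter_upwards [h.2, h'.2] with M e e'
  refine integral_congr_ae (Eventually.of_forall fun y => ?_)
  beta_reduce
  rw [tav, tav, av_eq h e, av_eq h' e', ← Finset.sum_sub_distrib, sw]
  refine congrArg _ (Finset.sum_congr rfl fun d _ => ?_)
  simp only [T6.df, Complex.real_smul, Int.cast_natCast, Complex.ofReal_sub, sub_mul]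

end T8

end
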