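import Pool.Agent.MP_154433_an.t8.Spec

/-! Row Dbl: products of eigenfunctions of the step and of the difference are good. -/

set_option autoImplicit false

open MeasureTheory ProbabilityTheory Filter Topology Function
open scoped BigOperators ComplexConjugate

noncomputable section

namespace T8

open Pool.Agent.MP_154433_an hiding BM
open T3S (B1 MB1 PW AsInv Bd)
open T4S (Gm)
open Fib27 (BM)
open T4x (Fac Inv Nice Fd)
open T6 (Sy MB NN IvF Ver VB Nul LF d2 G0 G0S df)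

namespace DblL

lemma mb_d2 {X : Sy} {g : X.X → ℂ} (hg : MB X g) (u : Gm 2) (n n' : ℕ) : MB X (d2 X u n n' g) :=
  ((T6.act X).tz hg _).mul ((T6.act X).tz hg _).cj

lemma mb {X : Sy} {u : Gm 2} {ψ : X.X → ℂ} (h : Eig X u ψ) : MB X ψ := h.choose_spec.1

lemma bd {ν ν' : ℕ → ℕ → ℝ} (h : PW ν) (h' : PW ν') : Bd (df ν ν') := by
  filter_upwards [h.2, h'.2] with M a b
  calc ∑ d ∈ Finset.range M, |df ν ν' M d| ≤ ∑ d ∈ Finset.range M, (ν M d + ν' M d) :=
        Finset.sum_le_sum fun d _ => abs_le.2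
          ⟨by rw [df]; linarith [h.1 M d], by rw [df]; linarith [h'.1 M d]⟩
    _ ≤ 3 := by rw [Finset.sum_add_distrib, a, b]; norm_num

/-- the part without projection on the first lift -/
lemma one (F : Fd) (W : WB) (E : EB) (hD : DcS) {ν ν' : ℕ → ℕ → ℝ} (hν : PW ν) (hν' : PW ν')
    {X : Sy} {a b : Gm 2} (hS : ∀ χ, Eig X (b - a) χ → GdW X a b (df ν ν') χ) {φ χ f : X.X → ℂ}
    (hφ : Eig X b φ) (hχ : Eig X (b - a) χ) (hf : MB X f) (h0 : G0 X a b b ν' χ) :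
    VW X a b (df ν ν') f fun x => χ x * φ x := by
  intro h hh
  refine tendsto_order.2 ⟨fun t ht => .of_forall fun M => ht.trans_le (W.nonneg _ _ _ _ _ _ _ _),
    fun ε hε => ?_⟩
  set η : ℝ := (ε / 3) ^ 2 / 3 with hη
  have hη0 : 0 < η := by positivity
  obtain ⟨N, α, hN, hα, h0⟩ := h0 η hη0
  have : Nonempty (Fin N) := ⟨⟨0, hN⟩⟩
  have m0 : ∀ n n', MB X (d2 X b n n' fun x => h x * φ x) := mb_d2 (hh.mul (mb hφ)) b
  have m1 := mb_d2 hf b
  have m2 := mb_d2 (mb hχ) b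
  have e1 : ∀ᶠ M in atTop, ∀ n n' : Fin N,
      NN X a b (ν' M) M (d2 X b n n' f) (d2 X b n n' χ) ≤ α n n' + η :=
    eventually_all.2 fun n => eventually_all.2 fun n' =>
      h0 n n' X.ms _ _ (F.t.top X) (m1 n n') ⟨m2 n n', (Fib27.BM.ce_self le_rfl
        ⟨(m2 n n').1.aestronglyMeasurable, 1, .of_forall (m2 n n').2⟩).symm⟩ η hη0
  have e2 : ∀ᶠ M in atTop, ∀ n n' : Fin N, NW X a b (df ν ν' M) M
      (d2 X b n n' fun x => h x * φ x) (d2 X b n n' f) (d2 X b n n' χ) ≤ η :=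
    eventually_all.2 fun n => eventually_all.2 fun n' =>
      (hS _ (E.mul _ _ _ _ (E.tz _ _ _ _ hχ) (E.cj _ _ _ (E.tz _ _ _ _ hχ))) _ (m1 n n') _
        (m0 n n')).eventually (ge_mem_nhds hη0)
  filter_upwards [e1, e2, hν.2, hν'.2] with M a1 a2 s1 s2
  have fin : ∀ κ : ℕ → ℝ, (∀ d, 0 ≤ κ d) → ∑ d ∈ Finset.range M, κ d = 1 →
      (∀ n n' : Fin N, NW X a b κ M (d2 X b n n' fun x => h x * φ x) (d2 X b n n' f)
        (d2 X b n n' χ) ≤ α n n' + 2 * η) → NW X a b κ M h f (fun x => χ x * φ x) ≤ ε / 3 := by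
    intro κ k0 k1 hb
    refine (abs_le_of_sq_le_sq' ?_ (by positivity)).2
    refine (hD X a b φ h f χ hφ hh hf (mb hχ) N κ M hN k0 k1).trans ?_
    refine (Finset.expect_le_expect fun n _ => Finset.expect_le_expect fun n' _ => hb n n').trans ?_
    simp only [Finset.expect_add_distrib, Fintype.expect_const]
    linarith
  have a3 := fun n n' : Fin N => (W.le X a b (ν' M) M _ _ _ (m0 n n') (m1 n n') (m2 n n')).trans
    (a1 n n')
  have f1 := fin (ν M) (hν.1 M) s1 fun n n' => by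
    have h1 := W.tri X a b (ν M) (ν' M) M (d2 X b n n' fun x => h x * φ x) (d2 X b n n' f)
      (d2 X b n n' χ)
    have h2 : NW X a b (fun d => ν M d - ν' M d) M (d2 X b n n' fun x => h x * φ x)
      (d2 X b n n' f) (d2 X b n n' χ) ≤ η := a2 n n'
    linarith [a3 n n']
  have f2 := fin (ν' M) (hν'.1 M) s2 fun n n' => by linarith [a3 n n']
  have h3 : NW X a b (df ν ν' M) M h f (fun x => χ x * φ x) ≤ _ :=
    W.sub X a b (ν M) (ν' M) M h f fun x => χ x * φ x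
  linarith

end DblL

open DblL in
theorem dbl : DblR := by
  rintro F V W E la hG cl hB hS hL hN hD ν ν' hν hν' ha hU a b tw X hX _ ⟨φ, χ, hφ, hχ, rfl⟩ f hf
  have P := la _ (cl a b).1 X hX
  have m1 : MB X fun _ => (1 : ℂ) := ⟨measurable_const, fun _ => by simp⟩
  have le : Inv X {b - a} ≤ LF (K1 a b) X :=
    V.fle X _ _ (F.t.finv X _) P.fac fun c hc hm => P.mem c ⟨fun _ => 1, c,
      E.ivf _ _ _ ⟨m1, .rfl⟩,
      (V.ivf X _ c hc).2 ⟨hm.stronglyMeasurable.aestronglyMeasurable, 1, .of_forall hc.2⟩, by simp⟩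
  obtain ⟨χ', hv, hm⟩ := V.ver X _ χ P.fac (mb hχ)
  obtain ⟨hr, hz⟩ := V.half X _ χ χ' P.fac (mb hχ) hv
  refine W.split X a b _ f χ χ' φ hf (mb hχ) hv.1 (mb hφ) ?_ ?_
  · refine hL _ a b _ (cl a b).1 (bd hν hν') (fun Y _ G hG => hB _ hU Y a b G hG) X hX _
      (hv.1.mul (mb hφ)) (Fib27.BM.mul ⟨hm.stronglyMeasurable.aestronglyMeasurable, 1,
        .of_forall hv.1.2⟩ (P.mem φ ⟨φ, fun _ => 1, hφ, ⟨m1, .rfl⟩, by simp⟩)) f hf
  · exact one F W E hD hν hν' (hS _ hU X a b) hφ (E.ver X _ _ χ χ' P.fac le hχ hv) hf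
      (hG ν' hν' ha X a b b _ hr ((hN a b tw X hX _ hr).1 hz))

end T8

end
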