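import Pool.Agent.MP_154433_an.t8.Spec

/-! Row Dc: the Cauchy-Schwarz step that removes an eigenfunction. -/

set_option autoImplicit false
set_option linter.unusedVariables false

open MeasureTheory ProbabilityTheory Filter Topology Function
open scoped BigOperators ComplexConjugate

noncomputable section

namespace T8

open Pool.Agent.MP_154433_an hiding BM
open T3S (MB1)
open T4S (Gm)
open T6 (Sy MB ee d2 act)

namespace DcL

lemma cs {Ω : Type} [MeasurableSpace Ω] (μ : Measure Ω) [IsProbabilityMeasure μ] {N : ℕ}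
    {Ψ : Fin N → Ω → ℂ} (hΨ : ∀ n, MB1 (Ψ n)) {e : Ω → ℂ} (he : MB1 e) {T : ℂ}
    (h : ∀ n, ∫ x, Ψ n x * e x ∂μ = T) :
    (N : ℝ) ^ 2 * ‖T‖ ^ 2 ≤ ∑ n, ∑ n', (∫ x, Ψ n x * conj (Ψ n' x) ∂μ).re := by
  have e1 : ∫ x, (∑ n, Ψ n x) * e x ∂μ = N * T := by
    simp only [Finset.sum_mul]
    rw [integral_finsetSum _ fun n _ => ((hΨ n).mul he).integrable μ]
    simp [h]
  have i1 : ∀ n n', Integrable (fun x => Ψ n x * conj (Ψ n' x)) μ := fun n n' =>
    ((hΨ n).mul (hΨ n').cj).integrable μ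
  have e2 : ∫ x, ‖∑ n, Ψ n x‖ ^ 2 ∂μ = ∑ n, ∑ n', (∫ x, Ψ n x * conj (Ψ n' x) ∂μ).re := by
    have : ∀ x, ‖∑ n, Ψ n x‖ ^ 2 = ∑ n, ∑ n', (Ψ n x * conj (Ψ n' x)).re := fun x => by
      rw [← Complex.normSq_eq_norm_sq, ← Complex.ofReal_re (Complex.normSq _), ← Complex.mul_conj,
        map_sum, Finset.sum_mul_sum]
      simp only [Complex.re_sum]
    have i2 : ∀ n n', Integrable (fun x => (Ψ n x * conj (Ψ n' x)).re) μ := fun n n' =>
      (i1 n n').re
    simp only [this]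
    rw [integral_finsetSum _ fun n _ => integrable_finsetSum _ fun n' _ => i2 n n']
    refine Finset.sum_congr rfl fun n _ => ?_
    rw [integral_finsetSum _ fun n' _ => i2 n n']
    exact Finset.sum_congr rfl fun n' _ => integral_re (i1 n n')
  have m0 : ∀ n, MemLp (Ψ n) 2 μ := fun n =>
    MemLp.of_bound (hΨ n).1.aestronglyMeasurable 1 (ae_of_all _ (hΨ n).2)
  have m1 : MemLp (fun x => ∑ n, Ψ n x) 2 μ := memLp_finsetSum _ fun n _ => m0 n
  have m : MemLp (fun x => ‖∑ n, Ψ n x‖) 2 μ := m1.norm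
  have e3 : N * ‖T‖ ≤ ∫ x, ‖∑ n, Ψ n x‖ ∂μ := by
    rw [← Complex.norm_natCast, ← norm_mul, ← e1]
    refine norm_integral_le_of_norm_le (m.integrable one_le_two) (ae_of_all _ fun x => ?_)
    rw [norm_mul]
    exact mul_le_of_le_one_right (norm_nonneg _) (he.2 x)
  have e4 := variance_nonneg (fun x => ‖∑ n, Ψ n x‖) μ
  rw [variance_eq_sub m] at e4
  simp only [Pi.pow_apply] at e4
  rw [← e2, ← mul_pow]
  exact (pow_le_pow_left₀ (by positivity) e3 2).trans (by linarith)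

lemma one (X : Sy) (u : Gm 2) {ξ : X.X → ℝ} (mξ : Measurable ξ)
    (hξ : ∀ᵐ x ∂X.μ, ∀ n : ℕ, ξ (X.A ((n : ℤ) • u) x) = ξ x) {w : X.X → ℂ} (hw : MB X w) (t : ℝ)
    (N : ℕ) : (N : ℝ) ^ 2 * ‖∫ x, w x * ee (t * ξ x) ∂X.μ‖ ^ 2 ≤
      ∑ n : Fin N, ∑ n' : Fin N, (∫ x, d2 X u n n' w x ∂X.μ).re := by
  have he : MB X fun x => ee (t * ξ x) :=
    ⟨by unfold ee; fun_prop, fun x => (Complex.norm_exp_ofReal_mul_I _).le⟩
  refine cs X.μ (Ψ := fun n x => w (X.A (((n : ℕ) : ℤ) • u) x)) (fun n => (act X).tz hw _) he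
    fun n => ?_
  rw [← (act X).integral (((n : ℕ) : ℤ) • u) (hw.mul he).1.aestronglyMeasurable]
  refine integral_congr_ae ?_
  filter_upwards [hξ] with x hx
  rw [hx]

end DcL

theorem dc : DcR := by
  rintro _ E X a b φ h f χ ⟨ξ, hξ⟩ hh hf hχ N κ M hN κ0 κ1
  have hp := E.pow X b ξ φ hξ
  let w : ℕ → X.X → ℂ := fun d x =>
    h x * φ x * (f (X.A ((d : ℤ) • a) x) * χ (X.A ((d : ℤ) • b) x))
  have hw : ∀ d, MB X (w d) := fun d =>
    (hh.mul hξ.1).mul (((act X).tz hf _).mul ((act X).tz hχ _))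
  have h1 : NW X a b κ M h f (fun x => χ x * φ x) ≤
      ∑ d ∈ Finset.range M, κ d * ‖∫ x, w d x * ee ((d : ℝ) * ξ x) ∂X.μ‖ := by
    refine (norm_sum_le _ _).trans (le_of_eq (Finset.sum_congr rfl fun d _ => ?_))
    rw [norm_mul, Complex.norm_real, Real.norm_of_nonneg (κ0 d)]
    congr 2
    refine integral_congr_ae ?_
    filter_upwards [hp] with x hx
    rw [(hx d).2]
    simp only [w]
    ring
  have h2 : ∀ n n' : ℕ, ∑ d ∈ Finset.range M, κ d * (∫ x, d2 X b n n' (w d) x ∂X.μ).re ≤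
      NW X a b κ M (d2 X b n n' fun x => h x * φ x) (d2 X b n n' f) (d2 X b n n' χ) := by
    intro n n'
    refine le_trans (le_of_eq ?_) (Complex.re_le_norm _)
    simp only [Complex.re_sum, Complex.re_ofReal_mul]
    refine Finset.sum_congr rfl fun d _ => ?_
    congr 3
    funext x
    simp only [d2, w, map_mul, ← X.add, add_comm]
    ring
  have hN' : (0 : ℝ) < N := by exact_mod_cast hN
  refine (pow_le_pow_left₀ (norm_nonneg _) h1 2).trans
    ((Real.pow_arith_mean_le_arith_mean_pow _ _ _ (fun d _ => κ0 d) κ1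
      (fun d _ => norm_nonneg _) 2).trans ?_)
  simp only [Fintype.expect_eq_sum_div_card, Fintype.card_fin, ← Finset.sum_div]
  rw [div_div, le_div_iff₀ (by positivity), Finset.sum_mul]
  refine le_trans ?_
    (Finset.sum_le_sum fun (n : Fin N) _ => Finset.sum_le_sum fun (n' : Fin N) _ => h2 n n')
  simp only [← Finset.sum_comm (s := Finset.range M), ← Finset.mul_sum]
  refine Finset.sum_le_sum fun d _ => ?_
  rw [mul_assoc, mul_comm _ ((N : ℝ) * N), ← sq]
  exact mul_le_mul_of_nonneg_left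
    (DcL.one X b hξ.2.1 (hp.mono fun x hx n => (hx n).1) (hw d) d N) (κ0 d)

end T8

end
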