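import Pool.Agent.MP_154433_an.t8.Spec
import Pool.Agent.MP_154433_an.p5.U1

/-! Row DetU: twisted averages with a fixed frequency, from the core theorem. -/

set_option autoImplicit false
set_option linter.unusedVariables false
set_option warn.classDefReducibility false

open MeasureTheory ProbabilityTheory Filter Topology Function Finset ComplexConjugate
open scoped BigOperators
open Fib27 (BM)
open Pool.Agent.MP_154433_an

noncomputable section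

namespace T8

namespace DetUL

open T3x T5x T5u

def U0f (ν : Wt) (Y : Sys) (g : Y.X → ℂ) : Prop :=
  ∀ b : Y.X → ℝ, Measurable b →
    Tendsto (fun M => ∫ y, ‖tav ν Y g M (b y) y‖ ^ 2 ∂Y.μ) atTop (𝓝 0)

def UVf (ν ν' : Wt) (Y : Sys) (g : Y.X → ℂ) : Prop :=
  ∀ b : Y.X → ℝ, Measurable b →
    Tendsto (fun M => ∫ y, ‖tav ν Y g M (b y) y - tav ν' Y g M (b y) y‖ ^ 2 ∂Y.μ) atTop (𝓝 0)

def UGx (ν ν' : Wt) (Y : Sys) (C : MeasurableSpace Y.X) : Prop :=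
  ∀ g : Y.X → ℂ, BM Y.μ C g → UVf ν ν' Y g

structure Gx : Prop where
  dense : ∀ (ν ν' : Wt) (X : Sys) (C : MeasurableSpace X.X) (T : Set (X.X → ℂ)), C ≤ X.ms →
    (∀ φ ∈ T, BM X.μ X.ms φ) →
    (∀ g, BM X.μ C g → ∀ ε : ℝ, 0 < ε → ∃ (n : ℕ) (a : Fin n → X.X → ℂ), (∀ i, a i ∈ T) ∧
      ∫ x, ‖g x - ∑ i, a i x‖ ^ 2 ∂X.μ ≤ ε) →
    (∀ f ∈ T, UVf ν ν' X f) → UGx ν ν' X C
  chain : ∀ (ν ν' : Wt) (X : Sys) (𝒞 : Set (MeasurableSpace X.X)), 𝒞.Nonempty →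
    IsChain (· ≤ ·) 𝒞 → (∀ C ∈ 𝒞, Fac X C ∧ UGx ν ν' X C) → UGx ν ν' X (sSup 𝒞)
  down : ∀ (ν ν' : Wt) (X X' : Sys) (e : X.X → X'.X), Emb X X' e →
    (∀ f ∈ Bdd X.X, ∃ f' ∈ Bdd X'.X, ∀ x, f' (e x) = f x) → UGx ν ν' X' X'.ms → UGx ν ν' X X.ms
  zero : ∀ (ν ν' : Wt) (X : Sys) (f : X.X → ℂ), BM X.μ X.ms f → U0f ν X f → U0f ν' X f →
    UVf ν ν' X f
  add : ∀ (ν ν' : Wt) (X : Sys) (f f1 f2 : X.X → ℂ), BM X.μ X.ms f1 → BM X.μ X.ms f2 →
    (f =ᵐ[X.μ] fun x => f1 x + f2 x) → UVf ν ν' X f1 → UVf ν ν' X f2 → UVf ν ν' X f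

def CptAf : Prop := ∀ (ν' ν'' : Wt) (X : Sys) B0 C Z p, Nice X → Fac X B0 → Fac X C → B0 ≤ C →
  Pair X C Z p → UGx ν'' ν' X C → TG0 ν' X B0 → ∀ (H : Z.X → ℂ) (g k : X.X → ℂ),
  BM Z.μ (T3x.Inv Z) H → BM X.μ X.ms g → BM X.μ X.ms k → Star p H g k →
  X.μ[g | C] =ᵐ[X.μ] 0 → U0f ν'' X k

def Cptf : Prop := ∀ (ν ν' : Wt) (X : Sys) B0 C, Nice X → Fac X B0 → Fac X C → B0 ≤ C →
  T3x.Inv X ≤ C → UGx ν ν' X C → TG0 ν' X B0 → UGx ν ν' X (KK X C)

section G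

open T3x.GfL UGfL

variable {X : Sys} {ν ν' : Wt}

lemma dense (t : BasT) {C : MeasurableSpace X.X} {T : Set (X.X → ℂ)} (hC : C ≤ X.ms)
    (hT : ∀ φ ∈ T, BM X.μ X.ms φ)
    (h1 : ∀ g, BM X.μ C g → ∀ ε : ℝ, 0 < ε → ∃ (n : ℕ) (a : Fin n → X.X → ℂ), (∀ i, a i ∈ T) ∧
      ∫ x, ‖g x - ∑ i, a i x‖ ^ 2 ∂X.μ ≤ ε)
    (h2 : ∀ f ∈ T, UVf ν ν' X f) : UGx ν ν' X C := by
  intro g hg b hb
  have hg' := hg.mono hC
  refine sm_apx (m0 := X.ms) (μ := X.μ)
    (φ := fun M y => tav ν X g M (b y) y - tav ν' X g M (b y) y) fun ε hε => ?_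
  obtain ⟨n, a, ha, hd'⟩ := h1 g hg (ε / 4) (by positivity)
  have hd := hg'.sub (bm_sum univ fun j _ => hT _ (ha j))
  have bm : ∀ j M, BM X.μ X.ms fun x => tav ν X (a j) M (b x) x - tav ν' X (a j) M (b x) x :=
    fun j M => (bm_tav t (hT _ (ha j)) M hb).sub (bm_tav t (hT _ (ha j)) M hb)
  refine ⟨_, fun M x => tav ν X (fun y => g y - ∑ j, a j y) M (b x) x -
    tav ν' X (fun y => g y - ∑ j, a j y) M (b x) x,
    sm_sum univ bm fun j => h2 _ (ha j) b hb, fun M => ⟨bm_sum _ fun j _ => bm j M,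
      (bm_tav t hd M hb).sub (bm_tav t hd M hb), ?_⟩, fun M x => ?_⟩
  · linarith [n2_sub (bm_tav (ν := ν) t hd M hb) (bm_tav (ν := ν') t hd M hb),
      contr (ν := ν) t hd M hb, contr (ν := ν') t hd M hb]
  · rw [tav_split (ν := ν) g a, tav_split (ν := ν') g a, sum_sub_distrib]
    ring

lemma ee_fract (d : ℤ) (s : ℝ) : ee ((d : ℝ) * Int.fract s) = ee ((d : ℝ) * s) := by
  have e : (d : ℝ) * s = (d : ℝ) * Int.fract s + ((d * ⌊s⌋ : ℤ) : ℝ) := by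
    rw [Int.fract]
    push_cast
    ring
  have e1 : ee ((d * ⌊s⌋ : ℤ) : ℝ) = 1 := by
    rw [ee, ← Complex.exp_int_mul_two_pi_mul_I (d * ⌊s⌋)]
    congr 1
    push_cast
    ring
  rw [e, UCptAx.ee_add, e1, mul_one]

lemma down (A : BasA) (t : BasT) {X' : Sys} {e : X.X → X'.X} (he : Emb X X' e)
    (h : ∀ f ∈ Bdd X.X, ∃ f' ∈ Bdd X'.X, ∀ x, f' (e x) = f x) (hg : UGx ν ν' X' X'.ms) :
    UGx ν ν' X X.ms := by
  rintro f ⟨k1, C, hC⟩ b hb
  have hf : BM X.μ X.ms f := ⟨k1, C, hC⟩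
  obtain ⟨f0, a1, a2, a3⟩ := A.rep X.ms X.μ f (max C 0) (le_max_right _ _) k1
    (hC.mono fun _ h => h.trans (le_max_left _ _))
  obtain ⟨f', ⟨b1, C', b2⟩, b3⟩ := h f0 ⟨a1, _, a2⟩
  obtain ⟨β, ⟨m1, -⟩, m3⟩ := h (fun x => ((Int.fract (b x) : ℝ) : ℂ))
    ⟨Complex.measurable_ofReal.comp hb.fract, 1, fun x => by
      rw [Complex.norm_real, Real.norm_of_nonneg (Int.fract_nonneg _)]
      exact (Int.fract_lt_one _).le⟩
  have p1 : Measurable fun y => (β y).re := Complex.measurable_re.comp m1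
  have c1 : BM X'.μ X'.ms f' := ⟨b1.aestronglyMeasurable, C', Eventually.of_forall b2⟩
  have c2 : f =ᵐ[X.μ] fun x => f' (e x) := by simpa only [b3]
  have e1 : ∀ᵐ x ∂X.μ, ∀ (ν : Wt) M, tav ν X f M (b x) x = tav ν X' f' M (β (e x)).re (e x) := by
    filter_upwards [tav_congr t c2, ae_all_iff.2 fun n : ℤ => A.keq_fun X'.ms X.μ X'.μ _ _ f'
      (he.mp.comp (t.mp X n)) ((t.mp X' n).comp he.mp) (t.emb_z X X' e n he) c1.1] with x h1 h2
    intro ν M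
    rw [h1, tav_eq, tav_eq, m3, Complex.ofReal_re]
    exact sum_congr rfl fun d _ => congrArg _ (congrArg₂ (· * ·) (h2 d) (ee_fract d _).symm)
  refine (hg f' c1 _ p1).congr fun M => ?_
  rw [← int_comp he.mp (isq ((bm_tav (ν := ν) t c1 M p1).sub (bm_tav (ν := ν') t c1 M p1))).1]
  refine integral_congr_ae ?_
  filter_upwards [e1] with x hx
  rw [hx, hx]

theorem gx (F : Fd) : Gx := by
  obtain ⟨A, t, D, -⟩ := F
  refine ⟨fun ν ν' X C T hC hT h1 h2 => dense t hC hT h1 h2,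
    fun ν ν' X 𝒞 hne hch h => ?_, fun ν ν' X X' e he h hg => down A t he h hg,
    fun ν ν' X f hf h1 h2 b hb => ?_, fun ν ν' X f f1 f2 k1 k2 e h1 h2 b hb => ?_⟩
  · have hle := (t.fsSup X 𝒞 hne fun C hC => (h C hC).1).le
    refine dense t (T := {φ | ∃ C ∈ 𝒞, BM X.μ C φ}) hle
      (fun φ ⟨C, hC, hφ⟩ => hφ.mono (h C hC).1.le) (fun g hg ε hε => ?_)
      fun f ⟨C, hC, hφ⟩ => (h C hC).2 f hφ
    obtain ⟨C, hC, k⟩ := D.chain 𝒞 X.μ hne hch.directedOn (fun C hC => (h C hC).1.le) g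
      ((hg.mono hle).memLp 2) ε hε
    refine ⟨1, fun _ => X.μ[g | C], fun _ => ⟨C, hC, hg.ce C⟩, le_trans (le_of_eq ?_)
      (k C hC le_rfl)⟩
    refine integral_congr_ae ?_
    filter_upwards [BM.ce_self hle hg] with x hx
    rw [hx, Fin.sum_univ_one]
  · exact sm_of (μ := X.μ) (φ := fun M y => tav ν X f M (b y) y - tav ν' X f M (b y) y)
      (h1 b hb) (h2 b hb) fun M => n2_sub (bm_tav t hf M hb) (bm_tav t hf M hb)
  · refine sm_of (μ := X.μ) (φ := fun M y => tav ν X f M (b y) y - tav ν' X f M (b y) y)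
      (h1 b hb) (h2 b hb) fun M => le_trans (le_of_eq (integral_congr_ae ?_))
        (n2_add ((bm_tav t k1 M hb).sub (bm_tav t k1 M hb))
          ((bm_tav t k2 M hb).sub (bm_tav t k2 M hb)))
    filter_upwards [tav_congr t e] with x hx
    rw [hx, hx, tav_add, tav_add]
    congr 2
    ring

end G

section A

open CptA UCptAx

theorem core (F : Fd) (hk : KeyT) (hd : Drop) {ν' ν'' : Wt} {X Z : Sys}
    {B0 C : MeasurableSpace X.X} {p : Bool → Z.X → X.X} (hB : B0 ≤ C) (hC : Fac X C)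
    (hP : Pair X C Z p) (hGood : UGx ν'' ν' X C) (hG0 : TG0 ν' X B0) (H : Z.X → ℂ)
    (g k : X.X → ℂ) (a1 : BM Z.μ (T3x.Inv Z) H) (a2 : BM X.μ X.ms g) (a3 : BM X.μ X.ms k)
    (a4 : Star p H g k) (hg1 : ∀ᵐ x ∂X.μ, ‖g x‖ ≤ 1) (h0 : X.μ[g | C] =ᵐ[X.μ] 0) :
    U0f ν'' X k := by
  intro b hb
  obtain ⟨K, hK, hkey⟩ := hk X Z C p hC hP H g k a1 a2 a3 a4
  let G : ℕ → ℕ → X.X → ℂ := fun n n' y => g (X.Tz n y) * conj (g (X.Tz n' y))
  have hG : ∀ n n', BM X.μ X.ms (G n n') := fun n n' => (bmT F a2 n).mul (bmT F a2 n').conj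
  have hc : ∀ n n', BM X.μ C (X.μ[G n n' | C]) := fun n n' => (hG n n').ce C
  have hc' : ∀ n n', BM X.μ X.ms (X.μ[G n n' | C]) := fun n n' => (hc n n').mono hC.le
  let β : ℕ → ℕ → X.X → ℝ := fun n n' x => b (X.Tz n x) - b (X.Tz n' x)
  have hβ : ∀ n n', Measurable[X.ms] (β n n') := fun n n' =>
    (msh F.t hb n n')
  have main : ∀ N M, 1 ≤ N → (∫ x, ‖tav ν'' X k M (b x) x‖ ^ 2 ∂X.μ) ^ 2 ≤
      K * ∑ n ∈ range N, ∑ n' ∈ range N, (N : ℝ)⁻¹ * (N : ℝ)⁻¹ *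
        ∫ x, ‖tav ν'' X (X.μ[G n n' | C]) M (β n n' x) x‖ ^ 2 ∂X.μ := by
    intro N M hN
    rw [sq_tav F ν'' M a3 hb]
    refine (jensen _ _ (ν''.nn M) (ν''.one M) _ _ fun d d' => le_trans
      ((sq_abs _).symm.trans_le (pow_le_pow_left₀ (abs_nonneg _) (Complex.abs_re_le_norm _) 2))
      (hkey N hN d d' (fun x => ee (d * b x) * conj (ee (d' * b x)))
        ((bm_ee hb d).mul (bm_ee hb d').conj))).trans (le_of_eq ?_)
    simp only [sq_tav F ν'' M (hc' _ _) (hβ _ _), Finset.mul_sum]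
    simp only [Finset.sum_comm (s := ν''.sp M) (t := range N)]
    refine Finset.sum_congr rfl fun n _ => Finset.sum_congr rfl fun n' _ =>
      Finset.sum_congr rfl fun d _ => Finset.sum_congr rfl fun d' _ => ?_
    have e : (fun x => ee (d * b (X.Tz n x)) * conj (ee (d' * b (X.Tz n x))) *
        conj (ee (d * b (X.Tz n' x)) * conj (ee (d' * b (X.Tz n' x)))) *
        ((X.μ[G n n' | C]) (X.Tz d x) * conj ((X.μ[G n n' | C]) (X.Tz d' x)))) =
        fun x => ee (d * β n n' x) * conj (ee (d' * β n n' x)) *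
          ((X.μ[G n n' | C]) (X.Tz d x) * conj ((X.μ[G n n' | C]) (X.Tz d' x))) := by
      funext x
      simp only [β, ee_sub, map_mul]
      ring
    rw [e]
    ring
  have hB0 : X.μ[g | B0] =ᵐ[X.μ] 0 := by
    refine (condExp_condExp_of_le hB hC.le).symm.trans ((condExp_congr_ae h0).trans ?_)
    rw [condExp_zero]
  refine tendsto_order.2 ⟨fun a ha => Eventually.of_forall fun M =>
    ha.trans_le (integral_nonneg fun x => by positivity), fun ε hε => ?_⟩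
  have hδ : 0 < ε ^ 2 / (8 * K + 1) := by positivity
  obtain ⟨N, a, hN, ha, hs⟩ := hG0 g a2 hg1 hB0 _ hδ
  have hev : ∀ n ∈ range N, ∀ n' ∈ range N, ∀ᶠ M in atTop,
      ∫ x, ‖tav ν'' X (X.μ[G n n' | C]) M (β n n' x) x‖ ^ 2 ∂X.μ ≤
        6 * (ε ^ 2 / (8 * K + 1)) + 2 * a n n' := by
    intro n _ n' _
    filter_upwards [(tendsto_order.1 (hGood _ (hc n n') (β n n') (hβ n n'))).2 _ hδ,
      hs n n' _ hδ] with M h1 h2
    have h3 := sq_le_two (bmt F.t (hc' n n') (hβ n n') ν'' M) (bmt F.t (hc' n n') (hβ n n') ν' M)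
    obtain ⟨b', h4, h5⟩ := hd ν' X C (G n n') M (β n n') _ hC (hG n n') (hβ n n') hδ
    have h6 := h2 b' h4
    linarith
  filter_upwards [(Finset.eventually_all _).2 fun n hn => (Finset.eventually_all _).2 (hev n hn)]
    with M hM
  have hN' : (0 : ℝ) < N := by exact_mod_cast hN
  have h5 : ∑ n ∈ range N, ∑ n' ∈ range N, (N : ℝ)⁻¹ * (N : ℝ)⁻¹ *
      ∫ x, ‖tav ν'' X (X.μ[G n n' | C]) M (β n n' x) x‖ ^ 2 ∂X.μ ≤
      8 * (ε ^ 2 / (8 * K + 1)) := by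
    refine (Finset.sum_le_sum fun n hn => Finset.sum_le_sum fun n' hn' =>
      mul_le_mul_of_nonneg_left (hM n hn n' hn') (by positivity)).trans ?_
    simp only [← Finset.mul_sum, Finset.sum_add_distrib, Finset.sum_const, Finset.card_range,
      nsmul_eq_mul]
    calc _ = (N : ℝ)⁻¹ * (N : ℝ)⁻¹ * (N * (N * (6 * (ε ^ 2 / (8 * K + 1)))) +
          2 * ∑ n ∈ range N, ∑ n' ∈ range N, a n n') := by ring
      _ ≤ (N : ℝ)⁻¹ * (N : ℝ)⁻¹ * (N * (N * (6 * (ε ^ 2 / (8 * K + 1)))) +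
          2 * (ε ^ 2 / (8 * K + 1) * N ^ 2)) := by gcongr
      _ = _ := by
        field_simp
        ring
  have h6 := (main N M hN).trans (mul_le_mul_of_nonneg_left h5 hK)
  have h7 : K * (8 * (ε ^ 2 / (8 * K + 1))) < ε ^ 2 := by
    have : ε ^ 2 = (8 * K + 1) * (ε ^ 2 / (8 * K + 1)) := by field_simp
    linarith
  exact lt_of_pow_lt_pow_left₀ 2 hε.le (h6.trans_lt h7)

end A

theorem cptA (F : Fd) (hk : KeyT) (hd : Drop) : CptAf := by
  intro ν' ν'' X B0 C Z p hX hB0 hC hB hP hGood hG0 H g k a1 a2 a3 a4 h0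
  obtain ⟨L, hL, hLg⟩ : ∃ L : ℝ, 0 < L ∧ ∀ᵐ x ∂X.μ, ‖g x‖ ≤ L := by
    obtain ⟨L, hL⟩ := a2.2
    exact ⟨max L 1, lt_max_of_lt_right one_pos, hL.mono fun x hx => hx.trans (le_max_left _ _)⟩
  have hL' : (L : ℂ) ≠ 0 := by exact_mod_cast hL.ne'
  refine core F hk hd hB hC hP hGood hG0 (fun z => (L : ℂ) * H z)
    (fun x => (L : ℂ)⁻¹ * g x) k (a1.cmul _) (a2.cmul _) a3 ?_ ?_ ?_
  · have e : (fun z => (L : ℂ) * H z * ((L : ℂ)⁻¹ * g (p true z))) =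
        fun z => H z * g (p true z) := by
      funext z
      field_simp
    unfold T3x.Star
    rw [e]
    exact a4
  · filter_upwards [hLg] with x hx
    rw [norm_mul, norm_inv, Complex.norm_real, Real.norm_of_nonneg hL.le,
      inv_mul_le_iff₀ hL, mul_one]
    exact hx
  · refine (Fib27.ce_cmul hC.le _ a2).trans ?_
    filter_upwards [h0] with x hx
    simp [hx]

open T3x.GfL in
theorem cpt (F : Fd) (G : Gx) (hA : CptAf) : Cptf := by
  intro ν ν' X B0 C hX hB hC hBC hI hg h0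
  obtain ⟨Z, p, hp⟩ : ∃ Z p, Pair X C Z p := F.rp Bool (fun _ => X) X C (fun _ => id) false
    (fun _ => hX) hC (fun _ => (F.t.emb_id X).mp) fun _ _ _ => EventuallyEq.rfl
  have mp : ∀ b, @MeasurePreserving _ _ Z.ms X.ms (p b) Z.μ X.μ := fun b => (hp.emb b).mp
  have hP := F.t.fpull Z X (p false) X.ms (hp.emb false) (F.t.top X)
  have b0 : ∀ c, BM X.μ X.ms c → BM Z.μ (pull Z.μ (p false) X.ms) fun z => c (p false z) :=
    fun c hc => F.a.bm_comp X.ms Z.μ X.μ _ c (mp false) hc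
  have sw : ∀ c, BM X.μ C c → (fun z => c (p true z)) =ᵐ[Z.μ] fun z => c (p false z) :=
    fun c hc => F.a.keq_fun C Z.μ X.μ _ _ c (mp true) (mp false) (hp.com true) hc.1
  refine G.dense ν ν' X _ {k | BM X.μ X.ms k ∧ (BM X.μ C k ∨ ∃ H g, BM Z.μ (T3x.Inv Z) H ∧
    BM X.μ X.ms g ∧ Star p H g k ∧ X.μ[g | C] =ᵐ[X.μ] 0)} (F.kb.fac X C hX hC).le
    (fun _ h => h.1) (fun k hk ε hε => ?_) fun f hf => ?_
  · obtain ⟨n, H, g, k', h1, h2⟩ := F.kb.span X C Z p hX hC hp k hk ε hε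
    have key : ∀ i, ∃ k1 k2 : X.X → ℂ, BM X.μ C k1 ∧ (BM X.μ X.ms k2 ∧ ∃ g', BM X.μ X.ms g' ∧
        Star p (H i) g' k2 ∧ X.μ[g' | C] =ᵐ[X.μ] 0) ∧ k' i =ᵐ[X.μ] fun x => k1 x + k2 x := by
      intro i
      obtain ⟨a1, a2, a3, a4⟩ := h1 i
      have aH := a1.mono (F.t.finv Z).le
      have hc := a2.ce C
      have hc' := hc.mono hC.le
      obtain ⟨k0, c1, c2⟩ := F.ka.star X C Z p hC hp _ _ aH (BM.const 1)
      obtain ⟨k2, d1, d2⟩ := F.ka.star X C Z p hC hp _ _ aH (a2.sub hc')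
      simp only [T3x.Star, mul_one] at c2
      have hk0 : BM X.μ C k0 := by
        refine (c1.of_aesm ((F.t.inv_iff X k0 c1.1).2 (desc (mp false) (bm_comp X.mp c1) c1
          ?_))).mono hI
        have e1 := F.a.keq_fun X.ms Z.μ X.μ _ _ k0 (mpc (mp false) Z.mp) (mpc X.mp (mp false))
          (hp.emb false).eqv c1.1
        have e2 := F.t.ce Z _ 1 (H i) hP aH.integrable
        simp only [F.t.one] at e2
        filter_upwards [e1, Z.mp.quasiMeasurePreserving.ae c2, e2, c2, condExp_congr_ae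
          (m := pull Z.μ (p false) X.ms) ((F.t.inv_iff Z _ aH.1).1 a1.1)] with z z1 z2 z3 z4 z5
        exact z1.symm.trans (z2.trans (z3.symm.trans (z5.trans z4.symm)))
      refine ⟨fun x => (X.μ[g i | C]) x * k0 x, k2, hc.mul hk0, ⟨d1, _, a2.sub hc', d2, ?_⟩,
        desc (mp false) a3 ((hc'.mul c1).add d1) ?_⟩
      · filter_upwards [condExp_sub a2.integrable hc'.integrable C, BM.ce_self hC.le hc]
          with x x1 x2
        exact x1.trans (by rw [Pi.sub_apply, x2, sub_self]; rfl)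
      · have e1 : (fun z => H i z * g i (p true z)) =ᵐ[Z.μ]
            (fun z => (X.μ[g i | C]) (p false z) * H i z) +
              fun z => H i z * (g i (p true z) - (X.μ[g i | C]) (p true z)) := by
          filter_upwards [sw _ hc] with z hz
          rw [Pi.add_apply, hz]
          ring
        filter_upwards [a4, condExp_congr_ae (m := pull Z.μ (p false) X.ms) e1, condExp_add
          ((bm_comp (mp false) hc').mul aH).integrable
          (aH.mul (bm_comp (mp true) (a2.sub hc'))).integrable (pull Z.μ (p false) X.ms),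
          Fib27.ce_mul hP.le (b0 _ hc') aH, c2, d2] with z z1 z2 z3 z4 z5 z6
        rw [z1, z2, z3, Pi.add_apply, z4, z5, z6]
    choose k1 k2 a1 a2 a3 using key
    refine ⟨n + n, Fin.append k1 k2, fun i => ?_, le_trans (le_of_eq (integral_congr_ae ?_)) h2⟩
    · refine Fin.addCases (fun j => ?_) (fun j => ?_) i
      · rw [Fin.append_left]; exact ⟨(a1 j).mono hC.le, Or.inl (a1 j)⟩
      · rw [Fin.append_right]; exact ⟨(a2 j).1, Or.inr ⟨H j, (a2 j).2.imp fun _ h =>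
          ⟨(h1 j).1, h⟩⟩⟩
    · filter_upwards [ae_all_iff.2 a3] with x hx
      simp only [Fin.sum_univ_add, Fin.append_left, Fin.append_right, hx, sum_add_distrib]
  · rcases hf.2 with h | ⟨H, g, a1, a2, a3, a4⟩
    · exact hg f h
    · exact G.zero ν ν' X f hf.1 (hA ν' ν X B0 C Z p hX hB hC hBC hp hg h0 H g f a1 a2 hf.1 a3 a4)
        (hA ν' ν' X B0 C Z p hX hB hC hBC hp (fun _ _ _ _ => by simp) h0 H g f a1 a2 hf.1 a3 a4)

theorem coreX (ν : Wt) (h : T5y.CoreF ν) (X : Sys) (B : MeasurableSpace X.X) (f : X.X → ℂ)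
    (hX : Nice X) (hB : KC X B) (hf : BM X.μ X.ms f) (h0 : X.μ[f | B] =ᵐ[X.μ] 0) : U0f ν X f := by
  intro b hb
  have := h X B f (fun _ _ _ => 1) b hX hB hf h0 (fun _ _ => measurable_const)
    (fun _ _ _ => by simp) hb
  simpa only [one_mul, tav] using this

theorem det (F : Fd) (G : Gx) (hC : Cptf) (ν ν' : Wt) (c1 : T5y.CoreF ν) (c2 : T5y.CoreF ν')
    (hB : THas ν ν') (X : Sys) : UGx ν ν' X X.ms := by
  obtain ⟨X', e, hX, he, hf⟩ := F.nice0 X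
  refine G.down ν ν' X X' e he hf fun g hg => ?_
  obtain ⟨B0, b1, b2, b3, b4⟩ := hB X'
  have hK := F.h.kc X' B0 hX b1
  have hU : UGx ν ν' X' (hull X' B0) := F.h.ind X' B0 _ hX b1
    (fun g hg b hb => b3 g hg (fun _ => b) fun _ => hb)
    (fun C k1 k2 k3 => hC ν ν' X' B0 C hX b1 k1 k2 (b2.trans k2) k3 b4)
    fun 𝒞 k1 k2 k3 => G.chain ν ν' X' 𝒞 k1 k2 fun C h => ⟨(k3 C h).1, (k3 C h).2.2⟩
  have hle : hull X' B0 ≤ X'.ms := hK.1.le
  have hc := hg.ce (hull X' B0)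
  have hc' := hc.mono hle
  have h0 : X'.μ[fun x => g x - (X'.μ[g | hull X' B0]) x | hull X' B0] =ᵐ[X'.μ] 0 := by
    filter_upwards [condExp_sub hg.integrable hc'.integrable (hull X' B0), BM.ce_self hle hc]
      with x x1 x2
    exact x1.trans (by rw [Pi.sub_apply, x2, sub_self]; rfl)
  exact G.add ν ν' X' g _ _ hc' (hg.sub hc') (Eventually.of_forall fun x => by ring) (hU _ hc)
    (G.zero ν ν' X' _ (hg.sub hc') (coreX ν c1 X' _ _ hX hK (hg.sub hc') h0)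
      (coreX ν' c2 X' _ _ hX hK (hg.sub hc') h0))

end DetUL

open DetUL in
theorem detU : DetUR := fun F hC ν ν' u1 u2 hB Y g b hg hb =>
  det F (gx F) (cpt F (gx F) (cptA F (T5u.key F) (T5u.drop F T5u.pick))) ν ν' (hC ν u1) (hC ν' u2)
    hB Y g hg b hb

end T8

end
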