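import Pool.Agent.MP_154433_an.t8.Spec
import Pool.Agent.MP_154433_an.p5.U2

/-! One van der Corput step removes the twist, for general weights. -/

set_option autoImplicit false
set_option linter.unusedVariables false
set_option warn.classDefReducibility false

open MeasureTheory ProbabilityTheory Filter Topology Function Finset ComplexConjugate
open scoped BigOperators

noncomputable section

namespace T8

open Pool.Agent.MP_154433_an hiding BM
open T5x (ee)
open T5u (tav)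

open T5u.UDw in
theorem dw : DwR := by
  intro hV hG w pw hA X G hG1 H hH s η hs hη
  have : Nonempty (Fin H) := ⟨⟨0, hH⟩⟩
  let D : Fin H → Fin H → X.X → ℂ := fun h h' =>
    T3S.ddX X.T (1 * (((h' : ℕ) : ℤ) - ((h : ℕ) : ℤ))) G
  let K : Fin H → Fin H → X.X → ℂ := fun h h' y => D h h' (T3S.Tz X.T ((h : ℕ) : ℤ) y)
  have hD : ∀ h h', T3S.MB1 (D h h') := fun h h' => hG1.ddX _ _
  have hK : ∀ h h', T3S.MB1 (K h h') := fun h h' => (hD h h').tz _ _
  let A : ℕ → Fin H → Fin H → X.X → ℂ := fun M h h' =>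
    T3S.wavg X.T w (fun _ : Fin 1 => (1 : ℤ)) (fun _ => K h h') M
  have h2 : ∀ᶠ M in atTop, ∀ h h', ∫ x, ‖A M h h' x‖ ^ 2 ∂X.μ ≤
      T3S.QX X.μ X.T H 1 (Fin.tail fun _ : Fin 2 => (1 : ℤ)) (D h h') + s * η / 2 := by
    refine eventually_all.2 fun h => eventually_all.2 fun h' => ?_
    filter_upwards [hG w pw hA X.X X.μ X.T X.mp H hH 0 (fun _ => 1) (fun _ => K h h')
      (fun _ => hK h h') (s * η / 2) (by positivity)] with M hM
    rw [pow_zero, pow_one, T3S.QX_tz X.mp H _ _ _ (hD h h')] at hM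
    have e : (Fin.cons (1 : ℤ) (fun j : Fin 0 => (1 : ℤ) - 1) : Fin 1 → ℤ) =
        Fin.tail fun _ : Fin 2 => (1 : ℤ) := by
      funext i
      rw [Fin.eq_zero i]
      rfl
    exact hM.trans_eq (by rw [← e])
  filter_upwards [h2, hV w pw hA H hH (η / 2) (by positivity), pw.2] with M h2 h1 hM b hb
  have hI : ∀ h h', Integrable (fun x => ‖A M h h' x‖ ^ 2) X.μ := fun h h' => by
    refine Integrable.of_bound ((T3S.wavg_meas X.T w _ (fun _ => (hK h h').1) M).norm.pow_const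
      2).aestronglyMeasurable ((∑ d ∈ range M, |w M d|) ^ 2) (Eventually.of_forall fun x => ?_)
    rw [Real.norm_of_nonneg (sq_nonneg _)]
    exact pow_le_pow_left₀ (norm_nonneg _) (T3S.wavg_norm_le X.T w _ (fun _ => (hK h h').2) M x) 2
  have hI1 := fun h => integral_expR (μ := X.μ) univ fun h' _ => hI h h'
  have hI2 := integral_expR (μ := X.μ) univ fun h _ => (hI1 h).1
  have hp : ∀ x, ‖tav (T3S.Bridge.toWt w pw) X G M (b x) x‖ ^ 2 ≤
      s + (𝔼 h : Fin H, 𝔼 h' : Fin H, ‖A M h h' x‖ ^ 2) / s + η / 2 := fun x => by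
    rw [show tav (T3S.Bridge.toWt w pw) X G M (b x) x = ∑ d ∈ range M, (w M d : ℂ) *
      (G (T3S.Tz X.T (d : ℤ) x) * ee ((d : ℝ) * b x)) from (T3S.Bridge.av_eq pw hM _).trans
        (sum_congr rfl fun d _ => by rw [Complex.real_smul, Int.cast_natCast]; rfl)]
    refine (h1 (fun d => G (T3S.Tz X.T (d : ℤ) x) * ee ((d : ℝ) * b x)) fun d => ?_).trans ?_
    · rw [norm_mul, norm_ee, mul_one]
      exact hG1.2 _
    refine add_le_add_left ?_ _
    have e : s + (𝔼 h : Fin H, 𝔼 h' : Fin H, ‖A M h h' x‖ ^ 2) / s =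
        𝔼 h : Fin H, 𝔼 h' : Fin H, (s + ‖A M h h' x‖ ^ 2 / s) := by
      simp only [expect_add_distrib, expect_const univ_nonempty, expect_div]
    rw [e, T3S.re_exp]
    refine expect_le_expect fun h _ => ?_
    rw [T3S.re_exp]
    refine expect_le_expect fun h' _ => ?_
    have e2 : ∑ d ∈ range M, (w M d : ℂ) *
        (G (T3S.Tz X.T ((d + h' : ℕ) : ℤ) x) * ee (((d + h' : ℕ) : ℝ) * b x) *
          conj (G (T3S.Tz X.T ((d + h : ℕ) : ℤ) x) * ee (((d + h : ℕ) : ℝ) * b x))) =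
        A M h h' x * ee ((((h' : ℕ) : ℝ) - ((h : ℕ) : ℝ)) * b x) := by
      simp only [A, T3S.wavg, sum_mul]
      refine sum_congr rfl fun d _ => ?_
      rw [← ee_pair (h : ℕ) (h' : ℕ) d (b x)]
      simp only [Fin.prod_univ_one, K, D, T3S.ddX, ← T3S.Tz_add, map_mul]
      rw [show (1 : ℤ) * (((h' : ℕ) : ℤ) - ((h : ℕ) : ℤ)) + ((h : ℕ) : ℤ) + 1 * (d : ℤ) =
        ((d + h' : ℕ) : ℤ) by push_cast; ring,
        show ((h : ℕ) : ℤ) + 1 * (d : ℤ) = ((d + h : ℕ) : ℤ) by push_cast; ring]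
      rw [Nat.cast_add (R := ℝ), Nat.cast_add (R := ℝ)]
      ring
    rw [e2]
    refine (Complex.re_le_norm _).trans ?_
    rw [norm_mul, norm_ee, mul_one, ← sub_le_iff_le_add', le_div_iff₀ hs]
    nlinarith [sq_nonneg (‖A M h h' x‖ - s), norm_nonneg (A M h h' x)]
  have hc : Integrable (fun x => s + (𝔼 h : Fin H, 𝔼 h' : Fin H, ‖A M h h' x‖ ^ 2) / s) X.μ :=
    (integrable_const s).add (hI2.1.div_const s)
  refine (integral_mono_of_nonneg (Eventually.of_forall fun x => sq_nonneg _)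
    (hc.add (integrable_const (η / 2))) (Eventually.of_forall hp)).trans ?_
  have e3 : ∫ x, s + (𝔼 h : Fin H, 𝔼 h' : Fin H, ‖A M h h' x‖ ^ 2) / s + η / 2 ∂X.μ =
      s + (𝔼 h : Fin H, 𝔼 h' : Fin H, ∫ x, ‖A M h h' x‖ ^ 2 ∂X.μ) / s + η / 2 := by
    rw [integral_add hc (integrable_const _),
      integral_add (integrable_const s) (hI2.1.div_const s), integral_div, hI2.2]
    simp only [integral_const, probReal_univ, one_smul, fun h => (hI1 h).2]
  refine (le_of_eq e3).trans ?_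
  have h4 : (𝔼 h : Fin H, 𝔼 h' : Fin H, ∫ x, ‖A M h h' x‖ ^ 2 ∂X.μ) ≤
      T3S.QX X.μ X.T H 2 (fun _ => 1) G + s * η / 2 := by
    have e : T3S.QX X.μ X.T H 2 (fun _ => 1) G + s * η / 2 = 𝔼 h : Fin H, 𝔼 h' : Fin H,
        (T3S.QX X.μ X.T H 1 (Fin.tail fun _ : Fin 2 => (1 : ℤ)) (D h h') + s * η / 2) := by
      simp only [expect_add_distrib, expect_const univ_nonempty]
      rfl
    rw [e]
    exact expect_le_expect fun h _ => expect_le_expect fun h' _ => h2 h h'
  have h5 := div_le_div_of_nonneg_right h4 hs.le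
  rw [add_div, show s * η / 2 / s = η / 2 by field_simp] at h5
  linarith

end T8

end
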