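import Pool.Agent.MP_154433_an.t8.Spec

/-! Calculus of eigenfunctions with an invariant frequency. -/

set_option autoImplicit false
set_option linter.unusedVariables false
set_option warn.classDefReducibility false

open MeasureTheory ProbabilityTheory Filter Topology Function
open scoped BigOperators ComplexConjugate

noncomputable section

namespace T8

open Pool.Agent.MP_154433_an hiding BM
open T3S (B1 MB1 PW AsInv Erg Bd Near Gr yw nu nb CZ)
open T4S (Gm ddX Spr)
open Fib27 (BM)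
open T3x (nul pull gen)
open T4x (Fac Emb Inv Nice Pair Star KK Fd)
open T6 (Sy MB rr ee NN Vn IvF Ver VB QB Nul QE EL NulInv Cl EE LF LfP LiftA LbS Pj Tw2 d2 G0 G0S
  df AS)

namespace EBL

lemma ee_zero : ee 0 = 1 := by simp [ee]

lemma ee_add (s t : ℝ) : ee (s + t) = ee s * ee t := by
  simp only [ee, ← Complex.exp_add]
  congr 1
  push_cast
  ring

lemma ee_neg (t : ℝ) : ee (-t) = conj (ee t) := by
  simp only [ee, ← Complex.exp_conj, map_mul, Complex.conj_ofReal, Complex.conj_I]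
  congr 1
  push_cast
  ring

lemma norm_ee (t : ℝ) : ‖ee t‖ = 1 := Complex.norm_exp_ofReal_mul_I _

lemma meas_ee : Measurable ee := by
  unfold ee
  fun_prop

lemma comm (X : Sy) (u v : Gm 2) (x : X.X) : X.A u (X.A v x) = X.A v (X.A u x) :=
  (X.add u v x).symm.trans ((congrArg (fun n => X.Tz n x) (add_comm u v)).trans (X.add v u x))

lemma sh (X : Sy) (v : Gm 2) {p : X.X → Prop} (h : ∀ᵐ x ∂X.μ, p x) : ∀ᵐ x ∂X.μ, p (X.A v x) :=
  (X.mp v).quasiMeasurePreserving.ae h

lemma bm {X : Sy} {f : X.X → ℂ} (h : MB X f) : BM X.μ X.ms f :=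
  ⟨h.1.aestronglyMeasurable, 1, ae_of_all _ h.2⟩

end EBL

open EBL

theorem eb : EBR := by
  intro F V
  refine ⟨fun X u c h => ⟨fun _ => 0, h.1, measurable_const, EventuallyEq.rfl,
    h.2.mono fun x hx => by simpa [ee_zero] using hx⟩, ?_, ?_, ?_, ?_, ?_, ?_⟩
  · rintro X u φ ψ ⟨ξ, a1, a2, a3, a4⟩ ⟨η, b1, b2, b3, b4⟩
    refine ⟨fun x => ξ x + η x, ⟨a1.1.mul b1.1, fun x => ?_⟩, a2.add b2, a3.add b3, ?_⟩
    · rw [norm_mul]
      exact mul_le_one₀ (a1.2 x) (norm_nonneg _) (b1.2 x)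
    · filter_upwards [a4, b4] with x h1 h2
      rw [h1, h2, ee_add]
      ring
  · rintro X u ψ ⟨ξ, a1, a2, a3, a4⟩
    refine ⟨fun x => -ξ x, ⟨Complex.continuous_conj.measurable.comp a1.1, fun x => ?_⟩, a2.neg,
      a3.neg, ?_⟩
    · rw [Complex.norm_conj]
      exact a1.2 x
    · filter_upwards [a4] with x h1
      rw [h1, ee_neg, map_mul]
  · rintro X u ψ v ⟨ξ, a1, a2, a3, a4⟩
    refine ⟨fun x => ξ (X.A v x), ⟨a1.1.comp (X.mp v).measurable, fun x => a1.2 _⟩,
      a2.comp (X.mp v).measurable, ?_, ?_⟩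
    · filter_upwards [sh X v a3] with x h1
      rw [comm, h1]
    · filter_upwards [sh X v a4] with x h1
      rw [comm, h1]
  · rintro X' X p u ψ hp ⟨ξ, a1, a2, a3, a4⟩
    have k : ∀ f : X.X → ℂ, Measurable f →
        (fun x => f (p (X'.A u x))) =ᵐ[X'.μ] fun x => f (X.A u (p x)) := fun f hf =>
      F.a.keq_fun X.ms X'.μ X.μ (p ∘ X'.Tz u) (X.Tz u ∘ p) f (hp.mp.comp (X'.mp u))
        ((X.mp u).comp hp.mp) (hp.eqv u) hf.aestronglyMeasurable
    refine ⟨fun x => ξ (p x), ⟨a1.1.comp hp.mp.measurable, fun x => a1.2 _⟩,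
      a2.comp hp.mp.measurable, ?_, ?_⟩
    · filter_upwards [hp.mp.quasiMeasurePreserving.ae a3,
        k (fun x => (ξ x : ℂ)) (Complex.measurable_ofReal.comp a2)] with x h1 h2
      exact (Complex.ofReal_injective h2).trans h1
    · filter_upwards [hp.mp.quasiMeasurePreserving.ae a4, k ψ a1.1] with x h1 h2
      exact h2.trans h1
  · rintro X Y u ψ ψ' hY hI ⟨ξ, a1, a2, a3, a4⟩ hv
    have e1 : MB X fun x => ee (ξ x) := ⟨meas_ee.comp a2, fun x => (norm_ee _).le⟩
    have e2 : BM X.μ Y fun x => ee (ξ x) :=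
      ((V.ivf X u _ e1).1 ⟨e1, a3.mono fun x hx => congrArg ee hx⟩).mono hI
    refine ⟨ξ, (V.half X Y ψ ψ' hY a1 hv).1, a2, a3, ?_⟩
    filter_upwards [a4, hv.2, sh X u hv.2,
      F.t.ce X Y u ψ hY (bm a1).integrable, condExp_congr_ae (m := Y) a4,
      Fib27.ce_mul hY.le e2 (bm a1)] with x h1 h2 h3 h4 h5 h6
    have h7 : ψ' (X.A u x) = ee (ξ x) * ψ' x := by
      rw [h2]
      exact h3.trans (h4.symm.trans (h5.trans h6))
    rw [h1, h7]
    ring
  · rintro X u ξ ψ ⟨a1, a2, a3, a4⟩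
    refine ae_all_iff.2 fun d => ?_
    induction d with
    | zero =>
      refine ae_of_all _ fun x => ?_
      simp [X.zero, ee_zero]
    | succ d ih =>
      filter_upwards [ih, sh X ((d : ℤ) • u) a3,
        sh X ((d : ℤ) • u) a4] with x h1 h2 h3
      have e : X.A (((d + 1 : ℕ) : ℤ) • u) x = X.A u (X.A ((d : ℤ) • u) x) := by
        rw [Nat.cast_succ, add_smul, one_smul, add_comm]
        exact X.add _ _ x
      rw [e]
      refine ⟨h2.trans h1.1, h3.trans ?_⟩
      rw [h1.1, h1.2, Nat.cast_succ, add_mul, one_mul, ee_add]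
      ring

end T8

end
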