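import Pool.Agent.MP_154433_an.t8.Spec

/-! A function orthogonal to all eigenfunctions of one direction is null for the square box. -/

set_option autoImplicit false
set_option linter.unusedVariables false

open MeasureTheory Filter Topology Function
open scoped BigOperators ComplexConjugate

noncomputable section

namespace T8

open Pool.Agent.MP_154433_an hiding BM
open T3S (MB1 meas_exp norm_exp_le_of)
open T4S (ddX)
open T4x (Inv)
open T6 (ee act EL)

namespace EigL

lemma norm_ee (t : ℝ) : ‖ee t‖ = 1 := Complex.norm_exp_ofReal_mul_I _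

lemma cont_ee : Continuous ee := by
  unfold ee
  fun_prop

lemma cont_bb (γ : ℤ → ℂ) (N : ℕ) : Continuous (bb γ N) := by
  unfold bb
  simp only [Fintype.expect_eq_sum_div_card]
  exact Complex.continuous_re.comp ((continuous_finsetSum _ fun n _ =>
    (continuous_finsetSum _ fun n' _ =>
      continuous_const.mul (cont_ee.comp (by fun_prop))).div_const _).div_const _)

lemma abs_bb (γ : ℤ → ℂ) (h : ∀ n, ‖γ n‖ ≤ 1) (N : ℕ) (t : ℝ) : |bb γ N t| ≤ 1 :=
  (Complex.abs_re_le_norm _).trans (norm_exp_le_of zero_le_one fun n _ =>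
    norm_exp_le_of zero_le_one fun n' _ => by
      rw [norm_mul, norm_ee, mul_one]
      exact h _)

lemma meas_bb {Ω : Type} (m : MeasurableSpace Ω) (γ : ℤ → Ω → ℂ) (h : ∀ n, Measurable (γ n))
    (N : ℕ) (ξ : Ω → ℝ) (hξ : Measurable ξ) : Measurable fun x => bb (fun n => γ n x) N (ξ x) :=
  Complex.measurable_re.comp (meas_exp _ fun n _ => meas_exp _ fun n' _ =>
    (h _).mul (cont_ee.measurable.comp (hξ.const_mul _).neg))

end EigL

open EigL in
theorem eig : EigR := by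
  intro F vb ni eb sel fin pd met X u g hg h
  have hI := F.t.finv X {u}
  have hA := act X
  choose γ hγ using fun n : ℤ => vb.ver X _ (ddX X.A (n • u) g) hI (hA.dd hg _)
  have g1 : ∀ x n, ‖γ n x‖ ≤ 1 := fun x n => (hγ n).1.1.2 x
  obtain ⟨p1, p2⟩ := pd X u g γ hg hγ
  obtain ⟨ξ, s, s0, mξ, ms, ms0, bs, bs0, le, lim⟩ := sel X.X (Inv X {u})
    (fun k x t => bb (fun n => γ n x) (2 ^ k) t)
    (fun k t => meas_bb _ γ (fun n => (hγ n).2) _ _ measurable_const)
    (fun k x => cont_bb _ _) fun k x t => abs_bb _ (g1 x) _ _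
  have mξ0 : Measurable[X.ms] ξ := mξ.mono hI.le le_rfl
  have iξ : (fun x => ξ (X.A u x)) =ᵐ[X.μ] ξ := by
    filter_upwards [(F.t.inv_iff X {u} (fun x => (ξ x : ℂ))
      (Complex.measurable_ofReal.comp mξ0).aestronglyMeasurable).1
      (Complex.measurable_ofReal.comp mξ).stronglyMeasurable.aestronglyMeasurable u rfl] with x hx
    exact Complex.ofReal_injective hx
  obtain ⟨ψ, e1, e2⟩ := met X u g ξ hg mξ0 iξ
  rw [h _ (eb.cj X u ψ ⟨ξ, e1⟩), Complex.zero_re] at e2
  have ib : ∀ f : X.X → ℝ, Measurable[X.ms] f → (∀ x, |f x| ≤ 1) → Integrable f X.μ :=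
    fun f a b => Integrable.of_bound a.aestronglyMeasurable 1 (ae_of_all _ b)
  have q : ∀ᵐ x ∂X.μ, Tendsto (fun k => s k x) atTop (𝓝 (s0 x)) ∧
      ∀ k, s0 x ≤ bb (fun n => γ n x) (2 ^ k) (ξ x) := p1.mono fun x hx => lim x fun k t => by
    rw [pow_succ']
    exact (hx.2 _ t Nat.one_le_two_pow).2
  have l1 : ∫ x, s0 x ∂X.μ ≤ 0 := by
    refine ge_of_tendsto' (e2.comp (tendsto_pow_atTop_atTop_of_one_lt one_lt_two)) fun k => ?_
    refine le_of_le_of_eq (integral_mono_ae (ib _ (ms0.mono hI.le le_rfl) bs0)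
      (ib _ (meas_bb _ γ (fun n => (hγ n).1.1.1) _ _ mξ0) fun x => abs_bb _ (g1 x) _ _)
      (q.mono fun x hx => hx.2 k)) (p2 ξ _ mξ)
  have l2 := tendsto_integral_of_dominated_convergence (μ := X.μ) (F := s) (f := s0) (fun _ => 1)
    (fun k => ((ms k).mono hI.le le_rfl).aestronglyMeasurable) (integrable_const _)
    (fun k => ae_of_all _ (bs k)) (q.mono fun x hx => hx.1)
  refine ni X u [u] g hg fun ε hε => ?_
  obtain ⟨k, hk⟩ := (((tendsto_add_atTop_iff_nat 1).2 l2).eventually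
    (gt_mem_nhds (l1.trans_lt (show (0 : ℝ) < ε / 8 by positivity)))).exists
  have i0 : ∀ n, Integrable (fun x => ‖γ n x‖ ^ 2) X.μ := fun n =>
    ib _ ((hγ n).1.1.1.norm.pow_const 2) fun x => by
      rw [abs_of_nonneg (sq_nonneg _)]
      exact pow_le_one₀ (norm_nonneg _) (g1 x n)
  have i1 : ∀ h : Fin (2 ^ k), Integrable (fun x => ∑ h' : Fin (2 ^ k),
      ‖γ (((h' : ℕ) : ℤ) - ((h : ℕ) : ℤ)) x‖ ^ 2) X.μ :=
    fun h => integrable_finsetSum _ fun h' _ => i0 _
  have e : EL X (2 ^ k) [u] (fun G _ => ∫ x, ‖(X.μ[G | Inv X {u}]) x‖ ^ 2 ∂X.μ) g g =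
      ∫ x, 𝔼 h : Fin (2 ^ k), 𝔼 h' : Fin (2 ^ k),
        ‖γ (((h' : ℕ) : ℤ) - ((h : ℕ) : ℤ)) x‖ ^ 2 ∂X.μ := by
    simp only [EL, Fintype.expect_eq_sum_div_card]
    rw [integral_div, integral_finsetSum _ fun h _ => (i1 h).div_const _]
    refine congrArg (· / _) (Finset.sum_congr rfl fun h _ => ?_)
    rw [integral_div, integral_finsetSum _ fun h' _ => i0 _]
    refine congrArg (· / _) (Finset.sum_congr rfl fun h' _ => integral_congr_ae ?_)
    exact (hγ _).1.2.mono fun x hx => congrArg (fun z : ℂ => ‖z‖ ^ 2) hx.symm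
  refine ⟨2 ^ k, Nat.one_le_two_pow, e.le.trans ((integral_mono_ae ?_
    ((ib _ ((ms (k + 1)).mono hI.le le_rfl) (bs _)).const_mul 8) ?_).trans ?_)⟩
  · simp only [Fintype.expect_eq_sum_div_card]
    exact (integrable_finsetSum _ fun h _ => (i1 h).div_const _).div_const _
  · filter_upwards [p1] with x hx
    refine fin (fun n => γ n x) (2 ^ k) (s (k + 1) x) Nat.one_le_two_pow hx.1 (g1 x 0)
      fun t ht => ⟨(hx.2 _ t (Nat.succ_le_of_lt (by positivity))).1, ?_⟩
    rw [← pow_succ']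
    exact le (k + 1) x t ht
  · rw [integral_const_mul]
    linarith

end T8

end
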