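import Pool.Agent.MP_154433_an.t8.Spec

/-! From systems over the plane lattice to tested averages for pairs of commuting maps. -/

set_option autoImplicit false
set_option linter.unusedVariables false

open MeasureTheory ProbabilityTheory Filter Topology Function
open scoped BigOperators ComplexConjugate

noncomputable section

namespace T8

open Pool.Agent.MP_154433_an hiding BM
open T3S (B1 MB1)
open T4S (Gm)
open T6 (Sy MB rr G2)

namespace EndAL

lemma mb {X : Type} [MeasurableSpace X] {f : X → ℝ} (hm : Measurable f) (hb : ∀ x, |f x| ≤ 1) :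
    MB1 fun x => (f x : ℂ) :=
  ⟨Complex.measurable_ofReal.comp hm, fun x => by
    rw [Complex.norm_real, Real.norm_eq_abs]
    exact hb x⟩

end EndAL

theorem endA : EndAR := by
  intro hA w hw X _ μ _ T hT hc h f hm hb fm fb
  obtain ⟨A, act, hd, -⟩ := hA 2 X μ T hT hc
  have h1 := hw (@T4x.Sys.mk G2 X _ μ _ A act.mp act.zero act.add) (fun x => (f 0 x : ℂ))
    (fun x => (f 1 x : ℂ)) (EndAL.mb (fm 0) (fb 0)) (EndAL.mb (fm 1) (fb 1))
    (fun x => (h x : ℂ)) (EndAL.mb hm hb)
  rw [tendsto_zero_iff_norm_tendsto_zero]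
  refine h1.congr fun M => ?_
  rw [← Complex.norm_real]
  simp only [Fin.prod_univ_two, ← hd, Complex.ofReal_sum, Complex.ofReal_mul,
    ← integral_complex_ofReal]
  rfl

end T8

end
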