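import Pool.Agent.MP_154433_an.t8.Spec
import Pool.Agent.MP_154433_an.t3s.End

/-! From the vanishing of the tested weighted averages to weak convergence along the set. -/

set_option autoImplicit false
set_option linter.unusedVariables false

open MeasureTheory ProbabilityTheory Filter Topology Function Asymptotics
open scoped BigOperators ComplexConjugate InnerProductSpace

noncomputable section

namespace T8

open Pool.Agent.MP_154433_an hiding BM
open T3S (yw)

namespace EndBL

variable {X : Type} [MeasurableSpace X] {μ : Measure X}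

theorem inner_eq (A H : Lp ℝ 2 μ) {a h : X → ℝ} (ha : A =ᵐ[μ] a) (hh : H =ᵐ[μ] h) :
    ⟪A, H⟫_ℝ = ∫ x, h x * a x ∂μ := by
  rw [L2.inner_def]
  refine integral_congr_ae ?_
  filter_upwards [ha, hh] with x h1 h2
  rw [h1, h2]
  simp

theorem weak {A : ℕ → Lp ℝ 2 μ} {G : Lp ℝ 2 μ} (hA : ∀ N, ‖A N‖ ≤ 1)
    (h : ∀ (H : Lp ℝ 2 μ) (h : X → ℝ), Measurable h → (∀ x, |h x| ≤ 1) → H =ᵐ[μ] h →
      Tendsto (fun N => ⟪A N, H⟫_ℝ) atTop (𝓝 ⟪G, H⟫_ℝ)) (H : Lp ℝ 2 μ) :
    Tendsto (fun N => ⟪A N, H⟫_ℝ) atTop (𝓝 ⟪G, H⟫_ℝ) := by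
  refine Lp.induction (p := 2) (by simp)
    (fun H : Lp ℝ 2 μ => Tendsto (fun N => ⟪A N, H⟫_ℝ) atTop (𝓝 ⟪G, H⟫_ℝ)) ?_ ?_ ?_ H
  · intro c s hs hμ
    have e : (Lp.simpleFunc.indicatorConst 2 hs hμ.ne c : Lp ℝ 2 μ) =
        c • indicatorConstLp 2 hs hμ.ne (1 : ℝ) := by
      rw [Lp.simpleFunc.coe_indicatorConst]
      refine Lp.ext ?_
      filter_upwards [indicatorConstLp_coeFn (p := 2) (hs := hs) (hμs := hμ.ne) (c := c),
        indicatorConstLp_coeFn (p := 2) (hs := hs) (hμs := hμ.ne) (c := (1 : ℝ)),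
        Lp.coeFn_smul c (indicatorConstLp 2 hs hμ.ne (1 : ℝ))] with x h1 h2 h3
      rw [h1, h3, Pi.smul_apply, h2]
      by_cases hx : x ∈ s <;> simp [hx]
    simp only [e, real_inner_smul_right]
    refine (h _ _ (measurable_const.indicator hs) (fun x => ?_) indicatorConstLp_coeFn).const_mul c
    by_cases hx : x ∈ s <;> simp [hx]
  · intro f g hf hg _ h1 h2
    simp only [inner_add_right]
    exact h1.add h2
  · refine Equicontinuous.isClosed_setOfPred_tendsto (F := fun N (H : Lp ℝ 2 μ) => ⟪A N, H⟫_ℝ)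
      (LipschitzWith.uniformEquicontinuous _ 1 fun N => ?_).equicontinuous (by fun_prop)
    refine LipschitzWith.of_dist_le_mul fun x y => ?_
    rw [Real.dist_eq, ← inner_sub_right, dist_eq_norm]
    exact (abs_real_inner_le_norm _ _).trans
      (mul_le_mul_of_nonneg_right (by simpa using hA N) (norm_nonneg _))

end EndBL

theorem endB : EndBR := by
  intro σ p h0 ha hW H1 X _ μ _ T hT hc hV f hf
  choose c f' hm hb he using fun i => exists_rep (hf i)
  obtain ⟨F, G, hF, h1, h2⟩ := T3S.End.core (σ := fun _ => 1) (fun _ => zero_le_one)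
    antitone_const ((tendsto_natCast_atTop_atTop (R := ℝ)).congr fun M => by simp [T3S.Wt]) (fun _ => True) T
    (by simp [yw, T3S.ind]) hT hc f' hm hb (by simp [yw, T3S.ind])
  simp only [Nat.nth_true] at h1
  have hFn : ∀ k, ‖F k‖ ≤ 1 := fun k => by
    have := Lp.norm_le_of_ae_bound (f := F k) zero_le_one (by
      filter_upwards [hF k] with x hx
      rw [hx, Real.norm_eq_abs, Finset.abs_prod]
      exact Finset.prod_le_one (fun _ _ => abs_nonneg _) fun j _ => hb j _)
    simpa [measureUnivNNReal] using this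
  have hw := EndBL.weak (A := fun N : ℕ => (N : ℝ)⁻¹ • ∑ n ∈ Finset.range N, F (Nat.nth p n))
    (G := G) (fun N => by
      rw [norm_smul, norm_inv, Real.norm_natCast]
      refine (mul_le_mul_of_nonneg_left ((norm_sum_le _ _).trans
        (Finset.sum_le_sum fun n _ => hFn _)) (by positivity)).trans ?_
      simpa using inv_mul_le_one (a := (N : ℝ))) (fun H h hh hh1 hH => by
      let _ : DecidablePred p := fun a => Classical.propDecidable _
      simp only [real_inner_smul_left, sum_inner]
      refine tendsto_nth (V := ℝ) (F := fun k => ⟪F k, H⟫_ℝ) h0 ha hW p ?_ ?_ ?_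
      · refine (isLittleO_iff_tendsto' ?_).2 ?_
        · filter_upwards [hW.eventually_gt_atTop 0] with M hM e
          exact (hM.ne' e).elim
        · refine H1.congr fun M => ?_
          rw [Finset.sum_div]
          rfl
      · refine (isLittleO_iff_tendsto' ?_).2 ?_
        · filter_upwards [hW.eventually_gt_atTop 0] with M hM e
          exact (hM.ne' e).elim
        · refine (hV h f' hh hh1 hm hb).congr fun M => ?_
          rw [Finset.sum_div]
          refine Finset.sum_congr rfl fun k _ => ?_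
          rw [EndBL.inner_eq _ _ (hF k) hH, smul_eq_mul, mul_div_right_comm]
          rfl
      · simpa only [real_inner_smul_left, sum_inner, smul_eq_mul] using
          h1.inner (𝕜 := ℝ) (tendsto_const_nhds (x := H)))
  have hk : ∀ᵐ x ∂μ, ∀ k, ∏ i, f i ((T i)^[k] x) = (∏ i, c i) * ∏ i, f' i ((T i)^[k] x) := by
    have : ∀ᵐ x ∂μ, ∀ k i, f i ((T i)^[k] x) = c i * f' i ((T i)^[k] x) :=
      ae_all_iff.2 fun k => ae_all_iff.2 fun i =>
        ((hT i).iterate k).quasiMeasurePreserving.ae_eq_comp (he i)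
    filter_upwards [this] with x hx k
    simp only [hx, Finset.prod_mul_distrib]
  refine ⟨fun x => (∏ i, c i) * G x, (Lp.memLp G).const_mul _, fun h hh => ?_,
    tendsto_eLpNorm h2 _ fun N => ?_⟩
  · have := (hw (hh.toLp h)).const_mul (∏ i, c i)
    rw [EndBL.inner_eq G _ EventuallyEq.rfl hh.coeFn_toLp, ← integral_const_mul] at this
    simp only [mul_left_comm (∏ i, c i)] at this
    refine this.congr fun N => ?_
    rw [EndBL.inner_eq _ _ (coe_avg (Finset.range N) (N : ℝ)⁻¹ (Nat.nth p) F _ hF) hh.coeFn_toLp,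
      ← integral_const_mul]
    refine integral_congr_ae ?_
    filter_upwards [hk] with x h3
    simp only [h3, ← Finset.mul_sum]
    ring
  · filter_upwards [hk, coe_avg (Finset.Icc 1 N) (N : ℝ)⁻¹ id F _ hF] with x h3 h4
    simp only [id] at h4
    rw [h4]
    simp only [h3, ← Finset.mul_sum]
    ring

end T8

end
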