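import Pool.Agent.MP_154433_an.t8.Spec
import Pool.Agent.MP_154433_an.p6.S4

/-! Row For: the compact step in a direction of the other slot. -/

set_option autoImplicit false
set_option linter.unusedVariables false
set_option warn.classDefReducibility false

open MeasureTheory ProbabilityTheory Filter Topology Function
open scoped BigOperators ComplexConjugate

noncomputable section

namespace T8

open Pool.Agent.MP_154433_an hiding BM
open T3S (B1 MB1 PW AsInv Erg Bd Near Gr yw nu nb CZ)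
open T4S (Gm ddX Spr)
open Fib27 (BM)
open T3x (nul pull gen)
open T4x (Fac Emb Inv Nice Pair Star KK Fd)
open T6 (Sy MB rr ee NN Vn IvF Ver VB QB Nul QE EL NulInv Cl EE LF LfP LiftA LbS Pj Tw2 d2 G0 G0S
  df AS)

namespace ForL

open T6.For
open T6 (G0)

/-- one convolution in the second slot -/
lemma one (F : Fd) (V : VB) (W : WB) (hK : KeyS) {ν ν' : ℕ → ℕ → ℝ} (hν : PW ν) (hν' : PW ν') {X Z : Sy}
    {a b u : Gm 2} {A1 A2 : MeasurableSpace X.X} {p : Bool → Z.X → X.X} (h1 : Fac X A1)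
    (h2 : Fac X A2) (hP : Pair X A2 Z p) (hG : GP X a b (df ν ν') A1 A2) {r : X.X → ℂ}
    (hr : MB X r) (hr1 : BM X.μ A1 r) (h0 : G0 X b a u ν' r) {H : Z.X → ℂ} {g k : X.X → ℂ}
    (hH : BM Z.μ (Inv Z {u}) H) (hg : BM X.μ X.ms g) (hk : BM X.μ X.ms k) (hS : Star p H g k) :
    VW X a b (df ν ν') r k := by
  intro h hh
  obtain ⟨c, g0, hg0, eg⟩ := nrm F X hg
  have hS' : Star p (fun z => c * H z) g0 k := star_mul (hP.emb true) eg hS
  obtain ⟨K, hK0, hK⟩ := hK X Z A2 p a b u _ g0 k h2 hP (hH.cmul c) hg0 hk hS'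
  choose cc hcc using fun n n' => V.ver X A2 (d2 X u n n' g0) h2 (mb_d2 hg0 u n n')
  have sub : ∀ M, NW X a b (df ν ν' M) M h r k ≤
      NW X a b (ν M) M h r k + NW X a b (ν' M) M h r k := fun M => W.sub X a b _ _ M h r k
  refine tendsto_order.2 ⟨fun t ht => .of_forall fun M => ht.trans_le (W.nonneg _ _ _ _ _ _ _ _),
    fun ε hε => ?_⟩
  set η : ℝ := (ε / 3) ^ 2 / (3 * K + 1) with hη
  have hη0 : 0 < η := by positivity
  have hη1 : K * (η + 2 * η) ≤ (ε / 3) ^ 2 := by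
    have : (3 * K + 1) * η = (ε / 3) ^ 2 := by rw [hη]; field_simp
    nlinarith
  obtain ⟨N, α, hN, hα, h0⟩ := h0 η hη0
  have : Nonempty (Fin N) := ⟨⟨0, hN⟩⟩
  have e1 : ∀ᶠ M in atTop, ∀ n n' : Fin N,
      NW X a b (ν' M) M (d2 X u n n' h) (d2 X u n n' r) (cc n n') ≤ α n n' + η :=
    eventually_all.2 fun n => eventually_all.2 fun n' =>
      (h0 n n' X.ms (cc n n') (d2 X u n n' r) (F.t.top X) (hcc n n').1.1
        ⟨mb_d2 hr u n n', ((bm_of_mb (mb_d2 hr u n n')).ce_self le_rfl).symm⟩ η hη0).mono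
        fun M hM => (W.le X a b _ M _ _ _ (mb_d2 hh u n n') (mb_d2 hr u n n') (hcc n n').1.1).trans
          (by rwa [V.swap])
  have e2 : ∀ᶠ M in atTop, ∀ n n' : Fin N,
      NW X a b (df ν ν' M) M (d2 X u n n' h) (d2 X u n n' r) (cc n n') ≤ η :=
    eventually_all.2 fun n => eventually_all.2 fun n' =>
      (hG _ _ (mb_d2 hr u n n') (hcc n n').1.1
        ((F.t.bm X A1 _ r h1 hr1).mul (F.t.bm X A1 _ r h1 hr1).conj)
        ((bm_of_mb (hcc n n').1.1).of_aesm (hcc n n').2.aestronglyMeasurable) _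
        (mb_d2 hh u n n')).eventually (ge_mem_nhds hη0)
  filter_upwards [e1, e2, hν.2, hν'.2] with M m1 m2 s1 s2
  have fin : ∀ κ : ℕ → ℝ, (∀ d, 0 ≤ κ d) → ∑ d ∈ Finset.range M, κ d = 1 →
      (∀ n n' : Fin N,
        NW X a b κ M (d2 X u n n' h) (d2 X u n n' r) (cc n n') ≤ α n n' + 2 * η) →
      NW X a b κ M h r k ≤ ε / 3 := by
    intro κ k0 k1 hb
    refine (abs_le_of_sq_le_sq' ?_ (by positivity)).2
    refine (hK h r N cc κ M hh hr hN (fun n n' => (hcc n n').1) k0 k1).trans (le_trans ?_ hη1)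
    refine mul_le_mul_of_nonneg_left ?_ hK0
    refine (Finset.expect_le_expect fun n _ => Finset.expect_le_expect fun n' _ => hb n n').trans ?_
    simp only [Finset.expect_add_distrib, Fintype.expect_const]
    linarith
  have f1 := fin (ν M) (hν.1 M) s1 fun n n' => by
    have := W.tri X a b (ν M) (ν' M) M (d2 X u n n' h) (d2 X u n n' r) (cc n n')
    have h3 : NW X a b (fun d => ν M d - ν' M d) M (d2 X u n n' h) (d2 X u n n' r) (cc n n') ≤ η :=
      m2 n n'
    linarith [m1 n n']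
  have f2 := fin (ν' M) (hν'.1 M) s2 fun n n' => by linarith [m1 n n']
  linarith [sub M]

end ForL

open T6.For in
theorem forr : ForR := by
  intro F V W hK hG0 ν ν' hν hν' ha X a b u B A1 A2 hX hB h1 h2 hle hu hG f k hf hk hf1 hk2
  obtain ⟨f', hv, hm⟩ := V.ver X B f hB.fac hf
  obtain ⟨hr, hz⟩ := V.half X B f f' hB.fac hf hv
  have hf' : BM X.μ B f' := (bm_of_mb hv.1).of_aesm hm.aestronglyMeasurable
  have hr1 : BM X.μ A1 fun x => (2⁻¹ : ℂ) * (f x - f' x) := (hf1.sub (hf'.mono hle)).cmul _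
  have h0 : T6.G0 X b a u ν' fun x => (2⁻¹ : ℂ) * (f x - f' x) := by
    refine hG0 ν' hν' ha X b a u _ hr ?_
    rcases hu with rfl | rfl
    exacts [(hB.nul _ hr hz).1, (hB.nul _ hr hz).2]
  obtain ⟨Z, p, hP⟩ := F.rp Bool (fun _ => X) X A2 (fun _ => id) false (fun _ => hX) h2
    (fun _ => (F.t.emb_id X).mp) fun _ _ _ _ => EventuallyEq.rfl
  have hkm : BM X.μ X.ms k := bm_of_mb hk
  have h3 : VW X a b (df ν ν') (fun x => (2⁻¹ : ℂ) * (f x - f' x)) k := by
    refine W.span X a b _ _ k {k' | ∃ (H : Z.X → ℂ) (g : X.X → ℂ), BM Z.μ (Inv Z {u}) H ∧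
      BM X.μ X.ms g ∧ BM X.μ X.ms k' ∧ Star p H g k'} (bd hν hν') hr hkm.integrable ?_ ?_
    · rintro φ ⟨H, g, a1, a2, a3, a4⟩
      exact ⟨a3.integrable, ForL.one F V W hK hν hν' h1 h2 hP hG hr hr1 h0 a1 a2 a3 a4⟩
    · intro ε hε
      obtain ⟨n, H, g, k', hh, he⟩ := F.kb.span X u A2 Z p hX h2 hP k hk2 (ε ^ 2) (by positivity)
      refine ⟨∑ i, k' i, Submodule.sum_mem _ fun i _ => Submodule.subset_span ⟨H i, g i, hh i⟩, ?_⟩
      have hs : BM X.μ X.ms (∑ i, k' i) := by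
        refine Finset.sum_induction _ (fun φ => BM X.μ X.ms φ) (fun φ ψ hφ hψ => hφ.add hψ)
          (Fib27.BM.const 0) fun i _ => (hh i).2.2.1
      exact l1 (hkm.sub hs) hε (by simpa only [Finset.sum_apply] using he)
  have sw : ∀ φ ψ, VW X a b (df ν ν') φ ψ ↔ VW X b a (df ν ν') ψ φ := fun φ ψ => by
    simp only [VW, W.swap X a b]
  have h4 := W.split X b a (df ν ν') k f f' (fun _ => 1) hk hf hv.1
    ⟨measurable_const, fun _ => by simp⟩ (by simpa only [mul_one] using hB.gd f' hv.1 hf' k hk)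
    (by simpa only [mul_one] using (sw _ _).1 h3)
  exact (sw _ _).2 (by simpa only [mul_one] using h4)

end T8

end
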