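import Pool.Agent.MP_154433_an.t8.Spec
import Pool.Agent.MP_154433_an.p5.U2

/-! Row Good: twisted sums vanish on the structured factor. -/

set_option autoImplicit false
set_option linter.unusedVariables false
set_option warn.classDefReducibility false

open MeasureTheory ProbabilityTheory Filter Topology Function
open scoped BigOperators ComplexConjugate

noncomputable section

namespace T8

open Pool.Agent.MP_154433_an hiding BM
open T3S (Bd)
open T3S.GoodR T5u.UGood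

namespace GoodL

variable {w : ℕ → ℕ → ℝ} {Y : T3x.Sys} {b : ℕ → Y.X → ℝ}

theorem sw_eq (w : ℕ → ℕ → ℝ) (Y : T3x.Sys) (b : ℕ → Y.X → ℝ) (g : Y.X → ℂ) (N : ℕ) (y : Y.X) :
    sw w Y g N (b N y) y = op Y.T w 1 (fun d x => T5x.ee ((d : ℝ) * b N x)) g N y := by
  simp only [sw, op, one_mul]
  rfl

theorem nn (g : Y.X → ℂ) (N : ℕ) : 0 ≤ ∫ y, ‖sw w Y g N (b N y) y‖ ∂Y.μ :=
  integral_nonneg fun _ => norm_nonneg _

theorem iadd (hb : ∀ N, Measurable (b N)) {g g' : Y.X → ℂ} (hg : MB g) (hg' : MB g') (N : ℕ) :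
    ∫ y, ‖sw w Y (fun x => g x + g' x) N (b N y) y‖ ∂Y.μ ≤
      ∫ y, ‖sw w Y g N (b N y) y‖ ∂Y.μ + ∫ y, ‖sw w Y g' N (b N y) y‖ ∂Y.μ := by
  simp only [sw_eq]
  exact int_add zero_le_one (mR hb N) (fun d x => (nee _).le) hg hg' N

theorem padd (hb : ∀ N, Measurable (b N)) (g g' : Y.X → ℂ) (hg : MB g) (hg' : MB g')
    (h : SW w Y g b) (h' : SW w Y g' b) : SW w Y (fun x => g x + g' x) b := by
  have h3 := h.add h'
  rw [add_zero] at h3
  exact squeeze_zero (nn _) (iadd hb hg hg') h3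

theorem pmul (c : ℂ) (g : Y.X → ℂ) (h : SW w Y g b) : SW w Y (fun x => c * g x) b := by
  have h3 := h.const_mul ‖c‖
  rw [mul_zero] at h3
  refine h3.congr fun M => ?_
  simp only [sw_eq, op_mul, norm_mul, integral_const_mul]

theorem papx (hw : Bd w) (hb : ∀ N, Measurable (b N)) (g : Y.X → ℂ) (hg : MB g)
    (h : ∀ ε : ℝ, 0 < ε → ∃ g', MB g' ∧ SW w Y g' b ∧ ∫ x, ‖g x - g' x‖ ∂Y.μ ≤ ε) :
    SW w Y g b := by
  refine tendsto_order.2 ⟨fun c hc => Eventually.of_forall fun M => hc.trans_le (nn _ _),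
    fun c hc => ?_⟩
  obtain ⟨g', hg', hV, hε⟩ := h (c / 6) (by positivity)
  filter_upwards [hw, (tendsto_order.1 hV).2 (c / 2) (by positivity)] with M h1 h2
  have e : g = fun x => g' x + (g x - g' x) := funext fun x => by ring
  have h3 := iadd (w := w) hb hg' (hg.sub hg') M
  rw [← e] at h3
  have h4 : ∫ y, ‖sw w Y (fun x => g x - g' x) M (b M y) y‖ ∂Y.μ ≤ 3 * (c / 6) := by
    simp only [sw_eq]
    refine (op_int Y.mp zero_le_one (fun d x => (nee _).le) (hg.sub hg') M).trans ?_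
    rw [one_mul]
    exact mul_le_mul h1 hε (integral_nonneg fun x => norm_nonneg _) (by positivity)
  linarith

theorem pbase (h : ProdS) (hw : Bd w) (hs : TS w) (hb : ∀ N, Measurable (b N)) {φ : Y.X → ℝ}
    (hφ : Shape Y.μ Y.T 2 φ) : SW w Y (fun x => (φ x : ℂ)) b := by
  obtain ⟨a1, a2, ph, κ, _, D, a3, a4, a5, a6⟩ := hφ
  have h1 := h w hw hs Y κ D a5 b hb
  have hD : MB fun y => ∏ t, D t y := by
    choose b' _ hb' using a5
    exact ⟨Finset.measurable_prod _ fun t _ => (hb' t).1.1, 1, zero_le_one,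
      fun y => T3S.norm_prod_le_one _ fun t _ => (hb' t).1.2 y⟩
  refine squeeze_zero (nn _) (fun M => ?_) h1
  simp only [sw_eq]
  refine integral_mono_of_nonneg (Eventually.of_forall fun x => norm_nonneg _)
    ((op_MB zero_le_one (mR hb M) (fun d x => (nee _).le) hD M).intn Y.μ) ?_
  filter_upwards [ae_all_iff.2 a4] with x hx
  refine le_of_eq_of_le (b := ‖(ph x : ℂ) * op Y.T w 1 (fun d x => T5x.ee ((d : ℝ) * b M x))
    (fun y => ∏ t, D t y) M x‖) (congrArg _ ?_) ?_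
  · simp only [op, Finset.mul_sum, a6, hx]
    exact Finset.sum_congr rfl fun d _ => by ring
  rw [norm_mul]
  refine mul_le_of_le_one_left (norm_nonneg _) ?_
  rw [Complex.norm_real, Real.norm_eq_abs]
  exact a3 x

end GoodL

theorem good : GoodR := by
  intro h w hw hs Y g hg b hb
  have hB : T3S.B0 Y.μ Y.T 2 ≤ Y.ms := iSup₂_le fun φ hφ =>
    (shape Y.mp 2 (Submonoid.subset_closure hφ)).1.comap_le
  obtain ⟨g', h1, h2, h3⟩ := rep _ hB (f := g) ⟨hg.1, hg.2⟩
  have hV : SW w Y g' b :=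
    slotA (μ := Y.μ) (fun g => SW w Y g b) (GoodL.padd hb) GoodL.pmul (GoodL.papx hw hb)
      (Submonoid.closure (T3S.Gen Y.μ Y.T 2) : Set (Y.X → ℝ)) (one_mem _)
      (fun φ hφ φ' hφ' => mul_mem hφ hφ')
      (fun φ hφ => ⟨(shape Y.mp 2 hφ).1, 1, (shape Y.mp 2 hφ).2.1⟩)
      (fun φ hφ => GoodL.pbase h hw hs hb (shape Y.mp 2 hφ)) h1
      (h2.mono (iSup₂_le fun φ hφ => le_iSup₂_of_le φ (Submonoid.subset_closure hφ) le_rfl))
  have h4 : ∀ᵐ x ∂Y.μ, ∀ v : ℤ, g (T3S.Tz Y.T v x) = g' (T3S.Tz Y.T v x) :=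
    ae_all_iff.2 fun v => (T3S.Tz_mp Y.mp v).quasiMeasurePreserving.ae h3
  refine hV.congr fun N => integral_congr_ae ?_
  filter_upwards [h4] with x hx
  simp only [GoodL.sw_eq, op, hx]

end T8

end
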