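import Pool.Agent.MP_154433_an.t8.Spec
import Pool.Agent.MP_154433_an.t3s.Asm

/-! The base of a slot. -/

set_option autoImplicit false

open MeasureTheory

namespace T8

open Pool.Agent.MP_154433_an hiding BM
open T4x (Inv)
open T6 (IvF LF df)

theorem has : HasR := by
  intro F vb eb la cl lb nu db ν ν' h h' hi hu a b tw X hX
  have P := la _ (cl a b).2 X hX
  have one : ∀ u, Eig X u fun _ => 1 := fun u =>
    eb.ivf X u _ ⟨(cl a b).2.mb X _ ((cl a b).2.one X), .rfl⟩
  have le : ∀ u, (∀ c, Eig X u c → c ∈ K2 a b X) → Inv X {u} ≤ LF (K2 a b) X := fun u h =>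
    vb.fle X _ _ (F.t.finv X {u}) P.fac fun c hc hm => P.mem c (h c (eb.ivf X u c
      ((vb.ivf X u c hc).2 ⟨hm.stronglyMeasurable.aestronglyMeasurable, 1, .of_forall hc.2⟩)))
  exact ⟨_, P.fac, le b fun c hc => ⟨c, _, hc, one _, by simp⟩,
    le _ fun c hc => ⟨_, c, one _, hc, by simp⟩,
    lb _ a b _ (cl a b).2 (T3S.Asm.bd_sub h h') (db ν ν' h h' hi hu a b tw) X hX,
    fun g hg => (nu a b tw X hX g hg).2⟩

end T8
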