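import Pool.Agent.MP_154433_an.t8.Spec
import Pool.Agent.MP_154433_an.p6.S4

/-! Row Hull: the good pairs of factors pass to the hull. -/

set_option autoImplicit false
set_option linter.unusedVariables false
set_option warn.classDefReducibility false

open MeasureTheory ProbabilityTheory Filter Topology Function
open scoped BigOperators ComplexConjugate

noncomputable section

namespace T8

open Pool.Agent.MP_154433_an hiding BM
open T3S (B1 MB1 PW AsInv Erg Bd Near Gr yw nu nb CZ)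
open T4S (Gm ddX Spr)
open Fib27 (BM)
open T3x (nul pull gen)
open T4x (Fac Emb Inv Nice Pair Star KK Fd)
open T6 (Sy MB rr ee NN Vn IvF Ver VB QB Nul QE EL NulInv Cl EE LF LfP LiftA LbS Pj Tw2 d2 G0 G0S
  df AS)

namespace HullL

open T6.Hull (itg l1 bd dirs)

variable {X : Sy} {a b : Gm 2} {w : ℕ → ℕ → ℝ}

theorem swap (W : WB) {A1 A2 : MeasurableSpace X.X} (h : GP X a b w A1 A2) : GP X b a w A2 A1 :=
  fun f g hf hg bf bg k hk =>
    (h g f hg hf bg bf k hk).congr fun M => W.swap X a b (w M) M k g f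

theorem mono {A1 A2 A1' A2' : MeasurableSpace X.X} (h : GP X a b w A1 A2) (h1 : A1' ≤ A1)
    (h2 : A2' ≤ A2) : GP X a b w A1' A2' :=
  fun f g hf hg bf bg => h f g hf hg ⟨bf.1.mono h1, bf.2⟩ ⟨bg.1.mono h2, bg.2⟩

theorem lim (F : Fd) (V : VB) (W : WB) (hw : Bd w) (𝒟 : Set (MeasurableSpace X.X)) (ne : 𝒟.Nonempty)
    (dir : DirectedOn (· ≤ ·) 𝒟) (fac : ∀ D ∈ 𝒟, Fac X D) {A1 : MeasurableSpace X.X}
    (h : ∀ D ∈ 𝒟, GP X a b w A1 D) : GP X a b w A1 (sSup 𝒟) := by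
  intro f g hf hg bf bg
  have mg := @itg X.X X.ms X.μ X.pr g hg
  refine W.span X a b w f g {φ | MB X φ ∧ ∃ D ∈ 𝒟, BM X.μ D φ} hw hf (mg.integrable one_le_two)
    ?_ fun ε hε => ?_
  · rintro φ ⟨h1, D, hD, h2⟩
    exact ⟨(@itg X.X X.ms X.μ X.pr φ h1).integrable one_le_two, h D hD f φ hf h1 bf h2⟩
  · obtain ⟨D, hD, hc⟩ := F.d.chain 𝒟 X.μ ne dir (fun D hD => (fac D hD).le) g mg (ε ^ 2)
      (by positivity)
    obtain ⟨G, hG, mG⟩ := V.ver X D g (fac D hD) hg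
    refine ⟨G, Submodule.subset_span ⟨hG.1, D, hD, mG.aestronglyMeasurable, 1,
      ae_of_all _ hG.1.2⟩, ?_⟩
    refine @l1 X.X X.ms X.μ X.pr (fun x => g x - G x) (mg.sub (@itg X.X X.ms X.μ X.pr G hG.1)) ε hε
      (le_trans (le_of_eq (integral_congr_ae ?_)) (hc D hD le_rfl))
    have e := condExp_of_aestronglyMeasurable' (F.t.fsSup X 𝒟 ne fac).le bg.1
      (mg.integrable one_le_two)
    filter_upwards [e, hG.2] with x e1 e2
    rw [e1, e2]

theorem step (F : Fd) (V : VB) (W : WB) (hO : OwnS) (hF : ForS) {ν ν' : ℕ → ℕ → ℝ} (p : PW ν) (p' : PW ν')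
    (ai : AsInv ν') (n : Nice X) {u : Gm 2} {B A1 A2 : MeasurableSpace X.X}
    (hB : Bs X a b (df ν ν') B) (f1 : Fac X A1) (f2 : Fac X A2) (le : B ≤ A2)
    (hu : u = b ∨ u = b - a) (h : GP X a b (df ν ν') A1 A2) :
    GP X a b (df ν ν') (KK X u A1) (KK X u A2) :=
  swap W (hF ν ν' p p' ai X b a u B _ A1 n hB (F.kb.fac X u A2 n f2) f1
    (le.trans (F.kb.le X u A2 n f2)) hu (swap W (hO ν ν' p p' ai X a b u B A1 A2 n hB f1 f2 le hu h)))

theorem chain (F : Fd) (V : VB) (W : WB) (hw : Bd w) (𝒞 : Set (MeasurableSpace X.X)) (ne : 𝒞.Nonempty)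
    (ch : IsChain (· ≤ ·) 𝒞) (fac : ∀ C ∈ 𝒞, Fac X C) {A B : MeasurableSpace X.X} (fB : Fac X B)
    (h : ∀ C ∈ 𝒞, GP X a b w A (C ⊔ B)) : GP X a b w A (sSup 𝒞 ⊔ B) := by
  refine mono (lim F V W hw ((· ⊔ B) '' 𝒞) (ne.image _) ?_ ?_ ?_) le_rfl ?_
  · exact ch.directedOn.mono_comp fun _ _ h => sup_le_sup_right h B
  · rintro _ ⟨C, hC, rfl⟩
    exact F.t.fsup X C B (fac C hC) fB
  · rintro _ ⟨C, hC, rfl⟩
    exact h C hC
  · obtain ⟨C, hC⟩ := ne
    exact sup_le (sSup_le fun D hD => le_sup_left.trans (le_sSup ⟨D, hD, rfl⟩))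
      (le_sup_right.trans (le_sSup ⟨C, hC, rfl⟩))

end HullL

open HullL T6.Hull in
theorem hull : HullR := by
  intro F V W hO hF ν ν' p p' ai X B B' n hB hB'
  have f0 := F.t.bot X
  have hw := bd p p'
  refine ⟨T4x.hull X (nul X.μ), F.h.kc X _ n f0, mono (F.h.ind X (nul X.μ)
    (fun C => GP X (rr 0) (rr 1) (df ν ν') (C ⊔ B') (C ⊔ B)) n f0 ?_ ?_ ?_) le_sup_left le_sup_left⟩
  · intro f g hf hg _ bg
    rw [sup_eq_right.2 hB.fac.nl] at bg
    exact hB.gd g hg bg f hf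
  · intro u hu C fC _ h
    have f1 := F.t.fsup X C B' fC hB'.fac
    have f2 := F.t.fsup X C B fC hB.fac
    have k : ∀ D, Fac X D → KK X u C ⊔ D ≤ KK X u (C ⊔ D) := fun D fD =>
      sup_le (F.kb.mono X u C _ n fC (F.t.fsup X C D fC fD) le_sup_left)
        (le_sup_right.trans (F.kb.le X u _ n (F.t.fsup X C D fC fD)))
    refine mono ?_ (k B' hB'.fac) (k B hB.fac)
    rcases dirs hu with hu | hu
    · exact step F V W hO hF p p' ai n hB f1 f2 le_sup_right hu h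
    · exact swap W (step F V W hO hF p p' ai n hB' f2 f1 le_sup_right hu (swap W h))
  · intro 𝒞 ne ch h
    have fac : ∀ C ∈ 𝒞, Fac X C := fun C hC => (h C hC).1
    refine chain F V W hw 𝒞 ne ch fac hB.fac fun C hC => swap W ?_
    refine chain F V W hw 𝒞 ne ch fac hB'.fac fun C' hC' => swap W ?_
    rcases ch.total hC hC' with e | e
    · exact mono (h C' hC').2.2 le_rfl (sup_le_sup_right e B)
    · exact mono (h C hC).2.2 (sup_le_sup_right e B') le_rfl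

end T8

end
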