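import Pool.Agent.MP_154433_an.t8.Spec
import Pool.Agent.MP_154433_an.p6.S3

/-! Row Lift: tested goodness descends from the extensions to the lifted factor. -/

set_option autoImplicit false
set_option linter.unusedVariables false
set_option warn.classDefReducibility false

open MeasureTheory ProbabilityTheory Filter Topology Function
open scoped BigOperators ComplexConjugate

noncomputable section

namespace T8

open Pool.Agent.MP_154433_an hiding BM
open T3S (B1 MB1 PW AsInv Erg Bd Near Gr yw nu nb CZ)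
open T4S (Gm ddX Spr)
open Fib27 (BM)
open T3x (nul pull gen)
open T4x (Fac Emb Inv Nice Pair Star KK Fd)
open T6 (Sy MB rr ee NN Vn IvF Ver VB QB Nul QE EL NulInv Cl EE LF LfP LiftA LbS Pj Tw2 d2 G0 G0S
  df AS)
open T6.LiftB (bm mb_tz term)

namespace LiftL

theorem eq (fd : Fd) {X' X : Sy} {p : X'.X → X.X} (hp : Emb X' X p) {k f e : X.X → ℂ}
    {F : X'.X → ℂ} (hk : MB X k) (hf : MB X f) (he : MB X e) (hF : MB X' F)
    (h : (fun x => e (p x)) =ᵐ[X'.μ] X'.μ[F | pull X'.μ p X.ms]) (n m : Gm 2) :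
    ∫ x, k x * (f (X.A n x) * e (X.A m x)) ∂X.μ =
      ∫ y, k (p y) * (f (p (X'.A n y)) * F (X'.A m y)) ∂X'.μ := by
  have hY := fd.t.fpull X' X p X.ms hp (fd.t.top X)
  have hf' : MB X' fun y => f (p y) := ⟨hf.1.comp hp.mp.measurable, fun y => hf.2 _⟩
  have b1 : BM X'.μ (pull X'.μ p X.ms) fun y => k (p y) :=
    fd.a.bm_comp X.ms X'.μ X.μ p k hp.mp (bm hk)
  have hm : Measurable fun x => k x * (f (X.A n x) * e (X.A m x)) :=
    hk.1.mul ((mb_tz hf _).1.mul (mb_tz he _).1)
  rw [← integral_condExp (μ := X'.μ) hY.le, ← hp.mp.map_eq,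
    integral_map hp.mp.measurable.aemeasurable hm.aestronglyMeasurable]
  refine integral_congr_ae ?_
  have ht := term fd hp hf he hF h 1 n m
  simp only [one_mul] at ht
  filter_upwards [Fib27.ce_mul hY.le b1 ((bm (mb_tz hf' n)).mul (bm (mb_tz hF m))), ht]
    with y h1 h2
  rw [h1, h2]

end LiftL

theorem lift : LiftR := by
  intro fd vb wb la 𝒞 a b w hC hw hG X hX g hg bg f hf
  refine wb.span X a b w f g (EE 𝒞 X) hw hf (bm hg).integrable ?_ ((la 𝒞 hC X hX).span g hg bg)
  rintro e ⟨he, X', p, F, hX', hp, hF, h⟩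
  refine ⟨(bm he).integrable, fun k hk => ?_⟩
  refine (hG X' hX' F hF (fun y => f (p y)) ⟨hf.1.comp hp.mp.measurable, fun y => hf.2 _⟩
    (fun y => k (p y)) ⟨hk.1.comp hp.mp.measurable, fun y => hk.2 _⟩).congr fun M => ?_
  unfold NW
  simp only [LiftL.eq fd hp hk hf he (hC.mb X' F hF) h]

end T8

end
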