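import Pool.Agent.MP_154433_an.t8.Spec

/-! The mean ergodic theorem with an invariant frequency. -/

set_option autoImplicit false
set_option linter.unusedVariables false

open MeasureTheory Filter Topology Function
open scoped BigOperators ComplexConjugate InnerProductSpace

noncomputable section

namespace T8

open Pool.Agent.MP_154433_an hiding BM
open T3S (MB1)
open T6 (ee act)

namespace MetL

lemma ee_add (s t : ℝ) : ee (s + t) = ee s * ee t := by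
  rw [ee, ee, ee, ← Complex.exp_add]
  congr 1
  push_cast
  ring

lemma norm_ee (t : ℝ) : ‖ee t‖ = 1 := Complex.norm_exp_ofReal_mul_I _

lemma ee_zero : ee 0 = 1 := by simp [ee]

lemma cont_ee : Continuous ee := by
  unfold ee
  fun_prop

lemma clip {X : Type} [MeasurableSpace X] {μ : Measure X} {g : X → ℂ}
    (hm : AEStronglyMeasurable g μ) (hb : ∀ᵐ x ∂μ, ‖g x‖ ≤ 1) : ∃ g', MB1 g' ∧ g =ᵐ[μ] g' := by
  classical
  have h1 := hm.stronglyMeasurable_mk.measurable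
  refine ⟨fun x => if ‖hm.mk g x‖ ≤ 1 then hm.mk g x else 0,
    ⟨Measurable.ite (measurableSet_le h1.norm measurable_const) h1 measurable_const,
      fun x => ?_⟩, ?_⟩
  · beta_reduce
    split_ifs with e
    · exact e
    · simp
  · filter_upwards [hb, hm.ae_eq_mk] with x h2 h3
    rw [← h3, if_pos h2]

lemma nsq {Ω : Type} [MeasurableSpace Ω] {μ : Measure Ω} (v : Lp ℂ 2 μ) :
    ∫ x, ‖v x‖ ^ 2 ∂μ = ‖v‖ ^ 2 := by
  have h := L2.inner_def (𝕜 := ℂ) v v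
  simp_rw [inner_self_eq_norm_sq_to_K] at h
  have h2 : ((∫ x, ‖v x‖ ^ 2 ∂μ : ℝ) : ℂ) = ((‖v‖ ^ 2 : ℝ) : ℂ) := by
    rw [← integral_complex_ofReal]; push_cast; exact h.symm
  exact_mod_cast h2

lemma main {Ω : Type} [MeasurableSpace Ω] (μ : Measure Ω) [IsProbabilityMeasure μ] (T : Ω → Ω)
    (hT : MeasurePreserving T μ μ) (ξ : Ω → ℝ) (mξ : Measurable ξ)
    (hξ : (fun x => ξ (T x)) =ᵐ[μ] ξ) (g : Ω → ℂ) (hg : MB1 g) :
    ∃ ψ, MB1 ψ ∧ ((fun x => ψ (T x)) =ᵐ[μ] fun x => ee (ξ x) * ψ x) ∧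
    Tendsto (fun N : ℕ => ∫ x, ‖(N : ℂ)⁻¹ * ∑ n ∈ Finset.range N,
      ee (-((n : ℝ) * ξ x)) * g (T^[n] x)‖ ^ 2 ∂μ) atTop (𝓝 (∫ x, g x * conj (ψ x) ∂μ).re) := by
  have mφ : MemLp (fun x => ee (-ξ x)) ⊤ μ := MemLp.of_bound
    (cont_ee.measurable.comp mξ.neg).aestronglyMeasurable 1 (ae_of_all _ fun x => (norm_ee _).le)
  obtain ⟨V, hV⟩ : ∃ V : Lp ℂ 2 μ →L[ℂ] Lp ℂ 2 μ, ∀ f : Lp ℂ 2 μ,
      (V f : Ω → ℂ) =ᵐ[μ] fun x => ee (-ξ x) * f (T x) := by
    refine ⟨((ContinuousLinearMap.mul ℂ ℂ).holderL μ ⊤ 2 2 (mφ.toLp _)).comp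
      (Lp.compMeasurePreservingₗᵢ ℂ T hT).toContinuousLinearMap, fun f => ?_⟩
    filter_upwards [(ContinuousLinearMap.mul ℂ ℂ).coeFn_holder (r := 2) (mφ.toLp _)
      (Lp.compMeasurePreserving T hT f), mφ.coeFn_toLp, Lp.coeFn_compMeasurePreserving f hT]
      with x h1 h2 h3
    exact h1.trans (by rw [h2, h3]; rfl)
  have nV : ‖V‖ ≤ 1 := V.opNorm_le_bound zero_le_one fun f => by
    rw [one_mul, ← Lp.norm_compMeasurePreserving f hT]
    refine Lp.norm_le_norm_of_ae_le ?_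
    filter_upwards [hV f, Lp.coeFn_compMeasurePreserving f hT] with x h1 h2
    rw [h1, h2, norm_mul, norm_ee, one_mul]
    rfl
  have hm : MemLp g 2 μ := MemLp.of_bound hg.1.aestronglyMeasurable 1 (ae_of_all _ hg.2)
  obtain ⟨G, hG⟩ : ∃ G : Lp ℂ 2 μ, (G : Ω → ℂ) =ᵐ[μ] g := ⟨hm.toLp g, hm.coeFn_toLp⟩
  have it : ∀ n : ℕ, (V^[n] G : Ω → ℂ) =ᵐ[μ] fun x => ee (-((n : ℝ) * ξ x)) * g (T^[n] x) := by
    intro n
    induction n with
    | zero => simpa [ee_zero] using hG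
    | succ n ih =>
      rw [iterate_succ_apply']
      filter_upwards [hV (V^[n] G), hT.quasiMeasurePreserving.ae_eq_comp ih, hξ] with x h1 h2 h3
      simp only [Function.comp_apply] at h2
      rw [h1, h2, h3, ← mul_assoc, ← ee_add, iterate_succ_apply]
      congr 2
      push_cast
      ring
  have av : ∀ N : ℕ, ((birkhoffAverage ℂ V _root_.id N G : Lp ℂ 2 μ) : Ω → ℂ) =ᵐ[μ] fun x =>
      (N : ℂ)⁻¹ * ∑ n ∈ Finset.range N, ee (-((n : ℝ) * ξ x)) * g (T^[n] x) := fun N => by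
    simp only [birkhoffAverage, birkhoffSum, _root_.id]
    filter_upwards [Lp.coeFn_smul (N : ℂ)⁻¹ (∑ n ∈ Finset.range N, V^[n] G),
      Lp.coeFn_finsetSum (Finset.range N) fun n => V^[n] G, ae_all_iff.2 it] with x h1 h2 h3
    rw [h1, Pi.smul_apply, h2, Finset.sum_apply, smul_eq_mul]
    simp only [h3]
  obtain ⟨P, ht, hfix, hin⟩ : ∃ P : Lp ℂ 2 μ,
      Tendsto (fun N => birkhoffAverage ℂ V _root_.id N G) atTop (𝓝 P) ∧ V P = P ∧
        ⟪P, G⟫_ℂ = ⟪P, P⟫_ℂ := by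
    refine ⟨_, V.tendsto_birkhoffAverage_orthogonalProjection nV G,
      ((V.eqLocus (1 : Lp ℂ 2 μ →L[ℂ] Lp ℂ 2 μ)).orthogonalProjectionOnto G).2, ?_⟩
    rw [← Submodule.inner_orthogonalProjectionOnto_eq_of_mem_left _ G]
    rfl
  have bd : ∀ᵐ x ∂μ, ‖P x‖ ≤ 1 := by
    obtain ⟨ns, -, hs⟩ := (tendstoInMeasure_of_tendsto_Lp ht).exists_seq_tendsto_ae
    filter_upwards [hs, ae_all_iff.2 av] with x h1 h2
    refine le_of_tendsto' h1.norm fun i => ?_
    rw [h2, norm_mul, norm_inv, Complex.norm_natCast]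
    refine inv_mul_le_one_of_le₀ ((norm_sum_le _ _).trans ?_) (Nat.cast_nonneg _)
    refine (Finset.sum_le_card_nsmul _ _ 1 fun n _ => ?_).trans (by simp)
    rw [norm_mul, norm_ee, one_mul]
    exact hg.2 _
  obtain ⟨ψ, mψ, eψ⟩ := clip (Lp.aestronglyMeasurable P) bd
  refine ⟨ψ, mψ, ?_, ?_⟩
  · have e1 := hV P
    rw [hfix] at e1
    filter_upwards [e1, eψ, hT.quasiMeasurePreserving.ae_eq_comp eψ] with x h1 h2 h3
    simp only [Function.comp_apply] at h3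
    rw [← h3, ← h2, h1, ← mul_assoc, ← ee_add, add_neg_cancel, ee_zero, one_mul]
  have z : (∫ x, g x * conj (ψ x) ∂μ).re = ‖P‖ ^ 2 := by
    rw [← @inner_self_eq_norm_sq ℂ, ← hin, L2.inner_def, RCLike.re_to_complex]
    refine congrArg _ (integral_congr_ae ?_)
    filter_upwards [eψ, hG] with x h1 h2
    rw [← h1, h2]
    simp
  rw [z]
  refine (ht.norm.pow 2).congr fun N => ?_
  rw [← nsq]
  exact integral_congr_ae ((av N).mono fun x hx => by simp only [hx])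

end MetL

theorem met : MetR := by
  intro _ X u g ξ hg mξ iξ
  have hA := act X
  have it : ∀ (n : ℕ) x, (X.A u)^[n] x = X.A ((n : ℤ) • u) x := fun n => by
    induction n with
    | zero => intro x; simp [hA.zero]
    | succ n ih => intro x; rw [iterate_succ_apply, ih, ← hA.add, Nat.cast_succ, add_smul, one_smul]
  obtain ⟨ψ, p1, p2, p3⟩ := MetL.main X.μ (X.A u) (hA.mp u) ξ mξ iξ g hg
  refine ⟨ψ, ⟨p1, mξ, iξ, p2⟩, p3.congr fun N => integral_congr_ae (ae_of_all _ fun x => ?_)⟩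
  simp only [it, tw, Fintype.expect_eq_sum_div_card, Fintype.card_fin, Finset.sum_range,
    div_eq_inv_mul]

end T8

end
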