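import Pool.Agent.MP_154433_an.t8.Spec

/-! Row Nul: functions orthogonal to the lifted factors have null boxes. -/

set_option autoImplicit false

open MeasureTheory Filter
open scoped ComplexConjugate

noncomputable section

namespace T8

open Pool.Agent.MP_154433_an.T4S (Gm)
open T4x (Nice)
open T6 (Sy MB IvF QB Nul LF LfP LbS Pj)

namespace NulL

lemma perm (qb : QB) {X : Sy} {L L' : List (Gm 2)} {g : X.X → ℂ} (h : L.Perm L')
    (k : Nul X L g) : Nul X L' g := fun ε hε =>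
  (k ε hε).imp fun H t => ⟨t.1, qb.perm X L L' H g h ▸ t.2⟩

lemma nul (lb : LbS) (eg : EigS) {𝒞 : ∀ X : Sy, Set (X.X → ℂ)} {X : Sy} (hX : Nice X)
    (P : LfP 𝒞 X) {u v : Gm 2} (h : ∃ φ, Pj u φ ∧ φ v = v)
    (hC : ∀ (Y : Sy) c D, IvF Y u c → Eig Y v D → (fun x => c x * D x) ∈ 𝒞 Y)
    {g : X.X → ℂ} (hg : MB X g) (h0 : X.μ[g | LF 𝒞 X] =ᵐ[X.μ] 0) : Nul X [u, v, v] g := by
  obtain ⟨φ, h1, h2⟩ := h
  obtain ⟨Y, p, p', hY, hp, H⟩ := lb X u φ hX h1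
  obtain ⟨h3, h4⟩ := H g hg
  have h5 : MB Y fun x => g (p x) * conj (g (p' x)) :=
    ⟨(hg.1.comp hp.mp.measurable).mul h3.1.1, fun x => by
      rw [norm_mul]
      exact mul_le_one₀ (hg.2 _) (norm_nonneg _) (h3.1.2 x)⟩
  refine h4 [v, v] (by simp [h2]) (eg Y v _ h5 fun D hD => ?_)
  simp only [mul_assoc]
  exact P.perp g hg h0 Y p hY hp _ (hC Y _ D h3 hD)

end NulL

theorem nul : NulR := by
  intro F vb qb eb la lb cl eg a b tw X hX g hg
  have pm : [b - a, b, b].Perm [b, b, b - a] := List.perm_append_comm (l₁ := [b - a]) (l₂ := [b, b])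
  refine ⟨fun h0 => ?_, fun h0 => ⟨?_, ?_⟩⟩
  · exact NulL.perm qb pm (NulL.nul lb eg hX (la _ (cl a b).1 X hX) tw.1
      (fun Y c D hc hD => ⟨D, c, hD, hc, funext fun _ => mul_comm _ _⟩) hg h0)
  · exact NulL.perm qb pm (NulL.nul lb eg hX (la _ (cl a b).2 X hX) tw.1
      (fun Y c D hc hD => ⟨D, c, hD, eb.ivf Y _ c hc, rfl⟩) hg h0)
  · exact NulL.perm qb (List.Perm.swap _ _ _) (NulL.nul lb eg hX (la _ (cl a b).2 X hX) tw.2
      (fun Y c D hc hD => ⟨c, D, eb.ivf Y _ c hc, hD, funext fun _ => mul_comm _ _⟩) hg h0)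

end T8

end
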