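import Pool.Agent.MP_154433_an.t8.Spec
import Pool.Agent.MP_154433_an.p6.S4

/-! The compact step in a direction of the slot itself, tested form. -/

set_option autoImplicit false
set_option linter.unusedVariables false

open MeasureTheory ProbabilityTheory Filter Topology Function
open scoped BigOperators ComplexConjugate

noncomputable section

namespace T8

open Pool.Agent.MP_154433_an hiding BM
open T3S (B1 MB1 PW AsInv Bd)
open T4S (Gm)
open Fib27 (BM)
open T3x (pull)
open T4x (Fac Inv Nice Pair Star KK Fd)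
open T6 (Sy MB d2 Ver VB G0 df)
open T6.Own hiding rest

namespace Own

variable {X : Sy}

/-- a convolution with a function orthogonal to the base is not seen by either weight -/
lemma rest (F : Fd) (V : VB) (W : WB) (hK : KeyS) {ν ν' : ℕ → ℕ → ℝ} (hν : PW ν) {Z : Sy}
    {a b u : Gm 2}
    {A1 A2 : MeasurableSpace X.X} (h1 : Fac X A1) (h2 : Fac X A2) {p : Bool → Z.X → X.X}
    (hp : Pair X A2 Z p) (hg : GP X a b (df ν ν') A1 A2) {H : Z.X → ℂ} {f g k : X.X → ℂ}
    (hH : BM Z.μ (Inv Z {u}) H) (mg : MB X g) (mk : BM X.μ X.ms k) (hs : Star p H g k)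
    (h0 : G0 X a b u ν' g) (mf : MB X f) (bf : BM X.μ A1 f) : VW X a b ν f k := by
  intro h mh
  obtain ⟨K, K0, hk⟩ := hK X Z A2 p a b u H g k h2 hp hH mg mk hs
  choose c hc hc' using fun n n' => V.ver X A2 _ h2 (d2_mb mg u n n')
  refine tendsto_order.2 ⟨fun t ht => Eventually.of_forall fun M =>
    ht.trans_le (W.nonneg _ _ _ _ _ _ _ _), fun t ht => ?_⟩
  have e0 : 0 < t ^ 2 / (3 * (K + 1)) := by positivity
  obtain ⟨N, α, N1, hα, hN⟩ := h0 _ e0
  have ev : ∀ n n' : Fin N, ∀ᶠ M in atTop,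
      NW X a b (ν M) M (d2 X u n n' h) (d2 X u n n' f) (c n n') ≤
      α n n' + 2 * (t ^ 2 / (3 * (K + 1))) := fun n n' => by
    filter_upwards [hN n n' A2 _ _ h2 (d2_mb mf u n n') (hc n n') _ e0,
      (tendsto_order.1 (hg _ _ (d2_mb mf u n n') (hc n n').1
        ((F.t.bm X A1 _ f h1 bf).mul (F.t.bm X A1 _ f h1 bf).conj)
        ((bm (hc n n').1).of_aesm (hc' n n').aestronglyMeasurable) _ (d2_mb mh u n n'))).2 _ e0]
      with M m1 m2
    have := W.tri X a b (ν M) (ν' M) M (d2 X u n n' h) (d2 X u n n' f) (c n n')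
    have := W.le X a b (ν' M) M _ _ _ (d2_mb mh u n n') (d2_mb mf u n n') (hc n n').1
    change NW X a b (fun d => ν M d - ν' M d) M _ _ _ < _ at m2
    linarith
  filter_upwards [eventually_all.2 fun n => eventually_all.2 (ev n), hν.2] with M m1 m2
  have : Nonempty (Fin N) := ⟨⟨0, N1⟩⟩
  have s1 : 𝔼 n : Fin N, 𝔼 n' : Fin N,
      NW X a b (ν M) M (d2 X u n n' h) (d2 X u n n' f) (c n n') ≤
      3 * (t ^ 2 / (3 * (K + 1))) := by
    refine (Finset.expect_le_expect fun n _ => Finset.expect_le_expect fun n' _ => m1 n n').trans ?_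
    simp only [Finset.expect_add_distrib, Finset.expect_const Finset.univ_nonempty]
    linarith
  have s2 := (hk h f N c (ν M) M mh mf N1 hc (hν.1 M) m2).trans (mul_le_mul_of_nonneg_left s1 K0)
  have s3 : K * (3 * (t ^ 2 / (3 * (K + 1)))) < t ^ 2 := by
    rw [show K * (3 * (t ^ 2 / (3 * (K + 1)))) = K * t ^ 2 / (K + 1) by field_simp,
      div_lt_iff₀ (by positivity)]
    nlinarith [sq_pos_of_pos ht]
  exact lt_of_pow_lt_pow_left₀ 2 ht.le (s2.trans_lt s3)

end Own

open Own in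
theorem own : OwnR := by
  intro F V W hK hG ν ν' hν hν' hi X a b u B A1 A2 hX hB h1 hC hBC hu hg f k mf mk bf bk
  obtain ⟨Z, p, hp⟩ : ∃ Z p, Pair X A2 Z p := F.rp Bool (fun _ => X) X A2 (fun _ => id) false
    (fun _ => hX) hC (fun _ => (F.t.emb_id X).mp) fun _ _ _ _ => EventuallyEq.rfl
  have mp : ∀ b, @MeasurePreserving _ _ Z.ms X.ms (p b) Z.μ X.μ := fun b => (hp.emb b).mp
  have hP := F.t.fpull Z X (p false) X.ms (hp.emb false) (F.t.top X)
  have hI : Inv X {u} ≤ A2 := (hu.elim (fun e => e ▸ hB.i1) fun e => e ▸ hB.i2).trans hBC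
  have bd : Bd (df ν ν') := by
    filter_upwards [hν.2, hν'.2] with M m1 m2
    refine (Finset.sum_le_sum fun d _ => (abs_sub _ _).trans_eq
      (by rw [abs_of_nonneg (hν.1 M d), abs_of_nonneg (hν'.1 M d)])).trans ?_
    rw [Finset.sum_add_distrib, m1, m2]
    norm_num
  have key : ∀ (H : Z.X → ℂ) (g k : X.X → ℂ), BM Z.μ (Inv Z {u}) H → BM X.μ X.ms g →
      BM X.μ X.ms k → Star p H g k → VW X a b (df ν ν') f k := by
    intro H g k a1 a2 a3 a4
    have aH := a1.mono (F.t.finv Z {u}).le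
    obtain ⟨c, g0, m0, -, e0⟩ := nrm F le_rfl a2
    obtain ⟨g', v1, v2⟩ := V.ver X A2 g0 hC m0
    obtain ⟨w1, w2⟩ := V.half X A2 g0 g' hC m0 v1
    have hc : BM X.μ A2 fun x => c * g' x := ((bm v1.1).of_aesm v2.aestronglyMeasurable).cmul c
    have hc' := hc.mono hC.le
    obtain ⟨k0, c1, c2⟩ := F.ka.star X A2 Z p hC hp _ _ aH (BM.const 1)
    obtain ⟨k2, d1, d2⟩ := F.ka.star X A2 Z p hC hp _ _ (aH.cmul (2 * c)) (bm w1)
    simp only [T4x.Star, mul_one] at c2
    have hk0 : BM X.μ A2 k0 := by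
      refine (c1.of_aesm ((F.t.inv_iff X {u} k0 c1.1).2 fun h hh => desc (mp false)
        (bm_comp (X.mp h) c1) c1 ?_)).mono hI
      have e1 := F.a.keq_fun X.ms Z.μ X.μ _ _ k0 (mpc (mp false) (Z.mp h))
        (mpc (X.mp h) (mp false)) ((hp.emb false).eqv h) c1.1
      have e2 := F.t.ce Z _ h H hP aH.integrable
      filter_upwards [e1, (Z.mp h).quasiMeasurePreserving.ae c2, e2, c2, condExp_congr_ae
        (m := pull Z.μ (p false) X.ms) ((F.t.inv_iff Z {u} _ aH.1).1 a1.1 h hh)]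
        with z z1 z2 z3 z4 z5
      exact z1.symm.trans (z2.trans (z3.symm.trans (z5.trans z4.symm)))
    have ek : k =ᵐ[X.μ] fun x => c * g' x * k0 x + k2 x := by
      refine desc (mp false) a3 ((hc'.mul c1).add d1) ?_
      have e1 : (fun z => H z * g (p true z)) =ᵐ[Z.μ] (fun z => c * g' (p false z) * H z) +
          fun z => 2 * c * H z * (2⁻¹ * (g0 (p true z) - g' (p true z))) := by
        filter_upwards [F.a.keq_fun A2 Z.μ X.μ _ _ _ (mp true) (mp false) (hp.com true) hc.1,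
          aec (mp true) e0] with z z1 z2
        rw [Pi.add_apply, z2, ← show c * g' (p true z) = c * g' (p false z) from z1]
        ring
      filter_upwards [a4, condExp_congr_ae (m := pull Z.μ (p false) X.ms) e1, condExp_add
        ((bm_comp (mp false) hc').mul aH).integrable
        ((aH.cmul (2 * c)).mul (bm_comp (mp true) (bm w1))).integrable (pull Z.μ (p false) X.ms),
        Fib27.ce_mul hP.le (F.a.bm_comp X.ms Z.μ X.μ _ _ (mp false) hc') aH, c2, d2]
        with z z1 z2 z3 z4 z5 z6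
      rw [z1, z2, z3, Pi.add_apply, z4, z5, z6]
    have n0 := hB.nul _ w1 (tow hBC hC.le w2)
    have h0 := hG ν' hν' hi X a b u _ w1 (by
      rcases hu with e | e <;> rw [e]
      exacts [n0.1, n0.2])
    have r1 := rest F V W hK hν h1 hC hp hg (a1.cmul _) w1 d1 d2 h0 mf bf
    have r2 := rest F V W hK hν' h1 hC hp (ν' := ν') (fun f g _ _ _ _ _ _ => by
      simp [NW, df]) (a1.cmul _) w1 d1 d2 h0 mf bf
    obtain ⟨c1', k1, x1, x2, x3⟩ := nrm F hC.le (hc.mul hk0)
    intro h mh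
    refine squeeze_zero (fun M => W.nonneg _ _ _ _ _ _ _ _) (fun M => ?_)
      (by simpa using ((hg f k1 mf x1 bf x2 h mh).const_mul ‖c1'‖).add ((r1 h mh).add (r2 h mh)))
    rw [W.congr X a b _ M h f f k _ EventuallyEq.rfl ek]
    refine (W.add X a b _ M h f _ _ mh mf (hc'.mul c1).integrable d1.integrable).trans
      (add_le_add ?_ ?_)
    · rw [W.congr X a b _ M h f f _ _ EventuallyEq.rfl x3, W.smul]
    · exact W.sub X a b (ν M) (ν' M) M h f k2
  refine W.span X a b _ f k {φ | BM X.μ X.ms φ ∧ VW X a b (df ν ν') f φ} bd mf (bm mk).integrable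
    (fun φ h => ⟨h.1.integrable, h.2⟩) fun ε hε => ?_
  obtain ⟨n, H, g, k', a1, a2⟩ := F.kb.span X u A2 Z p hX hC hp k bk (ε ^ 2) (by positivity)
  refine ⟨∑ i, k' i, Submodule.sum_mem _ fun i _ => Submodule.subset_span
    ⟨(a1 i).2.2.1, key _ _ _ (a1 i).1 (a1 i).2.1 (a1 i).2.2.1 (a1 i).2.2.2⟩, l1 ((bm mk).sub ?_) hε
      (by simpa only [Finset.sum_apply] using a2)⟩
  exact Finset.sum_induction _ (BM X.μ X.ms) (fun _ _ => BM.add) (BM.const 0) fun i _ => (a1 i).2.2.1

end T8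

end
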