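import Pool.Agent.MP_154433_an.t8.Spec

/-! The smoothed spectral densities are nonnegative and decrease along doubling. -/

set_option autoImplicit false
set_option linter.unusedVariables false
set_option warn.classDefReducibility false

open MeasureTheory ProbabilityTheory Filter Topology Function
open scoped BigOperators ComplexConjugate

noncomputable section

namespace T8

open Pool.Agent.MP_154433_an hiding BM
open T3S (B1 MB1 PW AsInv Erg Bd Near Gr yw nu nb CZ)
open T4S (Gm ddX Spr)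
open Fib27 (BM)
open T3x (nul pull gen)
open T4x (Fac Emb Inv Nice Pair Star KK Fd)
open T6 (Sy MB rr ee NN Vn IvF Ver VB QB Nul QE EL NulInv Cl EE LF LfP LiftA LbS Pj Tw2 d2 G0 G0S
  df AS)

namespace PdL

theorem ee_add (s t : ℝ) : ee (s + t) = ee s * ee t := by
  simp only [ee, ← Complex.exp_add]
  congr 1
  push_cast
  ring

theorem ee_norm (t : ℝ) : ‖ee t‖ = 1 := Complex.norm_exp_ofReal_mul_I _

theorem ee_cont : Continuous ee := by unfold ee; fun_prop

theorem bb_cont (γ : ℤ → ℂ) (N : ℕ) : Continuous (bb γ N) := by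
  have := ee_cont
  unfold bb
  simp only [Fintype.expect_eq_sum_div_card]
  fun_prop

theorem integ {X : Sy} {E : Type} [NormedAddCommGroup E] [MeasurableSpace E] [BorelSpace E]
    [SecondCountableTopology E] {f : X.X → E} (h : Measurable f) (h1 : ∀ x, ‖f x‖ ≤ 1) :
    Integrable f X.μ := Integrable.of_bound h.aestronglyMeasurable 1 (ae_of_all _ h1)

theorem aa (X : Sy) (v w : Gm 2) (x : X.X) : X.A v (X.A w x) = X.A (v + w) x := (X.add v w x).symm

theorem invz (F : Fd) (X : Sy) (u : Gm 2) (n : ℤ) {φ : X.X → ℂ} (h0 : AEStronglyMeasurable φ X.μ)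
    (h : AEStronglyMeasurable[Inv X {u}] φ X.μ) : (fun x => φ (X.A (n • u) x)) =ᵐ[X.μ] φ := by
  have h1 := F.t.inv_iff X (AddSubgroup.closure ({u} : Set T4x.Γ) : Set T4x.Γ) φ h0
  rw [F.t.inv_cl] at h1
  have h2 : n • u ∈ AddSubgroup.closure ({u} : Set (Gm 2)) :=
    AddSubgroup.mem_closure_singleton.2 ⟨n, rfl⟩
  exact h1.1 h (n • u) h2

theorem sh (F : Fd) (X : Sy) (u : Gm 2) (n : ℤ) {f : X.X → ℂ} (hf : Integrable f X.μ) :
    X.μ[fun x => f (X.A (n • u) x) | Inv X {u}] =ᵐ[X.μ] X.μ[f | Inv X {u}] :=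
  (F.t.ce X _ (n • u) f (F.t.finv X {u}) hf).trans (invz F X u n
    integrable_condExp.aestronglyMeasurable stronglyMeasurable_condExp.aestronglyMeasurable)

theorem ce_re {X : Sy} (B : MeasurableSpace X.X) {r : X.X → ℝ} (hr : Integrable r X.μ) :
    X.μ[fun x => (r x : ℂ) | B] =ᵐ[X.μ] fun x => (((X.μ[r | B]) x : ℝ) : ℂ) :=
  (Complex.ofRealCLM.comp_condExp_comm hr).symm

theorem shr (F : Fd) (X : Sy) (u : Gm 2) (n : ℤ) {r : X.X → ℝ} (hr : Integrable r X.μ) :
    X.μ[fun x => r (X.A (n • u) x) | Inv X {u}] =ᵐ[X.μ] X.μ[r | Inv X {u}] := by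
  have h1 := sh F X u n hr.ofReal
  have h2 := ce_re (Inv X {u}) hr
  have h3 := ce_re (Inv X {u}) (((X.mp (n • u)).integrable_comp hr.1).2 hr)
  filter_upwards [h1, h2, h3] with x a1 a2 a3
  exact Complex.ofReal_injective (a3.symm.trans (a1.trans a2))

theorem tw_mb {X : Sy} (u : Gm 2) {ξ : X.X → ℝ} {g : X.X → ℂ} (hg : MB X g) (hξ : Measurable ξ)
    (N : ℕ) : MB X (tw X u ξ g N) := by
  refine ⟨?_, fun x => ?_⟩
  · unfold tw
    simp only [Fintype.expect_eq_sum_div_card]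
    refine (Finset.measurable_sum _ fun n _ => ?_).div_const _
    exact (ee_cont.measurable.comp (hξ.const_mul _).neg).mul (hg.1.comp (X.mp _).measurable)
  · rw [tw, Fintype.expect_eq_sum_div_card, norm_div, Complex.norm_natCast]
    refine div_le_one_of_le₀ ((norm_sum_le _ _).trans ?_) (Nat.cast_nonneg _)
    refine (Finset.sum_le_card_nsmul _ _ 1 fun n _ => ?_).trans (by simp)
    rw [norm_mul, ee_norm, one_mul]
    exact hg.2 _

theorem tw_int {X : Sy} (u : Gm 2) {ξ : X.X → ℝ} {g : X.X → ℂ} (hg : MB X g) (hξ : Measurable ξ)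
    (N : ℕ) : Integrable (fun x => ‖tw X u ξ g N x‖ ^ 2) X.μ :=
  integ ((tw_mb u hg hξ N).1.norm.pow_const 2) fun x => by
    rw [norm_pow, norm_norm]
    exact pow_le_one₀ (norm_nonneg _) ((tw_mb u hg hξ N).2 x)

theorem tw_two (X : Sy) (u : Gm 2) (t : ℝ) (g : X.X → ℂ) (N : ℕ) (x : X.X) :
    tw X u (fun _ => t) g (2 * N) x = (tw X u (fun _ => t) g N x +
      ee (-((N : ℝ) * t)) * tw X u (fun _ => t) g N (X.A ((N : ℤ) • u) x)) / 2 := by
  have e : ∀ (M : ℕ) (y : X.X), tw X u (fun _ => t) g M y =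
      (∑ n ∈ Finset.range M, ee (-((n : ℝ) * t)) * g (X.A ((n : ℤ) • u) y)) / M := fun M y => by
    rw [tw, Fintype.expect_eq_sum_div_card, Fintype.card_fin,
      Fin.sum_univ_eq_sum_range (fun n => ee (-((n : ℝ) * t)) * g (X.A ((n : ℤ) • u) y))]
  have e2 : ∀ n : ℕ, ee (-(((N + n : ℕ) : ℝ) * t)) * g (X.A (((N + n : ℕ) : ℤ) • u) x) =
      ee (-((N : ℝ) * t)) * (ee (-((n : ℝ) * t)) * g (X.A ((n : ℤ) • u) (X.A ((N : ℤ) • u) x))) :=
    fun n => by
      rw [← mul_assoc, ← ee_add, aa, ← add_smul]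
      push_cast
      rw [add_comm (n : ℤ)]
      congr 2
      ring
  rw [e, e, e, two_mul, Finset.sum_range_add]
  simp only [e2, ← Finset.mul_sum]
  push_cast
  rw [← two_mul]
  ring

theorem par (a b c : ℂ) (hc : ‖c‖ = 1) : ‖(a + c * b) / 2‖ ^ 2 ≤ 2⁻¹ * (‖a‖ ^ 2 + ‖b‖ ^ 2) := by
  have h : ‖(a + c * b) / 2‖ ≤ (‖a‖ + ‖b‖) / 2 := by
    rw [norm_div, Complex.norm_two]
    gcongr
    refine (norm_add_le _ _).trans ?_
    rw [norm_mul, hc, one_mul]
  refine (pow_le_pow_left₀ (norm_nonneg _) h 2).trans ?_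
  nlinarith [sq_nonneg (‖a‖ - ‖b‖)]

end PdL

open PdL in
theorem pd : PdR := by
  intro F V hA X u g γ hg hγ
  have hB := F.t.finv X {u}
  have key : ∀ (ξ : X.X → ℝ) (N : ℕ), Measurable[Inv X {u}] ξ →
      (fun x => bb (fun n => γ n x) N (ξ x)) =ᵐ[X.μ]
        X.μ[fun x => ‖tw X u ξ g N x‖ ^ 2 | Inv X {u}] := fun ξ N hξ => by
    filter_upwards [hA X u g γ hg hγ ξ N hξ,
      ce_re (Inv X {u}) (tw_int u hg (hξ.mono hB.le le_rfl) N)] with x a1 a2
    exact Complex.ofReal_injective (a1.trans a2)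
  refine ⟨?_, fun ξ N hξ => (integral_congr_ae (key ξ N hξ)).trans (integral_condExp hB.le)⟩
  have h1 : ∀ n : ℤ, ∀ᵐ x ∂X.μ, γ (-n) x = conj (γ n x) := fun n => by
    have hi : Integrable (ddX X.A (n • u) g) X.μ := integ
      ((hg.1.comp (X.mp _).measurable).mul (Complex.continuous_conj.measurable.comp hg.1))
      fun x => by
        rw [ddX, norm_mul, RCLike.norm_conj]
        exact mul_le_one₀ (hg.2 _) (norm_nonneg _) (hg.2 _)
    have e : ddX X.A (-n • u) g =
        fun x => (Complex.conjCLE.toContinuousLinearMap ∘ ddX X.A (n • u) g) (X.A (-n • u) x) := by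
      funext x
      have : X.A (n • u) (X.A (-n • u) x) = x := by
        rw [aa, ← add_smul, add_neg_cancel, zero_smul]
        exact X.zero x
      change _ = conj (ddX X.A (n • u) g _)
      rw [ddX, ddX, this, map_mul, Complex.conj_conj, mul_comm]
    have a1 := sh F X u (-n) (Complex.conjCLE.toContinuousLinearMap.integrable_comp hi)
    have a2 := Complex.conjCLE.toContinuousLinearMap.comp_condExp_comm (m := Inv X {u}) hi
    have a3 := (hγ (-n)).1.2
    rw [e] at a3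
    filter_upwards [a1, a2, a3, (hγ n).1.2] with x b1 b2 b3 b4
    rw [b3, b4]
    exact b1.trans b2.symm
  have h2 : ∀ (N : ℕ) (q : ℚ), ∀ᵐ x ∂X.μ, 0 ≤ bb (fun n => γ n x) N q ∧
      bb (fun n => γ n x) (2 * N) q ≤ bb (fun n => γ n x) N q := fun N q => by
    have i1 := tw_int u hg (ξ := fun _ => (q : ℝ)) measurable_const N
    have i2 := ((X.mp ((N : ℤ) • u)).integrable_comp i1.1).2 i1
    have a1 := condExp_mono (m := Inv X {u}) (tw_int u hg (ξ := fun _ => (q : ℝ)) measurable_const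
      (2 * N)) ((i1.add i2).smul (2⁻¹ : ℝ)) (ae_of_all _ fun x => by
        beta_reduce
        rw [tw_two]
        exact par _ _ _ (ee_norm _))
    have a2 := condExp_nonneg (m := Inv X {u}) (μ := X.μ)
      (f := fun x => ‖tw X u (fun _ => (q : ℝ)) g N x‖ ^ 2) (ae_of_all _ fun x => sq_nonneg _)
    filter_upwards [a1, a2, key (fun _ => (q : ℝ)) N measurable_const,
      key (fun _ => (q : ℝ)) (2 * N) measurable_const, condExp_smul (μ := X.μ) (2⁻¹ : ℝ)
        ((fun x => ‖tw X u (fun _ => (q : ℝ)) g N x‖ ^ 2) +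
          (fun x => ‖tw X u (fun _ => (q : ℝ)) g N x‖ ^ 2) ∘ X.A ((N : ℤ) • u)) (Inv X {u}),
      condExp_add i1 i2 (Inv X {u}), shr F X u N i1] with x b1 b2 b3 b4 b5 b6 b7
    rw [b5, Pi.smul_apply, b6, Pi.add_apply] at b1
    refine ⟨b3 ▸ b2, ?_⟩
    rw [b3, b4]
    refine b1.trans (le_of_eq ?_)
    erw [b7]
    rw [smul_eq_mul]
    ring
  filter_upwards [ae_all_iff.2 h1, ae_all_iff.2 fun N => ae_all_iff.2 (h2 N)] with x a1 a2
  refine ⟨a1, fun N t _ => ?_⟩
  exact Rat.denseRange_cast.induction_on t ((isClosed_le continuous_const (bb_cont _ N)).inter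
    (isClosed_le (bb_cont _ (2 * N)) (bb_cont _ N))) (a2 N)

end T8

end
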