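import Pool.Agent.MP_154433_an.t8.Spec

/-! The smoothed spectral density at a fixed frequency is a conditional expectation. -/

set_option autoImplicit false
set_option linter.unusedVariables false

open MeasureTheory ProbabilityTheory Filter Topology Function
open scoped BigOperators ComplexConjugate

noncomputable section

namespace T8

open Pool.Agent.MP_154433_an hiding BM
open T3S (B1 MB1)
open T4S (Gm ddX)
open T4x (Fac Inv Fd)
open T6 (Sy MB ee IvF Ver VB)

namespace PdAL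

theorem le (X : Sy) (u : Gm 2) : Inv X {u} ≤ X.ms := fun A hA => hA.1

theorem int (X : Sy) {f : X.X → ℂ} (h : MB X f) : Integrable f X.μ :=
  Integrable.of_bound h.1.aestronglyMeasurable 1 (Eventually.of_forall h.2)

theorem step (X : Sy) (u : Gm 2) {F : X.X → ℂ} (h : MB X F) :
    X.μ[F | Inv X {u}] =ᵐ[X.μ] X.μ[fun x => F (X.A u x) | Inv X {u}] := by
  refine ae_eq_condExp_of_forall_setIntegral_eq (le X u)
    (int X ⟨h.1.comp (X.mp u).measurable, fun x => h.2 _⟩)
    (fun s _ _ => integrable_condExp.integrableOn) (fun s hs _ => ?_)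
    stronglyMeasurable_condExp.aestronglyMeasurable
  rw [setIntegral_condExp (le X u) (int X h) hs]
  exact ((X.mp u).setIntegral_preimage_emb (X.eq u).measurableEmbedding F s).symm.trans
    (setIntegral_congr_set (hs.2 u rfl))

theorem shift (X : Sy) (u : Gm 2) (n : ℕ) {F : X.X → ℂ} (h : MB X F) :
    X.μ[F | Inv X {u}] =ᵐ[X.μ] X.μ[fun x => F (X.A ((n : ℤ) • u) x) | Inv X {u}] := by
  induction n with
  | zero => simp [X.zero]
  | succ n ih =>
    refine ih.trans ((step X u (F := fun x => F (X.A ((n : ℤ) • u) x))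
      ⟨h.1.comp (X.mp _).measurable, fun x => h.2 _⟩).trans (EventuallyEq.of_eq ?_))
    congr 1
    funext x
    rw [Nat.cast_succ, add_smul, one_smul]
    exact congrArg F (X.add _ _ x).symm

theorem ce_expect {Ω ι : Type} [Fintype ι] (m : MeasurableSpace Ω) {m0 : MeasurableSpace Ω}
    (μ : Measure Ω) (f g : ι → Ω → ℂ) (hf : ∀ i, Integrable (f i) μ)
    (h : ∀ i, g i =ᵐ[μ] μ[f i | m]) :
    Integrable (fun x => 𝔼 i, f i x) μ ∧
      (fun x => 𝔼 i, g i x) =ᵐ[μ] μ[fun x => 𝔼 i, f i x | m] := by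
  have e : ∀ k : ι → Ω → ℂ,
      (fun x => 𝔼 i, k i x) = ((Fintype.card ι : ℂ)⁻¹) • ∑ i, k i := fun k => by
    funext x
    rw [Fintype.expect_eq_sum_div_card]
    simp [div_eq_inv_mul]
  rw [e f, e g]
  refine ⟨(integrable_finsetSum' _ fun i _ => hf i).smul _, ?_⟩
  filter_upwards [condExp_smul ((Fintype.card ι : ℂ)⁻¹) (∑ i, f i) m (μ := μ),
    condExp_finsetSum (s := Finset.univ) (fun i _ => hf i) m, ae_all_iff.2 h] with x h1 h2 h3
  rw [h1, Pi.smul_apply, Pi.smul_apply, h2, Finset.sum_apply, Finset.sum_apply]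
  exact congrArg _ (Finset.sum_congr rfl fun i _ => h3 i)

theorem norm_ee (t : ℝ) : ‖ee t‖ = 1 := Complex.norm_exp_ofReal_mul_I _

theorem ee_mul (a b t : ℝ) : ee (-(b * t)) * conj (ee (-(a * t))) = ee (-((b - a) * t)) := by
  unfold ee
  rw [← Complex.exp_conj, ← Complex.exp_add, map_mul, Complex.conj_ofReal, Complex.conj_I]
  congr 1
  push_cast
  ring

theorem meas_ee : Measurable ee := by
  unfold ee
  fun_prop

end PdAL

open PdAL in
theorem pdA : PdAR := by
  intro _ _ X u g γ hg hγ ξ N hξ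
  set D : Fin N → Fin N → X.X → ℂ := fun n n' =>
    ddX X.A ((((n' : ℕ) : ℤ) - ((n : ℕ) : ℤ)) • u) g with hD
  set e : Fin N → Fin N → X.X → ℂ := fun n n' x =>
    ee (-((((n' : ℕ) : ℝ) - ((n : ℕ) : ℝ)) * ξ x)) with he
  have hDm : ∀ n n', MB X (D n n') := fun n n' =>
    ⟨(hg.1.comp (X.mp _).measurable).mul (Complex.continuous_conj.measurable.comp hg.1),
      fun x => by
        simp only [hD, ddX, norm_mul, Complex.norm_conj]
        exact mul_le_one₀ (hg.2 _) (norm_nonneg _) (hg.2 _)⟩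
  have hem : ∀ n n', Measurable[Inv X {u}] (e n n') := fun n n' =>
    meas_ee.comp (hξ.const_mul _).neg
  have hT : ∀ n n' : Fin N, MB X fun x => D n n' (X.A (((n : ℕ) : ℤ) • u) x) := fun n n' =>
    ⟨(hDm n n').1.comp (X.mp _).measurable, fun x => (hDm n n').2 _⟩
  have hI : ∀ n n' : Fin N,
      Integrable (fun x => D n n' (X.A (((n : ℕ) : ℤ) • u) x) * e n n' x) X.μ := fun n n' =>
    int X ⟨(hT n n').1.mul ((hem n n').mono (le X u) le_rfl), fun x => by
      rw [norm_mul, he, norm_ee, mul_one]; exact (hT n n').2 x⟩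
  have h1 : ∀ n n' : Fin N, (fun x => γ (((n' : ℕ) : ℤ) - ((n : ℕ) : ℤ)) x * e n n' x) =ᵐ[X.μ]
      X.μ[fun x => D n n' (X.A (((n : ℕ) : ℤ) • u) x) * e n n' x | Inv X {u}] := fun n n' => by
    filter_upwards [condExp_bilin_of_aestronglyMeasurable_right (ContinuousLinearMap.mul ℝ ℂ)
      (hem n n').aestronglyMeasurable (hI n n') (int X (hT n n')), shift X u n (hDm n n'),
      (hγ (((n' : ℕ) : ℤ) - ((n : ℕ) : ℤ))).1.2] with x a1 a2 a3
    refine Eq.trans ?_ a1.symm
    rw [a3, ContinuousLinearMap.mul_apply', ← a2]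
  have h2 := fun n : Fin N => ce_expect (Inv X {u}) X.μ _ _ (hI n) (h1 n)
  have h3 := ce_expect (Inv X {u}) X.μ _ _ (fun n => (h2 n).1) fun n => (h2 n).2
  have h4 : (fun x => ((‖tw X u ξ g N x‖ ^ 2 : ℝ) : ℂ)) = fun x => 𝔼 n : Fin N, 𝔼 n' : Fin N,
      D n n' (X.A (((n : ℕ) : ℤ) • u) x) * e n n' x := by
    funext x
    rw [Complex.ofReal_pow, ← Complex.conj_mul', tw, map_expect, Finset.expect_mul_expect]
    refine Finset.expect_congr rfl fun n _ => Finset.expect_congr rfl fun n' _ => ?_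
    simp only [hD, he, ddX, map_mul]
    have e1 : X.A ((((n' : ℕ) : ℤ) - ((n : ℕ) : ℤ)) • u) (X.A (((n : ℕ) : ℤ) • u) x) =
        X.A (((n' : ℕ) : ℤ) • u) x :=
      (X.add _ _ x).symm.trans (by rw [← add_smul, sub_add_cancel])
    rw [← ee_mul, e1]
    ring
  have h5 : Integrable (fun x => ‖tw X u ξ g N x‖ ^ 2) X.μ := by
    have := h3.1
    rw [← h4] at this
    simpa [← Complex.ofReal_pow] using this.re
  have h6 := Complex.ofRealCLM.comp_condExp_comm (m := Inv X {u}) h5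
  have h7 := h3.2
  rw [← h4] at h7
  filter_upwards [h6, h7] with x a1 a2
  have a3 : (X.μ[fun x => ((‖tw X u ξ g N x‖ ^ 2 : ℝ) : ℂ) | Inv X {u}]) x =
      (((X.μ[fun x => ‖tw X u ξ g N x‖ ^ 2 | Inv X {u}]) x : ℝ) : ℂ) := a1.symm
  rw [a3] at a2 ⊢
  congr 1
  exact (congrArg Complex.re a2).trans (Complex.ofReal_re _)

end T8

end
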