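import Pool.Agent.MP_154433_an.t8.Spec

/-! Measurable choice of a common near maximum. -/

set_option autoImplicit false

open MeasureTheory Filter Topology Function Set

noncomputable section

namespace T8

namespace SelL

def c (r u : ℝ) : ℝ := max 0 (min r u)

def M (f : ℝ → ℝ) (r : ℝ) : ℝ := ⨆ q : ℚ, f (c r q)

theorem c_mem {r : ℝ} (hr : 0 ≤ r) (u : ℝ) : c r u ∈ Icc 0 r :=
  ⟨le_max_left _ _, max_le hr (min_le_left _ _)⟩

theorem c_eq {r u : ℝ} (h : u ∈ Icc 0 r) : c r u = u := by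
  rw [c, min_eq_right h.2, max_eq_right h.1]

theorem le_M {f : ℝ → ℝ} (hf : Continuous f) (hb : ∀ t, |f t| ≤ 1) {r t : ℝ}
    (h : t ∈ Icc 0 r) : f t ≤ M f r := by
  have hc : Continuous fun u => f (c r u) := hf.comp (by unfold c; fun_prop)
  have : f (c r t) ≤ M f r :=
    (Rat.denseRange_cast (𝕜 := ℝ)).induction_on (p := fun u => f (c r u) ≤ M f r) t
      (isClosed_le hc continuous_const) fun q =>
        le_ciSup (f := fun q : ℚ => f (c r q))
          ⟨1, by rintro _ ⟨q, rfl⟩; exact (abs_le.1 (hb _)).2⟩ q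
  rwa [c_eq h] at this

theorem ex_M {f : ℝ → ℝ} (hf : Continuous f) {r : ℝ} (hr : 0 ≤ r) :
    ∃ t ∈ Icc 0 r, M f r ≤ f t := by
  obtain ⟨t, ht, h⟩ := isCompact_Icc.exists_isMaxOn (nonempty_Icc.2 hr) hf.continuousOn
  exact ⟨t, ht, ciSup_le fun q => h (c_mem hr _)⟩

theorem abs_M {f : ℝ → ℝ} (hf : Continuous f) (hb : ∀ t, |f t| ≤ 1) : |M f 1| ≤ 1 := by
  obtain ⟨t, -, h⟩ := ex_M hf zero_le_one
  exact abs_le.2 ⟨(abs_le.1 (hb 0)).1.trans (le_M hf hb ⟨le_rfl, zero_le_one⟩),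
    h.trans (abs_le.1 (hb t)).2⟩

theorem ex_all {b : ℕ → ℝ → ℝ} (hf : ∀ k, Continuous (b k)) (hm : ∀ k t, b (k + 1) t ≤ b k t)
    {r a : ℝ} (hr : 0 ≤ r) (h : ∀ k, a ≤ M (b k) r) : ∃ t ∈ Icc 0 r, ∀ k, a ≤ b k t := by
  have hcl : ∀ k, IsClosed (Icc 0 r ∩ {t | a ≤ b k t}) := fun k =>
    isClosed_Icc.inter (isClosed_le continuous_const (hf k))
  obtain ⟨t, ht⟩ := IsCompact.nonempty_iInter_of_sequence_nonempty_isCompact_isClosed
    (fun k => Icc 0 r ∩ {t | a ≤ b k t})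
    (fun k t ht => ⟨ht.1, le_trans ht.2 (hm k t)⟩)
    (fun k => by
      obtain ⟨t, ht, h'⟩ := ex_M (hf k) hr
      exact ⟨t, ht, (h k).trans h'⟩)
    (isCompact_Icc.of_isClosed_subset (hcl 0) inter_subset_left) hcl
  rw [mem_iInter] at ht
  exact ⟨t, (ht 0).1, fun k => (ht k).2⟩

open Classical in
def xi (b : ℕ → ℝ → ℝ) (a : ℝ) : ℝ := ⨅ q : ℚ, if ∀ k, a ≤ M (b k) (c 1 q) then c 1 q else 1

theorem xi_good {b : ℕ → ℝ → ℝ} (hf : ∀ k, Continuous (b k)) (hb : ∀ k t, |b k t| ≤ 1)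
    (hm : ∀ k t, b (k + 1) t ≤ b k t) {a : ℝ} (h : ∀ k, a ≤ M (b k) 1) (k : ℕ) :
    a ≤ b k (xi b a) := by
  classical
  have hcl : IsClosed (Icc (0 : ℝ) 1 ∩ ⋂ k, {t | a ≤ b k t}) :=
    isClosed_Icc.inter (isClosed_iInter fun k => isClosed_le continuous_const (hf k))
  obtain ⟨t1, h1, h1'⟩ := ex_all hf hm zero_le_one h
  obtain ⟨t, ⟨ht, ht'⟩, hl⟩ := (isCompact_Icc.of_isClosed_subset hcl
    inter_subset_left).exists_isLeast ⟨t1, h1, mem_iInter.2 h1'⟩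
  have ht2 : ∀ k, a ≤ b k t := mem_iInter.1 ht'
  have hlow : ∀ q : ℚ, t ≤ if ∀ k, a ≤ M (b k) (c 1 q) then c 1 q else 1 := fun q => by
    split_ifs with hq
    · have hq1 := c_mem zero_le_one (q : ℝ)
      obtain ⟨u, hu, hu'⟩ := ex_all hf hm hq1.1 hq
      exact (hl ⟨⟨hu.1, hu.2.trans hq1.2⟩, mem_iInter.2 hu'⟩).trans hu.2
    · exact ht.2
  have hle : ∀ q : ℚ, xi b a ≤ if ∀ k, a ≤ M (b k) (c 1 q) then c 1 q else 1 := fun q =>
    ciInf_le ⟨t, by rintro _ ⟨q, rfl⟩; exact hlow q⟩ q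
  have hone : xi b a ≤ 1 := (hle 0).trans (by
    split_ifs
    · exact (c_mem zero_le_one _).2
    · exact le_rfl)
  have : xi b a = t := by
    refine le_antisymm (not_lt.1 fun hlt => ?_) (le_ciInf hlow)
    obtain ⟨q, hq, hq'⟩ := exists_rat_btwn hlt
    have hc : c 1 q = q := c_eq ⟨ht.1.trans hq.le, hq'.le.trans hone⟩
    have := hle q
    rw [hc, if_pos fun k => (ht2 k).trans (le_M (hf k) (hb k) ⟨ht.1, hq.le⟩)] at this
    exact absurd hq' (not_lt.2 this)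
  rw [this]
  exact ht2 k

end SelL

open SelL in
theorem sel : SelR := by
  classical
  intro Ω m b hme hc hb
  have hM : ∀ k r, Measurable fun x => M (b k x) r := fun k r =>
    Measurable.iSup fun q => hme k _
  have h0 : Measurable fun x => ⨅ k, M (b k x) 1 := Measurable.iInf fun k => hM k 1
  have hbd : ∀ x, BddBelow (range fun k => M (b k x) 1) := fun x =>
    ⟨-1, by rintro _ ⟨k, rfl⟩; exact (abs_le.1 (abs_M (hc k x) (hb k x))).1⟩
  refine ⟨fun x => xi (fun k => b k x) (⨅ k, M (b k x) 1), fun k x => M (b k x) 1,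
    fun x => ⨅ k, M (b k x) 1, Measurable.iInf fun q => Measurable.ite ?_ measurable_const
      measurable_const, fun k => hM k 1, h0, fun k x => abs_M (hc k x) (hb k x), fun x => ?_,
    fun k x t ht => le_M (hc k x) (hb k x) ht, fun x hm => ⟨?_, fun k => ?_⟩⟩
  · rw [ofPred_forall]
    exact MeasurableSet.iInter fun k => measurableSet_le h0 (hM k _)
  · exact abs_le.2 ⟨le_ciInf fun k => (abs_le.1 (abs_M (hc k x) (hb k x))).1,
      (ciInf_le (hbd x) 0).trans (abs_le.1 (abs_M (hc 0 x) (hb 0 x))).2⟩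
  · refine tendsto_atTop_ciInf (antitone_nat_of_succ_le fun k => ?_) (hbd x)
    obtain ⟨t, ht, h⟩ := ex_M (hc (k + 1) x) zero_le_one
    exact h.trans ((hm k t).trans (le_M (hc k x) (hb k x) ht))
  · exact xi_good (fun k => hc k x) (fun k => hb k x) hm (fun k => ciInf_le (hbd x) k) k

end T8
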