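import Pool.Agent.MP_154433_an.t8.Spec

/-! The base: an eigenfunction of the step of the slot times an invariant function. -/

set_option autoImplicit false
set_option linter.unusedVariables false
set_option maxHeartbeats 400000

open MeasureTheory ProbabilityTheory Filter Topology Function
open scoped BigOperators ComplexConjugate

noncomputable section

namespace T8

open Pool.Agent.MP_154433_an hiding BM
open T3S (MB1)
open T4S (Gm)
open T6 (Sy MB ee NN IvF)

namespace StBL

lemma mul {X : Sy} {f g : X.X → ℂ} (hf : MB X f) (hg : MB X g) : MB X fun x => f x * g x :=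
  ⟨hf.1.mul hg.1, fun x => by
    rw [norm_mul]
    exact mul_le_one₀ (hf.2 x) (norm_nonneg _) (hg.2 x)⟩

lemma nn_le (hE : EB) (X : Sy) (a b : Gm 2) (κ : ℕ → ℝ) (M : ℕ) {g ψ : X.X → ℂ} {ξ : X.X → ℝ}
    (hg : MB X g) (hψ : Eg X b ξ ψ) : NN X a b κ M g ψ ≤ ∫ x, ‖∑ d ∈ Finset.range M,
      (κ d : ℂ) * (g (X.A ((d : ℤ) • a) x) * ee ((d : ℝ) * ξ x))‖ ∂X.μ := by
  refine integral_mono_of_nonneg (Eventually.of_forall fun _ => norm_nonneg _)
    (integrable_finsetSum _ fun d _ => Integrable.const_mul ?_ _).norm ?_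
  · have h1 : Measurable fun x => ee ((d : ℝ) * ξ x) := by
      have := hψ.2.1
      unfold ee
      fun_prop
    refine Integrable.of_bound ((hg.1.comp (X.mp _).measurable).mul h1).aestronglyMeasurable 1
      (Eventually.of_forall fun x => ?_)
    rw [norm_mul, ee, Complex.norm_exp_ofReal_mul_I, mul_one]
    exact hg.2 _
  · filter_upwards [hE.pow X b ξ ψ hψ] with x hx
    simp only [fun d => (hx d).2, ← mul_assoc]
    rw [← Finset.sum_mul, norm_mul]
    exact mul_le_of_le_one_right (norm_nonneg _) (hψ.1.2 x)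

end StBL

open StBL in
theorem stB : StBR := by
  rintro - hV hW hE w hw X a b _ ⟨ψ, c, ⟨ξ, hψ⟩, hc, rfl⟩ f hf h hh
  refine squeeze_zero (fun M => hW.nonneg X a b (w M) M h f _) (fun M => ?_)
    (hw X a (fun x => f x * c x) ξ (mul hf hc.1) hψ.2.1)
  refine (hW.le X a b (w M) M h f _ hh hf (mul hψ.1 hc.1)).trans ?_
  have e : (fun x => ψ x * c x) = fun x => c x * ψ x := funext fun x => mul_comm _ _
  rw [e, hV.move X a b (w M) M f ψ c hc]
  exact nn_le hE X a b (w M) M (mul hf hc.1) hψ

end T8

end
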