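import Pool.Agent.MP_154433_an.t8.Spec

/-! Row StS: an eigenfunction of the difference of the two steps. -/

set_option autoImplicit false
set_option linter.unusedVariables false

open MeasureTheory ProbabilityTheory Filter Topology Function
open scoped BigOperators ComplexConjugate

noncomputable section

namespace T8

open Pool.Agent.MP_154433_an hiding BM
open T3S (B1 MB1)
open T4S (Gm)
open T6 (Sy MB ee)

namespace StSL

lemma norm_ee (t : ℝ) : ‖ee t‖ = 1 := Complex.norm_exp_ofReal_mul_I _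

lemma meas_ee : Measurable ee := by unfold ee; fun_prop

lemma shift (X : Sy) (a b : Gm 2) (ξ : X.X → ℝ) (h f χ : X.X → ℂ) (d : ℕ)
    (hp : ∀ᵐ x ∂X.μ, χ (X.A ((d : ℤ) • (b - a)) x) = ee ((d : ℝ) * ξ x) * χ x) :
    ∫ x, h x * (f (X.A ((d : ℤ) • a) x) * χ (X.A ((d : ℤ) • b) x)) ∂X.μ =
      ∫ y, f y * χ y * (h (X.A ((d : ℤ) • (-a)) y) * ee ((d : ℝ) * ξ y)) ∂X.μ := by
  have h1 := MeasurePreserving.integral_comp' (f := X.eq ((d : ℤ) • a)) (X.mp _)
    fun y => h (X.A ((d : ℤ) • (-a)) y) * (f y * χ (X.A ((d : ℤ) • (b - a)) y))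
  refine Eq.trans (integral_congr_ae (Eventually.of_forall fun x => ?_))
    (h1.trans (integral_congr_ae (hp.mono fun y hy => ?_)))
  · change _ = h (X.Tz _ (X.Tz _ x)) * (f (X.Tz _ x) * χ (X.Tz _ (X.Tz _ x)))
    rw [← X.add, ← X.add, ← smul_add, ← smul_add, neg_add_cancel, sub_add_cancel, smul_zero,
      X.zero]
  · beta_reduce
    rw [hy]; ring

end StSL

open StSL

theorem stS : StSR := by
  rintro - - - eb w hU X a b χ ⟨ξ, hE⟩ f hf h hh
  have hp := eb.pow X (b - a) ξ χ hE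
  refine squeeze_zero (fun M => norm_nonneg _) (fun M => ?_) (hU X (-a) h ξ hh hE.2.1)
  have mT : ∀ d : ℕ, Measurable fun y => h (X.A ((d : ℤ) • (-a)) y) * ee ((d : ℝ) * ξ y) :=
    fun d => (hh.1.comp (X.mp _).measurable).mul (meas_ee.comp (hE.2.1.const_mul _))
  have nT : ∀ (d : ℕ) y, ‖h (X.A ((d : ℤ) • (-a)) y) * ee ((d : ℝ) * ξ y)‖ ≤ 1 := fun d y => by
    rw [norm_mul, norm_ee, mul_one]; exact hh.2 _
  have nF : ∀ y, ‖f y * χ y‖ ≤ 1 := fun y => by
    rw [norm_mul]; exact mul_le_one₀ (hf.2 y) (norm_nonneg _) (hE.1.2 y)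
  have i1 : ∀ d : ℕ, Integrable
      (fun y => f y * χ y * (h (X.A ((d : ℤ) • (-a)) y) * ee ((d : ℝ) * ξ y))) X.μ := fun d =>
    Integrable.of_bound ((hf.1.mul hE.1.1).mul (mT d)).aestronglyMeasurable 1
      (Eventually.of_forall fun y => by
        rw [norm_mul]; exact mul_le_one₀ (nF y) (norm_nonneg _) (nT d y))
  have i2 : ∀ d : ℕ, Integrable
      (fun y => h (X.A ((d : ℤ) • (-a)) y) * ee ((d : ℝ) * ξ y)) X.μ := fun d =>
    Integrable.of_bound (mT d).aestronglyMeasurable 1 (Eventually.of_forall (nT d))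
  unfold NW
  rw [Finset.sum_congr rfl fun d _ => by
    rw [shift X a b ξ h f χ d (hp.mono fun x hx => (hx d).2), ← integral_const_mul],
    ← integral_finsetSum _ fun d _ => (i1 d).const_mul _]
  refine norm_integral_le_of_norm_le (integrable_finsetSum _ fun d _ => (i2 d).const_mul _).norm
    (Eventually.of_forall fun y => ?_)
  rw [Finset.sum_congr rfl fun d _ => mul_left_comm _ _ _, ← Finset.mul_sum, norm_mul]
  exact mul_le_of_le_one_left (norm_nonneg _) (nF y)

end T8

end
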