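import Pool.Agent.MP_154433_an.t8.Spec
import Pool.Agent.MP_154433_an.p6.S4
import Pool.Agent.MP_154433_an.p4.Top

/-! From a closed good factor to all functions, tested form. -/

set_option autoImplicit false
set_option linter.unusedVariables false
set_option warn.classDefReducibility false

open MeasureTheory ProbabilityTheory Filter Topology Function
open scoped BigOperators ComplexConjugate

noncomputable section

namespace T8

open Pool.Agent.MP_154433_an hiding BM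
open T3S (B1 MB1 PW AsInv Erg Bd Near Gr yw nu nb CZ)
open T4S (Gm ddX Spr wavg)
open Fib27 (BM)
open T4x (Fac Emb Inv Nice Pair Star KK Fd)
open T6 (Sy MB rr ee NN Vn IvF Ver VB df act)
open T3S.Bridge (toWt av_eq erg_to)

namespace TopL

theorem bm {X : Sy} {f : X.X → ℂ} (h : MB X f) : BM X.μ X.ms f :=
  ⟨h.1.aestronglyMeasurable, 1, Eventually.of_forall h.2⟩

theorem mb_one (X : Sy) : MB X fun _ => 1 := ⟨measurable_const, fun _ => by simp⟩

theorem mb_mul {X : Sy} {f g : X.X → ℂ} (hf : MB X f) (hg : MB X g) :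
    MB X fun x => f x * g x :=
  ⟨hf.1.mul hg.1, fun x => by
    rw [norm_mul]
    exact mul_le_one₀ (hf.2 x) (norm_nonneg _) (hg.2 x)⟩

theorem van (F : Fd) (ind : T4x.IndS) {ν : ℕ → ℕ → ℝ} (h : PW ν) (e : Erg ν) (s : Spr ν) (X : Sy)
    (C : MeasurableSpace X.X) (hn : Nice X) (hC : T4x.KC X C) (f : Fin 2 → X.X → ℂ)
    (hf : ∀ i, MB X (f i)) (i0 : Fin 2) (hz : X.μ[f i0 | C] =ᵐ[X.μ] 0) :
    Vn X (rr 0) (rr 1) ν (f 0) (f 1) := by
  have k := T4x.Top.van F ind (toWt ν h) X rr C (erg_to h e) (T4S.Bridge.spr_to h s)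
    ⟨fun i => Or.inl ⟨i, rfl⟩, fun i j hij => Or.inr ⟨i, j, hij, rfl⟩⟩ hn hC f
    (fun i => bm (hf i)) i0 hz
  clear hz hC
  clear C
  have k2 := (T6.Top.l12 X.μ (wavg X.A ν rr f) ((act X).wavg_meas _ _ fun i => (hf i).1) (by
    filter_upwards [h.2] with M e x
    refine (T4S.wavg_norm_le X.A _ rr (fun i => (hf i).2) M x).trans ?_
    simp only [abs_of_nonneg (h.1 _ _), e]
    norm_num)).2 (k.congr' (by
      filter_upwards [h.2] with M e
      refine integral_congr_ae (Eventually.of_forall fun x => ?_)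
      beta_reduce
      rw [T4x.avg, av_eq h e]
      exact congrArg (fun z => ‖z‖ ^ 2) (Finset.sum_congr rfl fun d _ => Complex.real_smul)))
  simpa only [Vn, NN, wavg, Fin.prod_univ_two] using k2

theorem swap (wb : WB) {X : Sy} {a b : Gm 2} {w : ℕ → ℕ → ℝ} {f g : X.X → ℂ}
    (h : VW X a b w f g) : VW X b a w g f := fun k hk =>
  (h k hk).congr fun M => wb.swap X a b _ M k f g

theorem of_vn (wb : WB) {X : Sy} {a b : Gm 2} {ν ν' : ℕ → ℕ → ℝ} {f g : X.X → ℂ} (hf : MB X f)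
    (hg : MB X g) (h : Vn X a b ν f g) (h' : Vn X a b ν' f g) : VW X a b (df ν ν') f g := by
  intro k hk
  have l := h.add h'
  rw [add_zero] at l
  exact squeeze_zero (fun M => wb.nonneg _ _ _ _ _ _ _ _) (fun M =>
    (wb.sub X a b (ν M) (ν' M) M k f g).trans
      (add_le_add (wb.le X a b _ M k f g hk hf hg) (wb.le X a b _ M k f g hk hf hg))) l

open Classical in
theorem lift {X X' : Sy} {e : X.X → X'.X}
    (hl : ∀ f ∈ T3x.Bdd X.X, ∃ f' ∈ T3x.Bdd X'.X, ∀ x, f' (e x) = f x) {f : X.X → ℂ}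
    (hf : MB X f) : ∃ f', MB X' f' ∧ f = fun x => f' (e x) := by
  obtain ⟨f', ⟨m, -⟩, h⟩ := hl f ⟨hf.1, 1, hf.2⟩
  refine ⟨fun y => if ‖f' y‖ ≤ 1 then f' y else 0,
    ⟨Measurable.ite (measurableSet_le m.norm measurable_const) m measurable_const, fun y => ?_⟩,
    funext fun x => ?_⟩
  · beta_reduce
    split_ifs with k
    exacts [k, by simp]
  · beta_reduce
    rw [h, if_pos (hf.2 x)]

theorem down (F : Fd) {X X' : Sy} {e : X.X → X'.X} (he : Emb X X' e) (a b : Gm 2) (κ : ℕ → ℝ)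
    (M : ℕ) {h f g : X'.X → ℂ} (hh : MB X' h) (hf : MB X' f) (hg : MB X' g) :
    NW X a b κ M (fun x => h (e x)) (fun x => f (e x)) (fun x => g (e x)) =
      NW X' a b κ M h f g := by
  refine congrArg _ (Finset.sum_congr rfl fun d _ => congrArg _ ?_)
  have q : ∀ (v : Gm 2) {k : X'.X → ℂ}, MB X' k →
      (fun x => k (e (X.A v x))) =ᵐ[X.μ] fun x => k (X'.A v (e x)) := fun v k hk =>
    F.a.keq_fun X'.ms X.μ X'.μ _ _ k (he.mp.comp (X.mp v)) ((X'.mp v).comp he.mp) (he.eqv v)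
      hk.1.aestronglyMeasurable
  have m : Measurable fun y => h y * (f (X'.A ((d : ℤ) • a) y) * g (X'.A ((d : ℤ) • b) y)) :=
    hh.1.mul ((hf.1.comp (X'.mp _).measurable).mul (hg.1.comp (X'.mp _).measurable))
  rw [← he.mp.map_eq, integral_map he.mp.measurable.aemeasurable m.aestronglyMeasurable]
  refine integral_congr_ae ?_
  filter_upwards [q ((d : ℤ) • a) hf, q ((d : ℤ) • b) hg] with x h1 h2
  rw [h1, h2]

end TopL

open TopL in
theorem top : TopR := by
  intro F ind vb wb ν ν' h1 h2 e1 e2 s1 s2 hC X f0 g0 hf0 hg0 k0 hk0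
  obtain ⟨Y, e, hY, he, hl⟩ := F.nice0 X
  obtain ⟨f, hf, rfl⟩ := lift hl hf0
  obtain ⟨g, hg, rfl⟩ := lift hl hg0
  obtain ⟨k, hk, rfl⟩ := lift hl hk0
  simp only [fun κ M => down F he (rr 0) (rr 1) κ M hk hf hg]
  obtain ⟨C, c1, c2⟩ := hC Y hY
  have z : ∀ u v, MB Y u → MB Y v → (Y.μ[u | C] =ᵐ[Y.μ] 0 ∨ Y.μ[v | C] =ᵐ[Y.μ] 0) →
      VW Y (rr 0) (rr 1) (df ν ν') u v := fun u v hu hv hz => by
    have hm : ∀ i : Fin 2, MB Y (![u, v] i) := Fin.forall_fin_two.2 ⟨hu, hv⟩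
    obtain ⟨i, hi⟩ : ∃ i : Fin 2, Y.μ[![u, v] i | C] =ᵐ[Y.μ] 0 := by
      rcases hz with h | h
      · exact ⟨0, by simpa only [Matrix.cons_val_zero] using h⟩
      · exact ⟨1, by simpa only [Matrix.cons_val_one, Matrix.cons_val_zero] using h⟩
    have w1 := van F ind h1 e1 s1 Y C hY c1 ![u, v] hm i hi
    have w2 := van F ind h2 e2 s2 Y C hY c1 ![u, v] hm i hi
    simp only [Matrix.cons_val_one, Matrix.cons_val_zero] at w1 w2
    exact of_vn wb hu hv w1 w2
  obtain ⟨f', v1, m1⟩ := vb.ver Y C f c1.1 hf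
  obtain ⟨g', v2, m2⟩ := vb.ver Y C g c1.1 hg
  obtain ⟨a1, a2⟩ := vb.half Y C f f' c1.1 hf v1
  obtain ⟨b1, b2⟩ := vb.half Y C g g' c1.1 hg v2
  have t1 := wb.split Y (rr 1) (rr 0) (df ν ν') g' f f' _ v2.1 hf v1.1 (mb_one Y)
    (by
      simp only [mul_one]
      exact swap wb (c2 f' g' v1.1 v2.1 ⟨m1.aestronglyMeasurable, 1, Eventually.of_forall v1.1.2⟩
        ⟨m2.aestronglyMeasurable, 1, Eventually.of_forall v2.1.2⟩))
    (by
      simp only [mul_one]
      exact swap wb (z _ _ a1 v2.1 (Or.inl a2)))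
  have t2 := wb.split Y (rr 0) (rr 1) (df ν ν') f g g' _ hf hg v2.1 (mb_one Y)
    (by simpa only [mul_one] using swap wb t1)
    (by simpa only [mul_one] using z _ _ hf b1 (Or.inr b2))
  simpa only [mul_one] using t2 k hk

end T8

end
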