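import Pool.Agent.MP_154433_an.t8.Spec
import Pool.Agent.MP_154433_an.t3s.Asm

/-! Row TsAe: almost surely the centred weights do not see twisted structured sequences. -/

set_option autoImplicit false

open MeasureTheory ProbabilityTheory Filter Topology Function Finset
open scoped BigOperators

noncomputable section

namespace T8

open Pool.Agent.MP_154433_an hiding BM

namespace TsAeL

lemma step (a : ℕ → ℝ) (N : ℕ) (U c : ℕ → ℕ → ℂ) (ε : ℝ) (hε : 0 ≤ ε)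
    (h1 : ∀ n < N, ‖∑ d ∈ range N, (a d : ℂ) * c n d‖ ≤ ε)
    (h2 : ∀ d < N, ∑ n ∈ range N, ‖U n d - c n d‖ ≤ ε * N)
    (h3 : ∑ d ∈ range N, |a d| ≤ 3) :
    ∑ n ∈ range N, ‖∑ d ∈ range N, (a d : ℂ) * U n d‖ ≤ 4 * ε * N := by
  have h4 : ∀ n ∈ range N, ‖∑ d ∈ range N, (a d : ℂ) * U n d‖ ≤
      ε + ∑ d ∈ range N, |a d| * ‖U n d - c n d‖ := fun n hn => by
    have e : ∑ d ∈ range N, (a d : ℂ) * U n d =
        ∑ d ∈ range N, (a d : ℂ) * c n d + ∑ d ∈ range N, (a d : ℂ) * (U n d - c n d) := by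
      rw [← sum_add_distrib]
      exact sum_congr rfl fun d _ => by ring
    rw [e]
    refine (norm_add_le _ _).trans (add_le_add (h1 n (mem_range.1 hn)) ?_)
    refine (norm_sum_le _ _).trans (sum_le_sum fun d _ => ?_)
    rw [norm_mul, Complex.norm_real, Real.norm_eq_abs]
  refine (sum_le_sum h4).trans ?_
  rw [sum_add_distrib, sum_const, card_range, nsmul_eq_mul, sum_comm]
  have h5 : ∑ d ∈ range N, ∑ n ∈ range N, |a d| * ‖U n d - c n d‖ ≤
      ∑ d ∈ range N, |a d| * (ε * N) := sum_le_sum fun d hd => by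
    rw [← mul_sum]
    exact mul_le_mul_of_nonneg_left (h2 d (mem_range.1 hd)) (abs_nonneg _)
  rw [← sum_mul] at h5
  have h6 := mul_le_mul_of_nonneg_right h3 (mul_nonneg hε (Nat.cast_nonneg (α := ℝ) N))
  linarith

end TsAeL

theorem tsAe : TsAeR := by
  intro h1 h2 h3 h4 σ hσ hg Ω _ P _ E hE hind hP
  have h0 : ∀ n, 0 ≤ σ n := fun n => (hσ n).1
  have hm : ∀ᵐ ω ∂P, T3S.Bd (T3S.yw σ fun m => ω ∈ E m) := by
    filter_upwards [h3 σ hσ Ω P E hE hind hP hg] with ω hω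
    exact (h4.1 σ _ h0 (T3S.Asm.wt_tendsto h0 hg) hω.1).2.2.1
  have hs : ∀ᵐ ω ∂P, ∀ (J : ℕ) (b : Fin J → Fin 3 → ℤ) (j : ℕ), (∀ t i, b t i ≠ 0) →
      ∀ᶠ N : ℕ in atTop, ∀ (u : Fin J → ℤ → ℂ) (θ : ℕ → ℝ), (∀ t, u t ∈ T3S.CZ (b t) (N ^ 2)) →
        ∑ n ∈ range N, ‖∑ d ∈ range N, (T3S.yw σ (fun m => ω ∈ E m) N d : ℂ) *
          ((∏ t, u t ((n : ℤ) + (d : ℤ))) * T5x.ee ((d : ℝ) * θ n))‖ ≤
          4 * (1 / ((j : ℝ) + 1)) * N := by
    simp only [ae_all_iff]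
    intro J b j hb
    obtain ⟨C, S, s1, s2, s3⟩ := h1 J b hb (1 / ((j : ℝ) + 1)) (by positivity)
    have := h2 σ hσ Ω P E hE hind hP 1 le_rfl hg C S s1 (by simpa only [pow_one] using s2)
      (1 / ((j : ℝ) + 1)) (by positivity)
    filter_upwards [this, hm] with ω k1 k2
    filter_upwards [k1, k2, s3] with N m1 m2 m3 u θ hu
    obtain ⟨c, c1, c2⟩ := m3 u θ hu
    exact TsAeL.step _ N _ c _ (by positivity) (fun n hn => m1 _ (c1 n hn)) c2 m2
  filter_upwards [hs] with ω hω J b hb ε hε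
  obtain ⟨j, hj⟩ := exists_nat_one_div_lt (by positivity : 0 < ε / 4)
  filter_upwards [hω J b j hb] with N hN u θ hu
  refine (hN u θ hu).trans ?_
  gcongr
  linarith

end T8

end
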