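import Pool.Agent.MP_154433_an.t8.Spec

/-! Twisted structured sums under a change of the weights that is small in total variation. -/

set_option autoImplicit false

open Filter Topology
open scoped BigOperators

namespace T8

open Pool.Agent.MP_154433_an hiding BM

theorem tsN : TsNR := by
  intro w w' hn h J b hb ε hε
  filter_upwards [h J b hb (ε / 2) (half_pos hε), hn.eventually (gt_mem_nhds (half_pos hε))]
    with N h1 h2 u θ hu
  have k : ∀ (n : ℕ) (c : ℕ → ℂ), (∀ d, ‖c d‖ ≤ 1) → ‖∑ d ∈ Finset.range N, (w N d : ℂ) * c d‖ ≤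
      ‖∑ d ∈ Finset.range N, (w' N d : ℂ) * c d‖ + ε / 2 := fun n c hc => by
    refine (norm_le_insert' _ _).trans (add_le_add le_rfl (le_trans ?_ h2.le))
    rw [← Finset.sum_sub_distrib]
    refine norm_sum_le_of_le _ fun d _ => ?_
    rw [← sub_mul, norm_mul, ← Complex.ofReal_sub, Complex.norm_real, Real.norm_eq_abs]
    exact mul_le_of_le_one_right (abs_nonneg _) (hc d)
  refine (Finset.sum_le_sum fun n _ => k n _ fun d => ?_).trans ?_
  · rw [norm_mul, norm_prod]
    exact mul_le_one₀ (Finset.prod_le_one (fun _ _ => norm_nonneg _) fun t _ =>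
      T3S.CZ_B1 (hu t) _) (norm_nonneg _) (Complex.norm_exp_ofReal_mul_I _).le
  · rw [Finset.sum_add_distrib, Finset.sum_const, Finset.card_range, nsmul_eq_mul]
    linarith [h1 u θ hu]

end T8
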