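import Pool.Agent.MP_154433_an.t8.Spec
import Pool.Agent.MP_154433_an.t3s.Unif
import Pool.Agent.MP_154433_an.t3s.Bridge

/-! Row Unif: the factor generated by dual functions controls the twisted averages. -/

set_option autoImplicit false
set_option linter.unusedVariables false
set_option warn.classDefReducibility false

open MeasureTheory ProbabilityTheory Filter Topology Function Finset ComplexConjugate
open scoped BigOperators

noncomputable section

namespace T8

open Pool.Agent.MP_154433_an hiding BM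
open T3S (MB1 QX ddX)
open T3S.UnifAux (int_zero sum_eq)
open T3S.Bridge (exists_MB1 tz_congr)

theorem unif : UnifR := by
  intro h1 h2 h3 w hw ha X g0 hg0 hb0 h00 ε hε
  obtain ⟨g, hg, e⟩ := exists_MB1 hg0.1 hb0
  have h0 := (condExp_congr_ae e).symm.trans h00
  obtain ⟨hF, hD⟩ := h1 2 X.X X.μ X.T X.mp
  have hs : 0 < ε / 2 := by positivity
  obtain ⟨H, hH, hQ⟩ := h2 X.X X.μ X.T X.mp 3 (fun _ => 1) g hg
    (fun D hD' => int_zero hF.1 hg hD'.1 (hD _ (fun _ => one_ne_zero) D hD') h0)
    (ε / 2 * (ε / 2)) (by positivity)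
  let q : ℕ → ℕ → ℝ := fun n n' => QX X.μ X.T H 2 (fun _ => 1) (ddX X.T ((n : ℤ) - (n' : ℤ)) g)
  have hq : QX X.μ X.T H 3 (fun _ => 1) g = 𝔼 h : Fin H, 𝔼 h' : Fin H, q h' h := by
    rw [QX]
    simp only [q, one_mul]
    rfl
  refine ⟨H, fun n n' => ε / 2 + q n n' / (ε / 2), hH, ?_, fun n n' η hη => ?_⟩
  · simp only [sum_add_distrib, sum_const, card_range, nsmul_eq_mul, ← sum_div]
    rw [sum_eq H hH q, ← hq]
    have h4 : QX X.μ X.T H 3 (fun _ => 1) g * H ^ 2 / (ε / 2) ≤ ε / 2 * H ^ 2 := by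
      rw [div_le_iff₀ hs]
      have := mul_le_mul_of_nonneg_right hQ (sq_nonneg (H : ℝ))
      linarith
    linarith
  · let F : X.X → ℂ := fun y => g (T3S.Tz X.T n y) * conj (g (T3S.Tz X.T n' y))
    have hFm : MB1 F := (hg.tz X.T n).mul (hg.tz X.T n').cj
    have hFe : F = fun y => ddX X.T ((n : ℤ) - (n' : ℤ)) g (T3S.Tz X.T n' y) := by
      funext y
      simp only [F, ddX, ← T3S.Tz_add, sub_add_cancel]
    have h5 : QX X.μ X.T H 2 (fun _ => 1) F = q n n' := by
      rw [hFe]
      exact T3S.QX_tz X.mp H 2 _ n' (hg.ddX X.T _)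
    have h6 : (fun y => g0 (X.Tz n y) * conj (g0 (X.Tz n' y))) =ᵐ[X.μ] F := by
      filter_upwards [tz_congr X e n, tz_congr X e n'] with y a b
      exact congrArg₂ (fun a b => a * conj b) a b
    filter_upwards [h3 w hw ha X F hFm H hH (ε / 2) η hs hη] with M hM b hb
    refine le_of_eq_of_le (integral_congr_ae ?_) (h5 ▸ hM b hb)
    filter_upwards [ae_all_iff.2 fun d => tz_congr X h6 d] with x hx
    simp only [T5u.tav, hx]

end T8

end
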