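import Pool.Agent.MP_154433_an.p8.D0
import Pool.Agent.MP_154433_an.p5.U2

/-! Ergodic weights with small atoms satisfy the hypotheses of the core theorem. -/

set_option autoImplicit false
set_option linter.unusedVariables false

open MeasureTheory ProbabilityTheory Filter Topology Function Finset
open scoped BigOperators
open Fib27 (BM)
open Pool.Agent.MP_154433_an

noncomputable section

namespace T5y

open T3x

namespace Tw0

open T5u.UConv (norm_ee cont_ee av_le)

theorem ee_ne (t : ℝ) : ee t ≠ 0 := Complex.exp_ne_zero _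

theorem ee_zpow (t : ℝ) (d : ℤ) : ee ((d : ℝ) * t) = ee t ^ d := by
  rw [T5x.ee, T5x.ee, ← Complex.exp_int_mul]
  congr 1
  push_cast
  ring

/-- multiplication by a number of modulus one -/
def rot (t : ℝ) : ℂ ≃ₗᵢ[ℂ] ℂ where
  toFun z := ee t * z
  invFun z := (ee t)⁻¹ * z
  map_add' := mul_add _
  map_smul' c z := by simp only [smul_eq_mul, RingHom.id_apply]; ring
  left_inv z := inv_mul_cancel_left₀ (ee_ne t) z
  right_inv z := mul_inv_cancel_left₀ (ee_ne t) z
  norm_map' z := by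
    show ‖ee t * z‖ = ‖z‖
    rw [norm_mul, norm_ee, one_mul]

theorem rot_zpow (t : ℝ) (d : ℤ) : ∀ v, (rot t ^ d) v = ee t ^ d * v := by
  induction d using Int.induction_on with
  | zero => intro v; simp
  | succ d ih =>
    intro v
    rw [zpow_add_one, zpow_add_one₀ (ee_ne t), mul_assoc]
    exact ih _
  | pred d ih =>
    intro v
    rw [zpow_sub_one, zpow_sub_one₀ (ee_ne t), mul_assoc]
    exact ih _

theorem scal {ν : Wt} (erg : ERG ν) {t : ℝ} (h : ee t ≠ 1) :
    Tendsto (fun M => ν.av M fun d => ee ((d : ℝ) * t)) atTop (𝓝 0) := by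
  have l := erg ℂ (rot t) 1 fun u hu => by
    have h1 : ee t * u = u := hu
    have h2 : (ee t - 1) * u = 0 := by rw [sub_mul, h1, one_mul, sub_self]
    rw [(mul_eq_zero.1 h2).resolve_left (sub_ne_zero.2 h), inner_zero_left]
  simpa only [rot_zpow, mul_one, ee_zpow] using l

theorem meas_av {Ω : Type} [MeasurableSpace Ω] (ν : Wt) (M : ℕ) {Δ : Ω → ℝ} (h : Measurable Δ) :
    Measurable fun z => ν.av M fun d => ee ((d : ℝ) * Δ z) :=
  Finset.measurable_sum _ fun d _ => (cont_ee.measurable.comp (h.const_mul _)).const_smul (ν.w M d)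

open Classical in
theorem off {ν : Wt} (erg : ERG ν) (Z : Sys) {Δ : Z.X → ℝ} (h : Measurable Δ) :
    Tendsto (fun M => ∫ z, (if ee (Δ z) = 1 then 0 else ‖ν.av M fun d => ee ((d : ℝ) * Δ z)‖)
      ∂Z.μ) atTop (𝓝 0) := by
  have m : MeasurableSet {z | ee (Δ z) = 1} :=
    measurableSet_eq_fun (cont_ee.measurable.comp h) measurable_const
  have l := tendsto_integral_of_dominated_convergence (μ := Z.μ)
    (F := fun M z => if ee (Δ z) = 1 then 0 else ‖ν.av M fun d => ee ((d : ℝ) * Δ z)‖)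
    (f := fun _ => (0 : ℝ)) (fun _ => 1)
    (fun M => (Measurable.ite m measurable_const (meas_av ν M h).norm).aestronglyMeasurable)
    (integrable_const _) (fun M => Eventually.of_forall fun z => by
      split_ifs
      · simp
      · rw [norm_norm]
        exact av_le ν M fun d => (norm_ee _).le)
    (Eventually.of_forall fun z => by
      by_cases hz : ee (Δ z) = 1
      · simp only [if_pos hz]
        exact tendsto_const_nhds
      · simp only [if_neg hz]
        exact tendsto_zero_iff_norm_tendsto_zero.1 (scal erg hz))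
  simpa only [integral_zero] using l

open Classical in
theorem tw0 (bas : Bas) {ν : Wt} (erg : ERG ν) (Z : Sys) (F : Z.X → ℂ) (Δ : Z.X → ℝ)
    (hF : BM Z.μ Z.ms F) (h0 : Z.μ[F | T3x.Inv Z] =ᵐ[Z.μ] 0) (hΔ : Measurable Δ) :
    Tendsto (fun M => ∫ z, ‖ν.av M fun d => F (Z.Tz d z) * ee ((d : ℝ) * Δ z)‖ *
      ‖ν.av M fun d => ee ((d : ℝ) * Δ z)‖ ∂Z.μ) atTop (𝓝 0) := by
  obtain ⟨K0, hK0⟩ := hF.2
  have hK : ∀ᵐ z ∂Z.μ, ∀ d : ℤ, ‖F (Z.Tz d z)‖ ≤ |K0| := ae_all_iff.2 fun d =>
    (bas.t.mp Z d).quasiMeasurePreserving.ae (hK0.mono fun z hz => hz.trans (le_abs_self _))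
  have hd : ∀ d : ℤ, Integrable (fun z => F (Z.Tz d z)) Z.μ := fun d =>
    (bas.t.mp Z d).integrable_comp_of_integrable hF.integrable
  have m : MeasurableSet {z | ee (Δ z) = 1} :=
    measurableSet_eq_fun (cont_ee.measurable.comp hΔ) measurable_const
  have l := (T5u.ergL bas ν erg Z F hF h0).add ((off erg Z hΔ).const_mul |K0|)
  rw [mul_zero, add_zero] at l
  refine squeeze_zero (fun M => integral_nonneg fun z => by positivity) (fun M => ?_) l
  have i1 : Integrable (fun z => ‖ν.av M fun d => F (Z.Tz d z)‖) Z.μ := by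
    have h : Integrable (fun z => ν.av M fun d => F (Z.Tz d z)) Z.μ :=
      integrable_finsetSum _ fun d _ => (hd d).smul (ν.w M d)
    exact h.norm
  have i2 : Integrable
      (fun z => if ee (Δ z) = 1 then 0 else ‖ν.av M fun d => ee ((d : ℝ) * Δ z)‖) Z.μ := by
    refine Integrable.of_bound
      (Measurable.ite m measurable_const (meas_av ν M hΔ).norm).aestronglyMeasurable 1
      (Eventually.of_forall fun z => ?_)
    split_ifs
    · simp
    · rw [norm_norm]
      exact av_le ν M fun d => (norm_ee _).le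
  rw [← integral_const_mul, ← integral_add i1 (i2.const_mul _)]
  refine integral_mono_of_nonneg (Eventually.of_forall fun z => by positivity)
    (i1.add (i2.const_mul _)) (hK.mono fun z hz => ?_)
  have b1 : ‖ν.av M fun d => ee ((d : ℝ) * Δ z)‖ ≤ 1 := av_le ν M fun d => (norm_ee _).le
  by_cases e : ee (Δ z) = 1
  · simp only [if_pos e, mul_zero, add_zero]
    refine (mul_le_of_le_one_right (norm_nonneg _) b1).trans (le_of_eq ?_)
    simp only [ee_zpow, e, one_zpow, mul_one]
  · simp only [if_neg e]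
    refine le_add_of_nonneg_of_le (norm_nonneg _) (mul_le_mul_of_nonneg_right ?_ (norm_nonneg _))
    exact av_le ν M fun d => by rw [norm_mul, norm_ee, mul_one]; exact hz d

end Tw0

theorem uw_of (bas : Bas) {ν : Wt} (erg : ERG ν)
    (atom : ∃ (a : ℕ → ℤ) (n : ℕ → ℕ), (∀ M, ∀ d ∈ ν.sp M, a M ≤ d ∧ d < a M + n M) ∧
      ∀ ε : ℝ, 0 < ε → ∀ᶠ M in atTop, ∀ d ∈ ν.sp M, ν.w M d * Real.log ((n M : ℝ) + 1) ≤ ε) :
    UW ν :=
  ⟨erg, Tw0.tw0 bas erg, atom⟩

theorem uw_to (bas : Bas) {w : ℕ → ℕ → ℝ} (h : T3S.PW w) (he : T3S.Erg w)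
    (ha : ∀ ε : ℝ, 0 < ε → ∀ᶠ M : ℕ in atTop, ∀ d < M, w M d * Real.log ((M : ℝ) + 1) ≤ ε) :
    UW (T3S.Bridge.toWt w h) := by
  classical
  refine uw_of bas (T3S.Bridge.erg_to h he) ⟨fun _ => 0,
    fun M => if ∑ d ∈ range M, w M d = 1 then M else 1, fun M d hd => ?_, fun ε hε => ?_⟩
  · by_cases e : ∑ d ∈ range M, w M d = 1
    · simp only [T3S.Bridge.toWt, if_pos e, mem_image, mem_range] at hd ⊢
      obtain ⟨k, hk, rfl⟩ := hd
      omega
    · simp only [T3S.Bridge.toWt, if_neg e, mem_singleton] at hd ⊢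
      omega
  · filter_upwards [h.2, ha ε hε] with M e hM d hd
    simp only [T3S.Bridge.toWt, if_pos e, mem_image, mem_range] at hd ⊢
    obtain ⟨k, hk, rfl⟩ := hd
    rw [Int.toNat_natCast]
    exact hM k hk

end T5y

end
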