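import Pool.Agent.MP_154433_an.t8.Spec
import Pool.Agent.MP_154433_an.t8.Tw0

/-! Row Uw. -/

set_option autoImplicit false

namespace T8

theorem uw : UwR := fun b _ _ h e a => T5y.uw_to b h e a

end T8
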