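import Pool.Agent.MP_154433_an.t8.Spec

/-! Row WB: calculus of the tested weighted double averages. -/

set_option autoImplicit false
set_option linter.unusedVariables false

open MeasureTheory ProbabilityTheory Filter Topology Function
open scoped BigOperators ComplexConjugate

noncomputable section

namespace T8

open Pool.Agent.MP_154433_an hiding BM
open T3S (B1 MB1 PW AsInv Erg Bd Near)
open T4S (Gm)
open T6 (Sy MB NN act)

namespace WBL

variable {X : Sy} {a b : Gm 2} {κ κ' : ℕ → ℝ} {M : ℕ} {h f f' g g' : X.X → ℂ}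

lemma tz_ae (v : Gm 2) (h : f =ᵐ[X.μ] f') :
    (fun x => f (X.A v x)) =ᵐ[X.μ] fun x => f' (X.A v x) :=
  (X.mp v).quasiMeasurePreserving.ae_eq_comp h

lemma tz_int (v : Gm 2) (h : Integrable g X.μ) : Integrable (fun x => g (X.A v x)) X.μ :=
  (X.mp v).integrable_comp_of_integrable h

lemma i1 (u v : Gm 2) (hf : MB X f) (hg : Integrable g X.μ) :
    Integrable (fun x => f (X.A u x) * g (X.A v x)) X.μ :=
  (tz_int _ hg).bdd_mul (c := 1) ((act X).tz hf _).1.aestronglyMeasurable
    (Eventually.of_forall fun x => hf.2 _)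

lemma i2 (hh : MB X h) (hg : Integrable g X.μ) : Integrable (fun x => h x * g x) X.μ :=
  hg.bdd_mul (c := 1) hh.1.aestronglyMeasurable (Eventually.of_forall hh.2)

lemma nn0 : 0 ≤ NW X a b κ M h f g := norm_nonneg _

lemma le' (hh : MB X h) (hf : MB X f) (hg : MB X g) :
    NW X a b κ M h f g ≤ NN X a b κ M f g := by
  have i := fun d : ℕ => (i2 hh (i1 ((d : ℤ) • a) ((d : ℤ) • b) hf (hg.integrable _))).const_mul
    (κ d : ℂ)
  simp only [NW, NN, ← integral_const_mul]
  rw [← integral_finsetSum _ fun d _ => i d]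
  refine norm_integral_le_of_norm_le (integrable_finsetSum _ fun d _ =>
    (i1 _ _ hf (hg.integrable _)).const_mul _).norm (Eventually.of_forall fun x => ?_)
  simp only [mul_left_comm _ (h x), ← Finset.mul_sum, norm_mul]
  exact mul_le_of_le_one_left (norm_nonneg _) (hh.2 x)

lemma add' (hh : MB X h) (hf : MB X f) (hg : Integrable g X.μ) (hg' : Integrable g' X.μ) :
    NW X a b κ M h f (fun x => g x + g' x) ≤ NW X a b κ M h f g + NW X a b κ M h f g' := by
  refine le_of_eq_of_le (congrArg norm ?_) (norm_add_le _ _)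
  rw [← Finset.sum_add_distrib]
  refine Finset.sum_congr rfl fun d _ => ?_
  rw [← mul_add, ← integral_add (i2 hh (i1 _ _ hf hg)) (i2 hh (i1 _ _ hf hg'))]
  simp only [mul_add]

lemma smul' (c : ℂ) : NW X a b κ M h f (fun x => c * g x) = ‖c‖ * NW X a b κ M h f g := by
  simp only [NW, mul_left_comm _ c, integral_const_mul, ← Finset.mul_sum, norm_mul]

lemma bound (hh : MB X h) (hf : MB X f) (hg : Integrable g X.μ) :
    NW X a b κ M h f g ≤ (∑ d ∈ Finset.range M, |κ d|) * ∫ x, ‖g x‖ ∂X.μ := by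
  rw [Finset.sum_mul]
  refine (norm_sum_le _ _).trans (Finset.sum_le_sum fun d _ => ?_)
  rw [norm_mul, Complex.norm_real, Real.norm_eq_abs,
    ← (act X).integral ((d : ℤ) • b) (f := fun x => ‖g x‖) hg.norm.1]
  refine mul_le_mul_of_nonneg_left (norm_integral_le_of_norm_le (tz_int _ hg).norm
    (Eventually.of_forall fun x => ?_)) (abs_nonneg _)
  rw [norm_mul, norm_mul]
  exact (mul_le_of_le_one_left (by positivity) (hh.2 _)).trans
    (mul_le_of_le_one_left (norm_nonneg _) (hf.2 _))

lemma lip' (hh : MB X h) (hf : MB X f) (hg : Integrable g X.μ) (hg' : Integrable g' X.μ) :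
    NW X a b κ M h f g ≤ NW X a b κ M h f g' +
      (∑ d ∈ Finset.range M, |κ d|) * ∫ x, ‖g x - g' x‖ ∂X.μ := by
  have k := add' (a := a) (b := b) (κ := κ) (M := M) hh hf hg' (hg.sub hg')
  simp only [Pi.sub_apply, add_sub_cancel] at k
  exact k.trans (add_le_add le_rfl (bound hh hf (hg.sub hg')))

lemma tri' : NW X a b κ M h f g ≤
    NW X a b κ' M h f g + NW X a b (fun d => κ d - κ' d) M h f g := by
  refine le_of_eq_of_le (congrArg norm ?_) (norm_add_le _ _)
  rw [← Finset.sum_add_distrib]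
  exact Finset.sum_congr rfl fun d _ => by push_cast; ring

lemma sub' : NW X a b (fun d => κ d - κ' d) M h f g ≤
    NW X a b κ M h f g + NW X a b κ' M h f g := by
  refine le_of_eq_of_le (congrArg norm ?_) (norm_sub_le _ _)
  rw [← Finset.sum_sub_distrib]
  exact Finset.sum_congr rfl fun d _ => by push_cast; ring

variable {w w' : ℕ → ℕ → ℝ}

lemma vadd (hf : MB X f) (hg : Integrable g X.μ) (hg' : Integrable g' X.μ)
    (k : VW X a b w f g) (k' : VW X a b w f g') : VW X a b w f fun x => g x + g' x := fun h hh =>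
  squeeze_zero (fun _ => nn0) (fun _ => add' hh hf hg hg') (by simpa using (k h hh).add (k' h hh))

lemma vsmul (c : ℂ) (k : VW X a b w f g) : VW X a b w f fun x => c * g x := fun h hh => by
  simpa only [smul', mul_zero] using (k h hh).const_mul ‖c‖

lemma span' {T : Set (X.X → ℂ)} (hw : Bd w) (hf : MB X f) (hg : Integrable g X.μ)
    (hT : ∀ φ ∈ T, Integrable φ X.μ ∧ VW X a b w f φ)
    (k : ∀ ε : ℝ, 0 < ε → ∃ φ ∈ Submodule.span ℂ T, ∫ x, ‖g x - φ x‖ ∂X.μ ≤ ε) :
    VW X a b w f g := by
  have key : ∀ φ ∈ Submodule.span ℂ T, Integrable φ X.μ ∧ VW X a b w f φ := fun φ hφ => by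
    induction hφ using Submodule.span_induction with
    | mem φ h => exact hT φ h
    | zero => exact ⟨integrable_zero _ _ _, fun h _ => by simp [NW]⟩
    | add φ ψ _ _ h1 h2 => exact ⟨h1.1.add h2.1, vadd hf h1.1 h2.1 h1.2 h2.2⟩
    | smul c φ _ h1 => exact ⟨h1.1.smul c, vsmul c h1.2⟩
  refine fun h hh => Metric.tendsto_nhds.2 fun ε hε => ?_
  obtain ⟨φ, hφ, e⟩ := k (ε / 6) (by positivity)
  filter_upwards [hw, ((key φ hφ).2 h hh).eventually (gt_mem_nhds (half_pos hε))] with M h1 h2
  rw [Real.dist_0_eq_abs, abs_of_nonneg nn0]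
  have h3 := lip' (a := a) (b := b) (κ := w M) (M := M) hh hf hg (key φ hφ).1
  have h4 := mul_le_mul h1 e (integral_nonneg fun _ => norm_nonneg _) (by norm_num)
  linarith

lemma near' (hw : Near w w') (hf : MB X f) (hg : MB X g) (k : VW X a b w' f g) :
    VW X a b w f g := fun h hh => by
  have i : ∫ x, ‖g x‖ ∂X.μ ≤ 1 := by
    simpa using integral_mono (hg.integrable X.μ).norm (integrable_const (1 : ℝ)) hg.2
  refine squeeze_zero (fun _ => nn0) (fun M => (tri' (κ' := w' M)).trans
    (add_le_add le_rfl ((bound hh hf (hg.integrable _)).trans (mul_le_of_le_one_right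
      (Finset.sum_nonneg fun _ _ => abs_nonneg _) i)))) (by simpa using (k h hh).add hw)

lemma split' {β : X.X → ℂ} (hf : MB X f) (hg : MB X g) (hg' : MB X g') (hβ : MB X β)
    (h1 : VW X a b w f fun x => g' x * β x)
    (h2 : VW X a b w f fun x => (2⁻¹ : ℂ) * (g x - g' x) * β x) :
    VW X a b w f fun x => g x * β x := by
  have i : Integrable (fun x => (2⁻¹ : ℂ) * (g x - g' x) * β x) X.μ := by
    simpa only [mul_comm (β _), Pi.sub_apply] using
      i2 hβ (((hg.integrable X.μ).sub (hg'.integrable _)).const_mul (2⁻¹ : ℂ))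
  have k := vadd hf ((hg'.mul hβ).integrable _) (i.const_mul 2) h1 (vsmul 2 h2)
  exact (congrArg _ (funext fun x => by ring)).mp k

end WBL

open WBL in
theorem wb : WBR := fun _ =>
  { le := fun _ _ _ _ _ _ _ _ => le'
    swap := fun X a b κ M h f g => by simp only [NW, mul_comm (f _)]
    nonneg := fun _ _ _ _ _ _ _ _ => nn0
    congr := fun X a b κ M h f f' g g' k k' => by
      refine congrArg norm (Finset.sum_congr rfl fun d _ => ?_)
      refine congrArg (fun z : ℂ => (κ d : ℂ) * z) (integral_congr_ae ?_)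
      filter_upwards [tz_ae ((d : ℤ) • a) k, tz_ae ((d : ℤ) • b) k'] with x h1 h2
      rw [h1, h2]
    sub := fun _ _ _ _ _ _ _ _ _ => sub'
    tri := fun _ _ _ _ _ _ _ _ _ => tri'
    lip := fun _ _ _ _ _ _ _ _ _ => lip'
    smul := fun _ _ _ _ _ _ _ _ => smul'
    add := fun _ _ _ _ _ _ _ _ _ => add'
    span := fun _ _ _ _ _ _ _ => span'
    near := fun _ _ _ _ _ _ _ => near'
    split := fun _ _ _ _ _ _ _ _ => split' }

end T8

end
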