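import Pool.Agent.MP_154433_an.t8.Old
import Pool.Agent.MP_154433_an.t8.At
import Pool.Agent.MP_154433_an.t8.Uw
import Pool.Agent.MP_154433_an.t8.TsAe
import Pool.Agent.MP_154433_an.t8.TsN
import Pool.Agent.MP_154433_an.t8.Prod
import Pool.Agent.MP_154433_an.t8.Good
import Pool.Agent.MP_154433_an.t8.Conv
import Pool.Agent.MP_154433_an.t8.Dw
import Pool.Agent.MP_154433_an.t8.Unif
import Pool.Agent.MP_154433_an.t8.DetU
import Pool.Agent.MP_154433_an.t8.EB
import Pool.Agent.MP_154433_an.t8.Sel
import Pool.Agent.MP_154433_an.t8.Fin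
import Pool.Agent.MP_154433_an.t8.PdA
import Pool.Agent.MP_154433_an.t8.Pd
import Pool.Agent.MP_154433_an.t8.Met
import Pool.Agent.MP_154433_an.t8.Eig
import Pool.Agent.MP_154433_an.t8.WB
import Pool.Agent.MP_154433_an.t8.Cl
import Pool.Agent.MP_154433_an.t8.StB
import Pool.Agent.MP_154433_an.t8.StS
import Pool.Agent.MP_154433_an.t8.Lift
import Pool.Agent.MP_154433_an.t8.Null
import Pool.Agent.MP_154433_an.t8.Dc
import Pool.Agent.MP_154433_an.t8.Dbl
import Pool.Agent.MP_154433_an.t8.Has
import Pool.Agent.MP_154433_an.t8.Key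
import Pool.Agent.MP_154433_an.t8.Own
import Pool.Agent.MP_154433_an.t8.For
import Pool.Agent.MP_154433_an.t8.Hull
import Pool.Agent.MP_154433_an.t8.Top
import Pool.Agent.MP_154433_an.t8.EndA
import Pool.Agent.MP_154433_an.t8.EndB

/-! Two commuting maps, weak convergence in the full range: all rows. -/

set_option autoImplicit false

namespace T8

theorem rows : Rows :=
  ⟨atm, uw, tsAe, tsN, prod, good, conv, dw, unif, detU, eb, sel, fin, pdA, pd, met, eig, wb, cl,
    stB, stS, lift, nul, dc, dbl, has, key, own, forr, hull, top, endA, endB⟩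

theorem mainAll : MainS := mainOf rows old

end T8
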