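import Pool.Agent.MP_154433_an.t8.Spec
import Pool.Agent.MP_154433_an.t3s.Asm

/-! Assembly of the rows. -/

set_option autoImplicit false
set_option linter.unusedVariables false
set_option warn.classDefReducibility false

open MeasureTheory ProbabilityTheory Filter Topology Function
open scoped BigOperators ComplexConjugate

noncomputable section

namespace T8

open Pool.Agent.MP_154433_an hiding BM
open T3S (B1 MB1 PW AsInv Erg Bd Near Gr yw nu nb)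
open T4S (Gm Spr)
open T4x (Fd Nice)
open T6 (Sy MB rr VB QB NulInv LiftA LbS G0S df AS)

structure Rows : Prop where
  atm : AtR
  uw : UwR
  tsAe : TsAeR
  tsN : TsNR
  prod : ProdR
  good : GoodR
  conv : ConvR
  dw : DwR
  unif : UnifR
  detU : DetUR
  eb : EBR
  sel : SelR
  fin : FinR
  pdA : PdAR
  pd : PdR
  met : MetR
  eig : EigR
  wb : WBR
  cl : ClR
  stB : StBR
  stS : StSR
  lift : LiftR
  nul : NulR
  dc : DcR
  dbl : DblR
  has : HasR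
  key : KeyR
  own : OwnR
  forr : ForR
  hull : HullR
  top : TopR
  endA : EndAR
  endB : EndBR

/-- what is taken from the earlier directories -/
structure Old : Prop where
  fd : Fd
  fd3 : T3x.Fd
  core : ∀ ν, T5y.UW ν → T5y.CoreF ν
  ind : T4x.IndS
  vb : VB
  qb : QB
  ni : NulInv
  la : LiftA
  lb : LbS
  g0 : G0S
  tw : T6.Tw2 (rr 0) (rr 1) ∧ T6.Tw2 (rr 1) (rr 0)
  ergL : T5u.ErgL
  net : T5u.NetT
  act : T4S.ActS
  cls : T4S.ClsS
  spr : T4S.SprS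
  vdc : T3S.VdcS
  gvn : T3S.GvnS
  fac : T3S.FacS
  zero : T3S.ZeroS
  ub : T3S.UbS
  ae : T3S.AeS
  nrm : T3S.NormS
  erg : T3S.ErgS

theorem ufOf (R : Rows) (O : Old) {ν ν' : ℕ → ℕ → ℝ} (h1 : PW ν) (h2 : PW ν') (e1 : Erg ν)
    (e2 : Erg ν') (a1 : At ν) (a2 : At ν') (hi : AsInv ν') (hs : TS (df ν ν')) :
    UF (df ν ν') := by
  have b : T3x.Bas := ⟨O.fd3.a, O.fd3.t, O.fd3.d, O.fd3.c⟩
  have bd : Bd (df ν ν') := T3S.Asm.bd_sub h1 h2
  intro X u g ξ hg hξ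
  have mg : Fib27.BM (X.res u).μ (X.res u).ms g :=
    ⟨hg.1.aestronglyMeasurable, 1, Eventually.of_forall hg.2⟩
  have h := (R.conv b ν ν' h1 h2 (X.res u) g (fun _ => ξ) mg fun _ => hξ).2
    (R.detU O.fd3 O.core _ _ (R.uw b O.ergL ν h1 e1 a1) (R.uw b O.ergL ν' h2 e2 a2) (fun Y => by
      have hB := T3S.Bridge.fac_to Y _ (O.fac 2 Y.X Y.μ Y.T Y.mp).1
      exact ⟨_, hB.1, hB.2, fun f hf β hβ => (R.conv b ν ν' h1 h2 Y f β (hf.mono hB.1.le) hβ).1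
        (R.good R.prod _ bd hs Y f hf β hβ),
        R.unif O.fac O.zero (R.dw O.vdc O.gvn) ν' h2 hi Y⟩) (X.res u) g ξ mg hξ)
  simp only [SW, sw, O.fd.t.res] at h
  exact h

theorem detOf (R : Rows) (O : Old) {ν ν' : ℕ → ℕ → ℝ} (h1 : PW ν) (h2 : PW ν') (e1 : Erg ν)
    (e2 : Erg ν') (s1 : Spr ν) (s2 : Spr ν') (hi : AsInv ν') (hu : UF (df ν ν'))
    (X : Sy) (f g : X.X → ℂ) (hf : MB X f) (hg : MB X g) :
    VW X (rr 0) (rr 1) (df ν ν') f g := by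
  have F := O.fd
  have vb := O.vb
  have wb := R.wb F
  have eb := R.eb F vb
  have eig := R.eig F vb O.ni eb R.sel R.fin (R.pd F vb (R.pdA F vb)) (R.met F)
  have cl := R.cl F vb eb
  have li := R.lift F vb wb O.la
  have nl := R.nul F vb O.qb eb O.la O.lb cl eig
  have hs := R.has F vb eb O.la cl li nl (R.dbl F vb wb eb O.la O.g0 cl (R.stB F vb wb eb)
    (R.stS F vb wb eb) li nl (R.dc F eb))
  have ky := R.key F
  refine R.top F O.ind vb wb ν ν' h1 h2 e1 e2 s1 s2 (fun Y hY => ?_) X f g hf hg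
  obtain ⟨B, hB⟩ := hs ν ν' h1 h2 hi hu _ _ O.tw.1 Y hY
  obtain ⟨B', hB'⟩ := hs ν ν' h1 h2 hi hu _ _ O.tw.2 Y hY
  exact R.hull F vb wb (R.own F vb wb ky O.g0) (R.forr F vb wb ky O.g0) ν ν' h1 h2 hi Y B B' hY
    hB hB'

theorem mainOf (R : Rows) (O : Old) : MainS := by
  intro σ hσ ha hg Ω _ P _ E hE hind hP
  have h0 : ∀ n, 0 ≤ σ n := fun n => (hσ n).1
  have hW := T3S.Asm.wt_tendsto h0 hg
  filter_upwards [R.tsAe O.net O.ub O.ae O.nrm σ hσ hg Ω P E hE hind hP,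
    O.ae σ hσ Ω P E hE hind hP hg, O.cls σ hσ Ω P E hE hind hP hg]
    with ω u1 u4 u5 X _ μ _ T f hT hC hf
  obtain ⟨a1, a2, a3, a4, a5⟩ := O.nrm.1 σ _ h0 hW u4.1
  have hi := O.nrm.2.2.2 σ h0 ha hW
  have e2 : Erg (nb σ) := O.erg.1 _ a2 hi
  have e1 : Erg (nu fun m => ω ∈ E m) := O.erg.2 _ _ e2 (O.nrm.2.1 _ _ a4 u4.1)
  obtain ⟨s1, s2⟩ := O.spr _ _ _ a2 hi a4 u5
  obtain ⟨t1, t2⟩ := R.atm σ _ hσ hg a5
  have a4' : Near (yw σ fun m => ω ∈ E m) (df (nu fun m => ω ∈ E m) (nb σ)) := by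
    refine a4.congr fun M => Finset.sum_congr rfl fun d _ => abs_sub_comm _ _
  refine R.endB σ _ h0 ha hW a5 X μ T hT hC
    (R.endA O.act _ (fun Y f g hf hg => ?_) X μ T hT hC) f hf
  exact (R.wb O.fd).near Y _ _ _ _ f g a4' hf hg
    (detOf R O a1 a2 e1 e2 s1 s2 hi (ufOf R O a1 a2 e1 e2 t1 t2 hi (R.tsN _ _ a4 u1)) Y f g hf hg)

end T8

end
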