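import Pool.Agent.MP_154433_an.t8.Spec

/-! Row Fin: a bounded nonnegative smoothed density forces small correlations. -/

set_option autoImplicit false
set_option linter.unusedVariables false

open MeasureTheory Filter Topology Function Finset
open scoped BigOperators ComplexConjugate

noncomputable section

namespace T8

open T6 (ee)

namespace FinL

lemma eadd (a b : ℝ) : ee (a + b) = ee a * ee b := by
  simp only [ee, ← Complex.exp_add]
  congr 1
  push_cast
  ring

lemma econj (a : ℝ) : conj (ee a) = ee (-a) := by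
  simp only [ee, ← Complex.exp_conj, map_mul, Complex.conj_ofReal, Complex.conj_I]
  congr 1
  push_cast
  ring

@[fun_prop] lemma econt : Continuous ee := by
  unfold ee
  fun_prop

lemma orth (k : ℤ) : ∫ t in (0 : ℝ)..1, ee (k * t) = if k = 0 then 1 else 0 := by
  split_ifs with h
  · simp [h, ee]
  have c : (k : ℂ) * (2 * Real.pi * Complex.I) ≠ 0 :=
    mul_ne_zero (Int.cast_ne_zero.2 h) Complex.two_pi_I_ne_zero
  have e : ∀ t : ℝ, ee (k * t) = Complex.exp (k * (2 * Real.pi * Complex.I) * t) := fun t => by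
    rw [ee]
    congr 1
    push_cast
    ring
  simp only [e]
  rw [integral_exp_mul_complex c]
  simp [Complex.exp_int_mul_two_pi_mul_I]

lemma isum {ι : Type} (S : Finset ι) (a : ι → ℂ) (k : ι → ℤ) :
    ∫ t in (0 : ℝ)..1, ∑ i ∈ S, a i * ee (k i * t) = ∑ i ∈ S, if k i = 0 then a i else 0 := by
  rw [intervalIntegral.integral_finsetSum fun i _ => Continuous.intervalIntegrable (by fun_prop) _ _]
  simp only [intervalIntegral.integral_const_mul, orth, mul_ite, mul_one, mul_zero]

/-- the number of representations of `m` as a difference -/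
def cnt (N : ℕ) (m : ℤ) : ℝ :=
  ∑ n : Fin N, ∑ n' : Fin N, if ((n' : ℕ) : ℤ) - (n : ℕ) = m then 1 else 0

lemma cnt_zero (N : ℕ) : cnt N 0 = N := by
  simp [cnt, sub_eq_zero, Fin.val_inj]

lemma cnt_ge {H : ℕ} (h h' : Fin H) : (H : ℝ) ≤ cnt (2 * H) (((h' : ℕ) : ℤ) - (h : ℕ)) := by
  let i : Fin H → Fin H → Fin (2 * H) := fun a j => ⟨j + a, by omega⟩
  have inj : Injective (i h) := fun a b e => Fin.ext (by simpa [i] using e)
  refine le_trans ?_ (sum_le_sum_of_subset_of_nonneg (subset_univ (univ.map ⟨i h, inj⟩))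
    fun _ _ _ => by positivity)
  rw [sum_map]
  refine le_trans (by simp) (card_nsmul_le_sum _ _ (1 : ℝ) fun j _ => ?_)
  refine le_trans (le_of_eq ?_) (single_le_sum (fun _ _ => by positivity) (mem_univ (i h' j)))
  simp [i]

variable {γ : ℤ → ℂ} (hγ : ∀ n, γ (-n) = conj (γ n))

include hγ

lemma bb_eq (N : ℕ) (t : ℝ) : (bb γ N t : ℂ) = ∑ p : Fin N × Fin N,
    ((N : ℂ) ^ 2)⁻¹ * γ (((p.2 : ℕ) : ℤ) - (p.1 : ℕ)) *
      ee ((-(((p.2 : ℕ) : ℤ) - (p.1 : ℕ)) : ℤ) * t) := by
  rw [bb, Complex.conj_eq_iff_re.1]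
  · simp only [expect_eq_sum_div_card, card_univ, Fintype.card_fin, Fintype.sum_prod_type, sum_div]
    refine sum_congr rfl fun n _ => sum_congr rfl fun n' _ => ?_
    push_cast
    rw [neg_mul, div_div, div_eq_inv_mul, sq, mul_assoc]
  · simp only [expect_eq_sum_div_card, map_div₀, map_sum, map_mul, map_natCast, econj, ← hγ,
      ← sum_div]
    rw [sum_comm]
    simp only [neg_sub, ← neg_mul]

lemma coef (N : ℕ) (m : ℤ) : ∫ t in (0 : ℝ)..1, (bb γ N t : ℂ) * ee (m * t) =
    (cnt N m / N ^ 2 : ℝ) * γ m := by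
  simp only [bb_eq hγ, sum_mul, mul_assoc, ← eadd, ← add_mul, ← Int.cast_add]
  simp only [← mul_assoc]
  rw [isum, cnt, Fintype.sum_prod_type]
  push_cast
  simp only [sum_div, sum_mul]
  refine sum_congr rfl fun n _ => sum_congr rfl fun n' _ => ?_
  simp only [neg_add_eq_zero]
  split_ifs with h
  · rw [h]
    simp
  · simp

lemma bb_cont (N : ℕ) : Continuous fun t => (bb γ N t : ℂ) := by
  simp only [bb_eq hγ]
  fun_prop

end FinL

open FinL in
theorem fin : FinR := by
  intro γ H s hH hγ h0 hb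
  have : NeZero H := ⟨by omega⟩
  have H0 : (0 : ℝ) < H := by exact_mod_cast hH
  have s0 : 0 ≤ s := (hb 0 (by simp)).1.trans (hb 0 (by simp)).2
  have cF := bb_cont hγ (2 * H)
  have cR : Continuous (bb γ (2 * H)) :=
    (Complex.continuous_re.comp cF).congr fun t => Complex.ofReal_re _
  have e3 : ∫ t in (0 : ℝ)..1, bb γ (2 * H) t ≤ 1 / (2 * H) := by
    have e := coef hγ (2 * H) 0
    simp only [Int.cast_zero, zero_mul, ee, mul_zero, Complex.ofReal_zero, Complex.exp_zero,
      mul_one, intervalIntegral.integral_ofReal, cnt_zero] at e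
    refine (Real.le_norm_self _).trans ?_
    rw [← Complex.norm_real, e, norm_mul, Complex.norm_of_nonneg (by positivity)]
    refine (mul_le_of_le_one_right (by positivity) h0).trans (le_of_eq ?_)
    push_cast
    field_simp
  refine expect_le univ_nonempty fun h _ => ?_
  set m : Fin H → ℤ := fun h' => ((h' : ℕ) : ℤ) - (h : ℕ) with hm
  set G : ℝ → ℂ := fun t => ∑ h', conj (γ (m h')) * ee (m h' * t) with hG
  have cG : Continuous G := by fun_prop
  have e2 : ∫ t in (0 : ℝ)..1, ‖G t‖ ^ 2 = ∑ h', ‖γ (m h')‖ ^ 2 := by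
    have e : ∀ t, ((‖G t‖ ^ 2 : ℝ) : ℂ) = ∑ p : Fin H × Fin H,
        conj (γ (m p.1)) * γ (m p.2) * ee ((m p.1 - m p.2 : ℤ) * t) := fun t => by
      rw [Complex.ofReal_pow, ← Complex.mul_conj', hG, map_sum, sum_mul_sum, Fintype.sum_prod_type]
      refine sum_congr rfl fun a _ => sum_congr rfl fun b _ => ?_
      rw [map_mul, econj, Complex.conj_conj, Int.cast_sub (m a), sub_mul, sub_eq_add_neg, eadd]
      ring
    refine Complex.ofReal_injective ?_
    rw [← intervalIntegral.integral_ofReal]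
    simp only [e]
    rw [isum, Fintype.sum_prod_type]
    simp [hm, sub_eq_zero, Fin.val_inj, Complex.conj_mul']
  have e1 : ∫ t in (0 : ℝ)..1, (bb γ (2 * H) t : ℂ) * G t =
      (∑ h', cnt (2 * H) (m h') / (2 * H : ℕ) ^ 2 * ‖γ (m h')‖ ^ 2 : ℝ) := by
    simp only [hG, mul_sum, mul_left_comm _ (conj _)]
    rw [intervalIntegral.integral_finsetSum fun i _ =>
      Continuous.intervalIntegrable (by fun_prop) _ _, Complex.ofReal_sum]
    refine sum_congr rfl fun i _ => ?_
    rw [intervalIntegral.integral_const_mul, coef hγ, mul_left_comm, Complex.conj_mul']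
    push_cast
    rfl
  have k1 := intervalIntegral.norm_integral_le_of_norm_le (μ := volume) zero_le_one
    (f := fun t => (bb γ (2 * H) t : ℂ) * G t)
    (g := fun t => 2 * H * s * bb γ (2 * H) t + (8 * H : ℝ)⁻¹ * ‖G t‖ ^ 2)
    (Eventually.of_forall fun t ht => by
      obtain ⟨a, b⟩ := hb t ⟨ht.1.le, ht.2⟩
      rw [norm_mul, Complex.norm_of_nonneg a,
        ← mul_le_mul_iff_right₀ (by positivity : 0 < 8 * (H : ℝ)), mul_add,
        mul_inv_cancel_left₀ (by positivity)]
      nlinarith [sq_nonneg (4 * H * bb γ (2 * H) t - ‖G t‖),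
        mul_le_mul_of_nonneg_left b (by positivity : 0 ≤ (H : ℝ) ^ 2 * bb γ (2 * H) t)])
    (Continuous.intervalIntegrable (by fun_prop) _ _)
  rw [e1, Complex.norm_real, intervalIntegral.integral_add
    (Continuous.intervalIntegrable (by fun_prop) _ _)
    (Continuous.intervalIntegrable (by fun_prop) _ _), intervalIntegral.integral_const_mul,
    intervalIntegral.integral_const_mul, e2] at k1
  have k2 : (4 * H : ℝ)⁻¹ * ∑ h', ‖γ (m h')‖ ^ 2 ≤
      ∑ h', cnt (2 * H) (m h') / (2 * H : ℕ) ^ 2 * ‖γ (m h')‖ ^ 2 := by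
    rw [mul_sum]
    refine sum_le_sum fun i _ => mul_le_mul_of_nonneg_right ?_ (by positivity)
    refine le_trans (le_of_eq ?_) (div_le_div_of_nonneg_right (cnt_ge h i) (by positivity))
    push_cast
    field_simp
    norm_num
  have k3 := mul_le_mul_of_nonneg_left e3 (by positivity : 0 ≤ 2 * H * s)
  have k4 : 2 * H * s * (1 / (2 * H)) = s := by field_simp
  have k5 : (4 * H : ℝ)⁻¹ = 2 * (8 * H : ℝ)⁻¹ := by
    field_simp
    norm_num
  rw [expect_eq_sum_div_card, card_univ, Fintype.card_fin, div_le_iff₀ H0, mul_right_comm,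
    ← inv_mul_le_iff₀ (by positivity)]
  have k6 := k2.trans ((Real.le_norm_self _).trans k1)
  rw [k5] at k6
  linarith

end T8

end
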