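import Pool.Agent.MP_154433_an.t8.Spec
import Pool.Agent.MP_154433_an.p6.S4

/-! The Cauchy-Schwarz step for a convolution in the second slot, tested form. -/

set_option autoImplicit false
set_option linter.unusedVariables false

open MeasureTheory ProbabilityTheory Filter Topology Function
open scoped BigOperators ComplexConjugate

noncomputable section

namespace T8

open Pool.Agent.MP_154433_an hiding BM
open T4S (Gm)
open Fib27 (BM)
open T4x (Fac Pair Star Fd)
open T4x.CptA
open T6 (Sy MB d2 Ver)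
open T6.Key

theorem key : KeyR := by
  intro F X Z C p a b u H g k hC hP hH hg hk hS
  obtain ⟨K, hK⟩ := hH.2
  refine ⟨max K 0 ^ 2, sq_nonneg _, fun h f N c κ M hh hf hN hc κ0 κ1 => ?_⟩
  have hf' : BM X.μ X.ms f := bm_of hf.1 hf.2
  have hs : BM X.μ X.ms h := bm_of hh.1 hh.2
  have hw : ∀ d : ℕ, BM X.μ X.ms fun x => h x * f (X.A ((d : ℤ) • a) x) := fun d =>
    hs.mul (bmT F hf' _)
  have h1 : NW X a b κ M h f k ≤ ∑ d ∈ Finset.range M,
      κ d * ‖∫ x, h x * f (X.A ((d : ℤ) • a) x) * k (X.A ((d : ℤ) • b) x) ∂X.μ‖ := by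
    refine (norm_sum_le _ _).trans (le_of_eq (Finset.sum_congr rfl fun d _ => ?_))
    rw [norm_mul, Complex.norm_real, Real.norm_of_nonneg (κ0 d)]
    simp only [mul_assoc]
  have h2 : ∀ n n' : ℕ, ∑ d ∈ Finset.range M, κ d *
      (∫ x, d2 X u n n' (fun x => h x * f (X.A ((d : ℤ) • a) x)) x *
        c n n' (X.A ((d : ℤ) • b) x) ∂X.μ).re ≤
      NW X a b κ M (d2 X u n n' h) (d2 X u n n' f) (c n n') := by
    intro n n'
    refine le_trans (le_of_eq ?_) (Complex.re_le_norm _)
    simp only [Complex.re_sum, Complex.re_ofReal_mul]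
    refine Finset.sum_congr rfl fun d _ => ?_
    congr 3
    funext x
    simp only [d2, map_mul, ← F.t.add, add_comm]
    ring
  refine (pow_le_pow_left₀ (norm_nonneg _) h1 2).trans
    ((Real.pow_arith_mean_le_arith_mean_pow _ _ _ (fun d _ => κ0 d) κ1
      (fun d _ => norm_nonneg _) 2).trans ((Finset.sum_le_sum fun (d : ℕ) _ =>
        mul_le_mul_of_nonneg_left
        (one F hC hP hH (bm_of hg.1 hg.2) hk hS (le_max_right K 0)
          (hK.mono fun z hz => hz.trans (le_max_left _ _)) hN hc ((d : ℤ) • b) (hw d))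
        (κ0 d)).trans ?_))
  simp only [mul_left_comm (κ _), ← Finset.mul_sum]
  refine mul_le_mul_of_nonneg_left ?_ (sq_nonneg _)
  simp only [Finset.mul_sum, Fintype.expect_eq_sum_div_card, Fintype.card_fin, div_eq_inv_mul,
    Finset.sum_comm (s := Finset.range M), mul_assoc]
  refine Finset.sum_le_sum fun n _ => Finset.sum_le_sum fun n' _ => ?_
  simp only [← Finset.mul_sum]
  gcongr
  exact h2 n n'

end T8

end
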