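import Pool.Agent.MP_154433_an.t8.Asm
import Pool.Agent.MP_154433_an.p6.All
import Pool.Agent.MP_154433_an.p8.Core
import Pool.Agent.MP_154433_an.p5.U2
import Pool.Agent.MP_154433_an.p5.U3
import Pool.Agent.MP_154433_an.p5.U4

/-! The facts of the earlier directories that the rows use. -/

set_option autoImplicit false

namespace T8

open Pool.Agent.MP_154433_an hiding BM

theorem old : Old :=
  have F := T6.old.fd
  have vb := T6.vb F
  have qb := T6.qb T6.old.perm
  have ni := T6.nulInv F T6.old.perm qb (T6.scale T6.old.perm qb)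
  { fd := F
    fd3 := T3x.fdX
    core := T5y.coreAll
    ind := T4x.indX (fun G => @T4A.xAlg G (@T4x.basX G).t (@T4x.fdX G).mix) T6.G2
    vb := vb
    qb := qb
    ni := ni
    la := T6.liftA F
    lb := T6.lb F vb qb ni
    g0 := T6.g0 T6.old.gvn vb qb (T6.mono F vb qb (T6.link F) (T6.gcsB qb))
    tw := T6.near.tw
    ergL := T5u.ergL T3x.basX
    net := T5u.netT (T5u.netP T6.old.apx (T3F.covZ (T3u.cyc T4S.invG)))
    act := T6.old.act
    cls := T6.old.cls
    spr := T6.old.spr
    vdc := T3S.vdc
    gvn := T3S.gvn T3S.vdc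
    fac := T3S.fac
    zero := T3S.zero T3S.nest T3S.link
    ub := T6.old.ub
    ae := T6.old.ae
    nrm := T6.old.nrm
    erg := T6.old.erg }

end T8
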