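import Pool.Agent.MP_154433_an.t6.Spec
import Pool.Agent.MP_154433_an.p5.U0
import Pool.Agent.MP_154433_an.p8.D0

/-! Two commuting maps, weak convergence along the random set in the full range (note
154433_t8_h92): definitions and statements of the rows. -/

set_option autoImplicit false
set_option linter.unusedVariables false
set_option warn.classDefReducibility false

open MeasureTheory ProbabilityTheory Filter Topology Function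
open scoped BigOperators ComplexConjugate

noncomputable section

namespace T8

open Pool.Agent.MP_154433_an hiding BM
open T3S (B1 MB1 PW AsInv Erg Bd Near Gr yw nu nb CZ)
open T4S (Gm ddX Spr)
open Fib27 (BM)
open T3x (nul pull gen)
open T4x (Fac Emb Inv Nice Pair Star KK Fd)
open T6 (Sy MB rr ee NN Vn IvF Ver VB QB Nul QE EL NulInv Cl EE LF LfP LiftA LbS Pj Tw2 d2 G0 G0S
  df AS)

/-! ### one map: twisted averages with a fixed frequency -/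

/-- small atoms -/
def At (w : ℕ → ℕ → ℝ) : Prop :=
  ∀ ε : ℝ, 0 < ε → ∀ᶠ M : ℕ in atTop, ∀ d < M, w M d * Real.log ((M : ℝ) + 1) ≤ ε

/-- the weights do not see twisted structured sequences -/
def TS (w : ℕ → ℕ → ℝ) : Prop := ∀ (J : ℕ) (b : Fin J → Fin 3 → ℤ), (∀ t i, b t i ≠ 0) →
  ∀ ε : ℝ, 0 < ε → ∀ᶠ N : ℕ in atTop, ∀ (u : Fin J → ℤ → ℂ) (θ : ℕ → ℝ),
    (∀ t, u t ∈ CZ (b t) (N ^ 2)) →
    ∑ n ∈ Finset.range N, ‖∑ d ∈ Finset.range N, (w N d : ℂ) *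
      ((∏ t, u t ((n : ℤ) + (d : ℤ))) * T5x.ee ((d : ℝ) * θ n))‖ ≤ ε * N

/-- the twisted sum with signed weights -/
def sw (w : ℕ → ℕ → ℝ) (Y : T3x.Sys) (g : Y.X → ℂ) (N : ℕ) (t : ℝ) (y : Y.X) : ℂ :=
  ∑ d ∈ Finset.range N, (w N d : ℂ) * (g (Y.Tz d y) * T5x.ee ((d : ℝ) * t))

def SW (w : ℕ → ℕ → ℝ) (Y : T3x.Sys) (g : Y.X → ℂ) (b : ℕ → Y.X → ℝ) : Prop :=
  Tendsto (fun N : ℕ => ∫ y, ‖sw w Y g N (b N y) y‖ ∂Y.μ) atTop (𝓝 0)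

/-- comparison of twisted averages, the frequency may move with the scale -/
def UVb (ν ν' : T3x.Wt) (Y : T3x.Sys) (g : Y.X → ℂ) (b : ℕ → Y.X → ℝ) : Prop :=
  Tendsto (fun M => ∫ y, ‖T5u.tav ν Y g M (b M y) y - T5u.tav ν' Y g M (b M y) y‖ ^ 2 ∂Y.μ)
    atTop (𝓝 0)

def AtS : Prop := ∀ (σ : ℕ → ℝ) (p : ℕ → Prop), (∀ n, 0 ≤ σ n ∧ σ n ≤ 1) → Gr σ 1 →
  Tendsto (fun M => ∑ d ∈ Finset.range M, yw σ p M d) atTop (𝓝 0) → At (nu p) ∧ At (nb σ)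

def UwS : Prop := ∀ (w : ℕ → ℕ → ℝ) (h : PW w), Erg w → At w → T5y.UW (T3S.Bridge.toWt w h)

def TsAe : Prop := ∀ σ : ℕ → ℝ, (∀ n, 0 ≤ σ n ∧ σ n ≤ 1) → Gr σ 1 → AS σ TS

def TsN : Prop := ∀ w w', Near w w' → TS w' → TS w

def ProdS : Prop := ∀ w, Bd w → TS w → ∀ (Y : T3x.Sys) (ι : Type) [Fintype ι] (D : ι → Y.X → ℂ),
  (∀ t, ∃ b : Fin 3 → ℤ, (∀ i, b i ≠ 0) ∧ D t ∈ T3S.DD Y.μ Y.T b) →
  ∀ b : ℕ → Y.X → ℝ, (∀ N, Measurable (b N)) → SW w Y (fun y => ∏ t, D t y) b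

def GoodS : Prop := ∀ w, Bd w → TS w → ∀ (Y : T3x.Sys) (g : Y.X → ℂ),
  BM Y.μ (T3S.B0 Y.μ Y.T 2) g → ∀ b : ℕ → Y.X → ℝ, (∀ N, Measurable (b N)) → SW w Y g b

def ConvS : Prop := ∀ (ν ν' : ℕ → ℕ → ℝ) (h : PW ν) (h' : PW ν') (Y : T3x.Sys) (g : Y.X → ℂ)
  (b : ℕ → Y.X → ℝ), BM Y.μ Y.ms g → (∀ N, Measurable (b N)) →
  (SW (df ν ν') Y g b ↔ UVb (T3S.Bridge.toWt ν h) (T3S.Bridge.toWt ν' h') Y g b)

/-- one van der Corput step removes the twist -/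
def DwS : Prop := ∀ (w : ℕ → ℕ → ℝ) (h : PW w), AsInv w → ∀ (X : T3x.Sys) (G : X.X → ℂ), MB1 G →
  ∀ (H : ℕ), 1 ≤ H → ∀ s η : ℝ, 0 < s → 0 < η → ∀ᶠ M in atTop, ∀ b : X.X → ℝ, Measurable b →
    ∫ x, ‖T5u.tav (T3S.Bridge.toWt w h) X G M (b x) x‖ ^ 2 ∂X.μ ≤
      s + T3S.QX X.μ X.T H 2 (fun _ => 1) G / s + η

def UnifS : Prop := ∀ (w : ℕ → ℕ → ℝ) (h : PW w), AsInv w → ∀ X : T3x.Sys,
  T5u.TG0 (T3S.Bridge.toWt w h) X (T3S.B0 X.μ X.T 2)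

/-- the deterministic theorem for one map -/
def DetU : Prop := ∀ ν ν' : T3x.Wt, T5y.UW ν → T5y.UW ν' → T5u.THas ν ν' →
  ∀ (Y : T3x.Sys) (g : Y.X → ℂ) (b : Y.X → ℝ), BM Y.μ Y.ms g → Measurable b →
  UVb ν ν' Y g fun _ => b

/-- twisted averages vanish for every fixed measurable frequency -/
def UF (w : ℕ → ℕ → ℝ) : Prop := ∀ (X : Sy) (u : Gm 2) (g : X.X → ℂ) (ξ : X.X → ℝ),
  MB X g → Measurable ξ → Tendsto (fun M => ∫ x, ‖∑ d ∈ Finset.range M,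
    (w M d : ℂ) * (g (X.A ((d : ℤ) • u) x) * ee ((d : ℝ) * ξ x))‖ ∂X.μ) atTop (𝓝 0)

/-! ### eigenfunctions with an invariant frequency -/

def Eg (X : Sy) (u : Gm 2) (ξ : X.X → ℝ) (ψ : X.X → ℂ) : Prop :=
  MB X ψ ∧ Measurable ξ ∧ (fun x => ξ (X.A u x)) =ᵐ[X.μ] ξ ∧
    (fun x => ψ (X.A u x)) =ᵐ[X.μ] fun x => ee (ξ x) * ψ x

def Eig (X : Sy) (u : Gm 2) (ψ : X.X → ℂ) : Prop := ∃ ξ, Eg X u ξ ψ

structure EB : Prop where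
  ivf : ∀ X u c, IvF X u c → Eig X u c
  mul : ∀ X u φ ψ, Eig X u φ → Eig X u ψ → Eig X u fun x => φ x * ψ x
  cj : ∀ X u ψ, Eig X u ψ → Eig X u fun x => conj (ψ x)
  tz : ∀ X u ψ v, Eig X u ψ → Eig X u fun x => ψ (X.A v x)
  pb : ∀ (X' X : Sy) p u ψ, Emb X' X p → Eig X u ψ → Eig X' u fun x => ψ (p x)
  ver : ∀ (X : Sy) Y u ψ ψ', Fac X Y → Inv X {u} ≤ Y → Eig X u ψ → Ver X Y ψ ψ' →
    Eig X u fun x => (2⁻¹ : ℂ) * (ψ x - ψ' x)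
  pow : ∀ X u ξ ψ, Eg X u ξ ψ → ∀ᵐ x ∂X.μ, ∀ d : ℕ, ξ (X.A ((d : ℤ) • u) x) = ξ x ∧
    ψ (X.A ((d : ℤ) • u) x) = ee ((d : ℝ) * ξ x) * ψ x

/-- the smoothed spectral density of a sequence -/
def bb (γ : ℤ → ℂ) (N : ℕ) (t : ℝ) : ℝ := (𝔼 n : Fin N, 𝔼 n' : Fin N,
  γ (((n' : ℕ) : ℤ) - ((n : ℕ) : ℤ)) * ee (-((((n' : ℕ) : ℝ) - ((n : ℕ) : ℝ)) * t))).re

/-- the average of the twisted shifts -/
def tw (X : Sy) (u : Gm 2) (ξ : X.X → ℝ) (g : X.X → ℂ) (N : ℕ) (x : X.X) : ℂ :=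
  𝔼 n : Fin N, ee (-(((n : ℕ) : ℝ) * ξ x)) * g (X.A (((n : ℕ) : ℤ) • u) x)

/-- measurable choice of a common near maximum -/
def SelS : Prop := ∀ (Ω : Type) (m : MeasurableSpace Ω) (b : ℕ → Ω → ℝ → ℝ),
  (∀ k t, Measurable[m] fun x => b k x t) → (∀ k x, Continuous (b k x)) →
  (∀ k x t, |b k x t| ≤ 1) →
  ∃ (ξ : Ω → ℝ) (s : ℕ → Ω → ℝ) (s0 : Ω → ℝ), Measurable[m] ξ ∧ (∀ k, Measurable[m] (s k)) ∧
    Measurable[m] s0 ∧ (∀ k x, |s k x| ≤ 1) ∧ (∀ x, |s0 x| ≤ 1) ∧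
    (∀ k x, ∀ t ∈ Set.Icc (0 : ℝ) 1, b k x t ≤ s k x) ∧
    ∀ x, (∀ k t, b (k + 1) x t ≤ b k x t) →
      Tendsto (fun k => s k x) atTop (𝓝 (s0 x)) ∧ ∀ k, s0 x ≤ b k x (ξ x)

def FinS : Prop := ∀ (γ : ℤ → ℂ) (H : ℕ) (s : ℝ), 1 ≤ H → (∀ n, γ (-n) = conj (γ n)) →
  ‖γ 0‖ ≤ 1 → (∀ t ∈ Set.Icc (0 : ℝ) 1, 0 ≤ bb γ (2 * H) t ∧ bb γ (2 * H) t ≤ s) →
  𝔼 h : Fin H, 𝔼 h' : Fin H, ‖γ (((h' : ℕ) : ℤ) - ((h : ℕ) : ℤ))‖ ^ 2 ≤ 8 * s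

/-- versions of the conditional correlations -/
def Cor (X : Sy) (u : Gm 2) (g : X.X → ℂ) (γ : ℤ → X.X → ℂ) : Prop :=
  ∀ n, Ver X (Inv X {u}) (ddX X.A (n • u) g) (γ n) ∧ Measurable[Inv X {u}] (γ n)

/-- the density at a fixed frequency is a conditional expectation -/
def PdA : Prop := ∀ (X : Sy) (u : Gm 2) (g : X.X → ℂ) (γ : ℤ → X.X → ℂ), MB X g → Cor X u g γ →
  ∀ (ξ : X.X → ℝ) (N : ℕ), Measurable[Inv X {u}] ξ →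
    (fun x => ((bb (fun n => γ n x) N (ξ x) : ℝ) : ℂ)) =ᵐ[X.μ]
      X.μ[fun x => ((‖tw X u ξ g N x‖ ^ 2 : ℝ) : ℂ) | Inv X {u}]

def PdS : Prop := ∀ (X : Sy) (u : Gm 2) (g : X.X → ℂ) (γ : ℤ → X.X → ℂ), MB X g → Cor X u g γ →
  (∀ᵐ x ∂X.μ, (∀ n, γ (-n) x = conj (γ n x)) ∧ ∀ (N : ℕ) (t : ℝ), 1 ≤ N →
    0 ≤ bb (fun n => γ n x) N t ∧ bb (fun n => γ n x) (2 * N) t ≤ bb (fun n => γ n x) N t) ∧
  ∀ (ξ : X.X → ℝ) (N : ℕ), Measurable[Inv X {u}] ξ →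
    ∫ x, bb (fun n => γ n x) N (ξ x) ∂X.μ = ∫ x, ‖tw X u ξ g N x‖ ^ 2 ∂X.μ

/-- the mean ergodic theorem with a twist -/
def MetS : Prop := ∀ (X : Sy) (u : Gm 2) (g : X.X → ℂ) (ξ : X.X → ℝ), MB X g → Measurable ξ →
  (fun x => ξ (X.A u x)) =ᵐ[X.μ] ξ → ∃ ψ, Eg X u ξ ψ ∧
    Tendsto (fun N => ∫ x, ‖tw X u ξ g N x‖ ^ 2 ∂X.μ) atTop (𝓝 (∫ x, g x * conj (ψ x) ∂X.μ).re)

/-- the inverse theorem for the box of one direction -/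
def EigS : Prop := ∀ (X : Sy) (u : Gm 2) (g : X.X → ℂ), MB X g →
  (∀ ψ, Eig X u ψ → ∫ x, g x * ψ x ∂X.μ = 0) → Nul X [u, u] g

/-! ### tested averages -/

def NW (X : Sy) (a b : Gm 2) (κ : ℕ → ℝ) (M : ℕ) (h f g : X.X → ℂ) : ℝ :=
  ‖∑ d ∈ Finset.range M, (κ d : ℂ) *
    ∫ x, h x * (f (X.A ((d : ℤ) • a) x) * g (X.A ((d : ℤ) • b) x)) ∂X.μ‖

def VW (X : Sy) (a b : Gm 2) (w : ℕ → ℕ → ℝ) (f g : X.X → ℂ) : Prop :=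
  ∀ h, MB X h → Tendsto (fun M => NW X a b (w M) M h f g) atTop (𝓝 0)

def GdW (X : Sy) (a b : Gm 2) (w : ℕ → ℕ → ℝ) (g : X.X → ℂ) : Prop :=
  ∀ f, MB X f → VW X a b w f g

structure WB : Prop where
  le : ∀ X a b κ M h f g, MB X h → MB X f → MB X g → NW X a b κ M h f g ≤ NN X a b κ M f g
  swap : ∀ X a b κ M h f g, NW X a b κ M h f g = NW X b a κ M h g f
  nonneg : ∀ X a b κ M h f g, 0 ≤ NW X a b κ M h f g
  congr : ∀ X a b κ M h f f' g g', f =ᵐ[X.μ] f' → g =ᵐ[X.μ] g' →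
    NW X a b κ M h f g = NW X a b κ M h f' g'
  sub : ∀ X a b (κ κ' : ℕ → ℝ) M h f g,
    NW X a b (fun d => κ d - κ' d) M h f g ≤ NW X a b κ M h f g + NW X a b κ' M h f g
  tri : ∀ X a b (κ κ' : ℕ → ℝ) M h f g,
    NW X a b κ M h f g ≤ NW X a b κ' M h f g + NW X a b (fun d => κ d - κ' d) M h f g
  lip : ∀ X a b (κ : ℕ → ℝ) M h f g g', MB X h → MB X f → Integrable g X.μ → Integrable g' X.μ →
    NW X a b κ M h f g ≤ NW X a b κ M h f g' +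
      (∑ d ∈ Finset.range M, |κ d|) * ∫ x, ‖g x - g' x‖ ∂X.μ
  smul : ∀ X a b κ M h f g (c : ℂ),
    NW X a b κ M h f (fun x => c * g x) = ‖c‖ * NW X a b κ M h f g
  add : ∀ X a b κ M h f g g', MB X h → MB X f → Integrable g X.μ → Integrable g' X.μ →
    NW X a b κ M h f (fun x => g x + g' x) ≤ NW X a b κ M h f g + NW X a b κ M h f g'
  span : ∀ X a b w f g (T : Set (X.X → ℂ)), Bd w → MB X f → Integrable g X.μ →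
    (∀ φ ∈ T, Integrable φ X.μ ∧ VW X a b w f φ) →
    (∀ ε : ℝ, 0 < ε → ∃ φ ∈ Submodule.span ℂ T, ∫ x, ‖g x - φ x‖ ∂X.μ ≤ ε) → VW X a b w f g
  near : ∀ X a b w w' f g, Near w w' → MB X f → MB X g → VW X a b w' f g → VW X a b w f g
  split : ∀ X a b w f g g' (β : X.X → ℂ), MB X f → MB X g → MB X g' → MB X β →
    VW X a b w f (fun x => g' x * β x) →
    VW X a b w f (fun x => (2⁻¹ : ℂ) * (g x - g' x) * β x) → VW X a b w f fun x => g x * β x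

/-! ### the base -/

def K1 (a b : Gm 2) (X : Sy) : Set (X.X → ℂ) :=
  {F | ∃ ψ c, Eig X b ψ ∧ IvF X (b - a) c ∧ F = fun x => ψ x * c x}

def K2 (a b : Gm 2) (X : Sy) : Set (X.X → ℂ) :=
  {F | ∃ φ χ, Eig X b φ ∧ Eig X (b - a) χ ∧ F = fun x => χ x * φ x}

def ClS : Prop := ∀ a b, Cl (K1 a b) ∧ Cl (K2 a b)

def StB : Prop := ∀ w, UF w → ∀ (X : Sy) (a b : Gm 2), ∀ F ∈ K1 a b X, GdW X a b w F

def StS : Prop := ∀ w, UF w → ∀ (X : Sy) (a b : Gm 2) (χ : X.X → ℂ), Eig X (b - a) χ →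
  GdW X a b w χ

def LiftS : Prop := ∀ 𝒞 (a b : Gm 2) (w : ℕ → ℕ → ℝ), Cl 𝒞 → Bd w →
  (∀ X : Sy, Nice X → ∀ F ∈ 𝒞 X, GdW X a b w F) →
  ∀ X : Sy, Nice X → ∀ g, MB X g → BM X.μ (LF 𝒞 X) g → GdW X a b w g

def NulS : Prop := ∀ a b : Gm 2, Tw2 a b → ∀ X : Sy, Nice X → ∀ g, MB X g →
  (X.μ[g | LF (K1 a b) X] =ᵐ[X.μ] 0 → Nul X [b, b, b - a] g) ∧
  (X.μ[g | LF (K2 a b) X] =ᵐ[X.μ] 0 → Nul X [b, b, b - a] g ∧ Nul X [b - a, b, b - a] g)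

/-- the Cauchy-Schwarz step that removes an eigenfunction of the step of the slot -/
def DcS : Prop := ∀ (X : Sy) (a b : Gm 2) (φ h f χ : X.X → ℂ), Eig X b φ → MB X h → MB X f →
  MB X χ → ∀ (N : ℕ) (κ : ℕ → ℝ) (M : ℕ), 1 ≤ N → (∀ d, 0 ≤ κ d) →
  ∑ d ∈ Finset.range M, κ d = 1 →
  NW X a b κ M h f (fun x => χ x * φ x) ^ 2 ≤ 𝔼 n : Fin N, 𝔼 n' : Fin N,
    NW X a b κ M (d2 X b n n' fun x => h x * φ x) (d2 X b n n' f) (d2 X b n n' χ)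

def DblS : Prop := ∀ ν ν', PW ν → PW ν' → AsInv ν' → UF (df ν ν') → ∀ a b : Gm 2, Tw2 a b →
  ∀ X : Sy, Nice X → ∀ F ∈ K2 a b X, GdW X a b (df ν ν') F

/-- a base for the slot with step `b` -/
structure Bs (X : Sy) (a b : Gm 2) (w : ℕ → ℕ → ℝ) (B : MeasurableSpace X.X) : Prop where
  fac : Fac X B
  i1 : Inv X {b} ≤ B
  i2 : Inv X {b - a} ≤ B
  gd : ∀ g, MB X g → BM X.μ B g → GdW X a b w g
  nul : ∀ g, MB X g → X.μ[g | B] =ᵐ[X.μ] 0 → Nul X [b, b, b - a] g ∧ Nul X [b - a, b, b - a] g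

def HasS : Prop := ∀ ν ν', PW ν → PW ν' → AsInv ν' → UF (df ν ν') → ∀ a b : Gm 2, Tw2 a b →
  ∀ X : Sy, Nice X → ∃ B, Bs X a b (df ν ν') B

/-! ### compact steps for pairs of factors -/

def KeyS : Prop := ∀ (X Z : Sy) (C : MeasurableSpace X.X) (p : Bool → Z.X → X.X) (a b u : Gm 2)
  (H : Z.X → ℂ) (g k : X.X → ℂ), Fac X C → Pair X C Z p → BM Z.μ (Inv Z {u}) H → MB X g →
  BM X.μ X.ms k → Star p H g k → ∃ K : ℝ, 0 ≤ K ∧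
  ∀ (h f : X.X → ℂ) (N : ℕ) (c : ℕ → ℕ → X.X → ℂ) (κ : ℕ → ℝ) (M : ℕ), MB X h → MB X f → 1 ≤ N →
    (∀ n n', Ver X C (d2 X u n n' g) (c n n')) → (∀ d, 0 ≤ κ d) →
    ∑ d ∈ Finset.range M, κ d = 1 →
    NW X a b κ M h f k ^ 2 ≤
      K * 𝔼 n : Fin N, 𝔼 n' : Fin N, NW X a b κ M (d2 X u n n' h) (d2 X u n n' f) (c n n')

def GP (X : Sy) (a b : Gm 2) (w : ℕ → ℕ → ℝ) (A1 A2 : MeasurableSpace X.X) : Prop :=
  ∀ f g, MB X f → MB X g → BM X.μ A1 f → BM X.μ A2 g → VW X a b w f g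

def OwnS : Prop := ∀ ν ν', PW ν → PW ν' → AsInv ν' → ∀ (X : Sy) (a b u : Gm 2)
  (B A1 A2 : MeasurableSpace X.X), Nice X → Bs X a b (df ν ν') B → Fac X A1 → Fac X A2 → B ≤ A2 →
  (u = b ∨ u = b - a) → GP X a b (df ν ν') A1 A2 → GP X a b (df ν ν') A1 (KK X u A2)

def ForS : Prop := ∀ ν ν', PW ν → PW ν' → AsInv ν' → ∀ (X : Sy) (a b u : Gm 2)
  (B A1 A2 : MeasurableSpace X.X), Nice X → Bs X b a (df ν ν') B → Fac X A1 → Fac X A2 → B ≤ A1 →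
  (u = a ∨ u = a - b) → GP X a b (df ν ν') A1 A2 → GP X a b (df ν ν') A1 (KK X u A2)

def HullS : Prop := ∀ ν ν', PW ν → PW ν' → AsInv ν' → ∀ (X : Sy) (B B' : MeasurableSpace X.X),
  Nice X → Bs X (rr 0) (rr 1) (df ν ν') B → Bs X (rr 1) (rr 0) (df ν ν') B' →
  ∃ C, T4x.KC X C ∧ GP X (rr 0) (rr 1) (df ν ν') C C

def TopS : Prop := ∀ ν ν', PW ν → PW ν' → Erg ν → Erg ν' → Spr ν → Spr ν' →
  (∀ X : Sy, Nice X → ∃ C, T4x.KC X C ∧ GP X (rr 0) (rr 1) (df ν ν') C C) →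
  ∀ (X : Sy) (f g : X.X → ℂ), MB X f → MB X g → VW X (rr 0) (rr 1) (df ν ν') f g

/-! ### the end -/

/-- the tested weighted average for a family of maps -/
def VanW {X : Type} [MeasurableSpace X] (μ : Measure X) (T : Fin 2 → X ≃ᵐ X) (w : ℕ → ℕ → ℝ) :
    Prop := ∀ (h : X → ℝ) (f : Fin 2 → X → ℝ), Measurable h → (∀ x, |h x| ≤ 1) →
  (∀ i, Measurable (f i)) → (∀ i x, |f i x| ≤ 1) →
  Tendsto (fun M => ∑ d ∈ Finset.range M,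
    w M d * ∫ x, h x * ∏ i, f i ((⇑(T i))^[d] x) ∂μ) atTop (𝓝 0)

/-- the conclusion of the theorem -/
def Concl (p : ℕ → Prop) {X : Type} [MeasurableSpace X] (μ : Measure X) (T : Fin 2 → X ≃ᵐ X)
    (f : Fin 2 → X → ℝ) : Prop :=
  ∃ g : X → ℝ, MemLp g 2 μ ∧
    (∀ h : X → ℝ, MemLp h 2 μ → Tendsto (fun N : ℕ => ∫ x, h x * ((N : ℝ)⁻¹ *
        ∑ n ∈ Finset.range N, ∏ i, f i ((⇑(T i))^[Nat.nth p n] x)) ∂μ) atTop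
      (𝓝 (∫ x, h x * g x ∂μ))) ∧
    Tendsto (fun N : ℕ => eLpNorm (fun x => (N : ℝ)⁻¹ *
        (∑ n ∈ Finset.Icc 1 N, ∏ i, f i ((⇑(T i))^[n] x)) - g x) 2 μ) atTop (𝓝 0)

def EndA : Prop := ∀ w : ℕ → ℕ → ℝ,
  (∀ (X : Sy) (f g : X.X → ℂ), MB X f → MB X g → VW X (rr 0) (rr 1) w f g) →
  ∀ (X : Type) [MeasurableSpace X] (μ : Measure X) [IsProbabilityMeasure μ]
    (T : Fin 2 → X ≃ᵐ X), (∀ i, MeasurePreserving (⇑(T i)) μ μ) →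
    (∀ i j, Function.Commute ⇑(T i) ⇑(T j)) → VanW μ T w

def EndB : Prop := ∀ (σ : ℕ → ℝ) (p : ℕ → Prop), (∀ n, 0 ≤ σ n) → Antitone σ →
  Tendsto (T3S.Wt σ) atTop atTop →
  Tendsto (fun M => ∑ d ∈ Finset.range M, yw σ p M d) atTop (𝓝 0) →
  ∀ (X : Type) [MeasurableSpace X] (μ : Measure X) [IsProbabilityMeasure μ]
    (T : Fin 2 → X ≃ᵐ X), (∀ i, MeasurePreserving (⇑(T i)) μ μ) →
    (∀ i j, Function.Commute ⇑(T i) ⇑(T j)) → VanW μ T (yw σ p) →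
    ∀ f : Fin 2 → X → ℝ, (∀ i, MemLp (f i) ⊤ μ) → Concl p μ T f

def MainS : Prop := ∀ σ : ℕ → ℝ, (∀ n, 0 ≤ σ n ∧ σ n ≤ 1) → Antitone σ → Gr σ 1 →
  ∀ (Ω : Type) [MeasurableSpace Ω] (P : Measure Ω) [IsProbabilityMeasure P]
    (E : ℕ → Set Ω), (∀ n, MeasurableSet (E n)) → iIndepSet E P →
    (∀ n, P (E n) = ENNReal.ofReal (σ n)) →
  ∀ᵐ ω ∂P, ∀ (X : Type) [MeasurableSpace X] (μ : Measure X) [IsProbabilityMeasure μ]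
    (T : Fin 2 → X ≃ᵐ X) (f : Fin 2 → X → ℝ),
    (∀ i, MeasurePreserving (⇑(T i)) μ μ) → (∀ i j, Function.Commute ⇑(T i) ⇑(T j)) →
    (∀ i, MemLp (f i) ⊤ μ) → Concl (fun m => ω ∈ E m) μ T f

/-! ### the rows -/

def AtR : Prop := AtS
def UwR : Prop := T3x.Bas → T5u.ErgL → UwS
def TsAeR : Prop := T5u.NetT → T3S.UbS → T3S.AeS → T3S.NormS → TsAe
def TsNR : Prop := TsN
def ProdR : Prop := ProdS
def GoodR : Prop := ProdS → GoodS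
def ConvR : Prop := T3x.Bas → ConvS
def DwR : Prop := T3S.VdcS → T3S.GvnS → DwS
def UnifR : Prop := T3S.FacS → T3S.ZeroS → DwS → UnifS
def DetUR : Prop := T3x.Fd → (∀ ν, T5y.UW ν → T5y.CoreF ν) → DetU
def EBR : Prop := Fd → VB → EB
def SelR : Prop := SelS
def FinR : Prop := FinS
def PdAR : Prop := Fd → VB → PdA
def PdR : Prop := Fd → VB → PdA → PdS
def MetR : Prop := Fd → MetS
def EigR : Prop := Fd → VB → NulInv → EB → SelS → FinS → PdS → MetS → EigS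
def WBR : Prop := Fd → WB
def ClR : Prop := Fd → VB → EB → ClS
def StBR : Prop := Fd → VB → WB → EB → StB
def StSR : Prop := Fd → VB → WB → EB → StS
def LiftR : Prop := Fd → VB → WB → LiftA → LiftS
def NulR : Prop := Fd → VB → QB → EB → LiftA → LbS → ClS → EigS → NulS
def DcR : Prop := Fd → EB → DcS
def DblR : Prop := Fd → VB → WB → EB → LiftA → G0S → ClS → StB → StS → LiftS → NulS → DcS → DblS
def HasR : Prop := Fd → VB → EB → LiftA → ClS → LiftS → NulS → DblS → HasS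
def KeyR : Prop := Fd → KeyS
def OwnR : Prop := Fd → VB → WB → KeyS → G0S → OwnS
def ForR : Prop := Fd → VB → WB → KeyS → G0S → ForS
def HullR : Prop := Fd → VB → WB → OwnS → ForS → HullS
def TopR : Prop := Fd → T4x.IndS → VB → WB → TopS
def EndAR : Prop := T4S.ActS → EndA
def EndBR : Prop := EndB

end T8

end
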